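import Pool.Agent.Lib.Subspace.Norm

/-! The auxiliary polynomial (Siegel lemma and a Chebyshev count).

`cheb`: put `φ j J = ∑ i, J i * γ j i - d j * (∑ i, γ j i) / N`; `|φ j J| ≤ 2 G` on
`piAntidiag univ (d j)`; its sum over `piAntidiag univ (d j)` is zero (the sum of `J i` over the
set does not depend on `i`, by the bijection `J ↦ J ∘ swap i i'`, and these sums add up to
`d j * card`). So the sum of `(∑ j, φ j (J j)) ^ 2` over the product set is at most
`m * 4 G^2 * card` (cross terms vanish: `Finset.prod_univ_sum` or a fibrewise argument), and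
every bad `J` contributes more than `(m ε)^2`.

`aux_poly`: unknowns `t : 𝒥 → ℤ`, `𝒥` the product set; `P = ∑ J, monomial (toF J) (t J)`; rows
`(s, J)` with `J` bad for `s`; the entry at column `J'` is the (integer) coefficient at `J` of
`subst (toQ (B s ·)) (monomial (toF J') 1)`, bounded by `∏ j, (N β j) ^ d j` (`l1_subst_le`,
`coeff_le_l1`). At most half as many rows as columns. Use
`Int.Matrix.exists_ne_zero_int_vec_norm_le` (exponent at most one; if there is no row take any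
single monomial). `card 𝒥 ≤ ∏ j, (2 ^ N) ^ d j` because `J i ≤ d j < 2 ^ d j`.
`mhom_subst` shows that the support of the substituted polynomial stays in `𝒥`. -/

set_option autoImplicit false

open MvPolynomial

namespace Pool.Agent.Lib.Subspace

open Classical in
lemma auxpoly_weight {μ ι : Type*} [Fintype μ] [Fintype ι] (j : μ) (J : μ × ι →₀ ℕ) :
    Finsupp.weight (fun x : μ × ι => if x.1 = j then 1 else 0) J = ∑ i, J (j, i) := by
  rw [Finsupp.weight_apply, Finsupp.sum_fintype _ _ (by simp), Fintype.sum_prod_type,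
    Finset.sum_eq_single j]
  · simp
  · intro k _ hk
    simp [hk]
  · simp

lemma mhom_subst {μ ι : Type*} [Fintype μ] [Fintype ι] {d : μ → ℕ} {f : MvPolynomial (μ × ι) ℚ}
    (hf : MHom d f) (B : μ → Matrix ι ι ℚ) : MHom d (subst B f) := by
  classical
  intro J hJ j
  rw [← auxpoly_weight]
  have key : IsWeightedHomogeneous (fun x : μ × ι => if x.1 = j then 1 else 0) (subst B f)
      (d j) := by
    rw [f.as_sum, map_sum]
    refine IsWeightedHomogeneous.sum _ _ _ fun K hK => ?_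
    rw [subst, aeval_monomial, algebraMap_eq, ← hf K hK j, ← auxpoly_weight,
      Finsupp.weight_apply]
    refine IsWeightedHomogeneous.C_mul ?_ _
    refine IsWeightedHomogeneous.prod _ _ _ fun x _ => ?_
    refine IsWeightedHomogeneous.pow ?_ _
    refine IsWeightedHomogeneous.sum _ _ _ fun k _ => ?_
    exact IsWeightedHomogeneous.C_mul
      (isWeightedHomogeneous_X ℚ (fun x : μ × ι => if x.1 = j then 1 else 0) (x.1, k)) _
  convert key (mem_support_iff.mp hJ)

lemma auxpoly_var {m : ℕ} {α : Type*} (A : Fin m → Finset α) (φ : Fin m → α → ℝ) (c : ℝ)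
    (h0 : ∀ j, ∑ a ∈ A j, φ j a = 0) (hc : ∀ j, ∀ a ∈ A j, |φ j a| ≤ c) :
    ∑ J ∈ Fintype.piFinset A, (∑ j, φ j (J j)) ^ 2 ≤ m * c ^ 2 * (Fintype.piFinset A).card := by
  have h1 : ∀ j k : Fin m, j ≠ k → ∑ J ∈ Fintype.piFinset A, φ j (J j) * φ k (J k) = 0 := by
    intro j k hjk
    have h2 := Finset.prod_univ_sum A
      (fun l a => (if l = j then φ l a else 1) * (if l = k then φ l a else 1))
    simp only [Finset.prod_mul_distrib, Finset.prod_ite_eq', Finset.mem_univ, if_true] at h2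
    rw [← h2]
    refine Finset.prod_eq_zero (Finset.mem_univ j) ?_
    simp [hjk, h0]
  simp only [sq (∑ j, _), Finset.sum_mul_sum]
  rw [Finset.sum_comm]
  have h3 : ∀ j : Fin m, ∑ J ∈ Fintype.piFinset A, ∑ k, φ j (J j) * φ k (J k) ≤
      c ^ 2 * (Fintype.piFinset A).card := by
    intro j
    rw [Finset.sum_comm, Finset.sum_eq_single j (fun k _ hk => h1 j k hk.symm) (by simp)]
    refine (Finset.sum_le_card_nsmul _ _ (c ^ 2) fun J hJ => ?_).trans (by simp [mul_comm])
    have := hc j (J j) (Fintype.mem_piFinset.mp hJ j)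
    rw [← sq, ← sq_abs]
    exact pow_le_pow_left₀ (abs_nonneg _) this 2
  refine (Finset.sum_le_sum fun j _ => h3 j).trans ?_
  simp [mul_assoc]

lemma auxpoly_sym {ι : Type*} [Fintype ι] [DecidableEq ι] (d : ℕ) (i i' : ι) :
    ∑ J ∈ Finset.piAntidiag (Finset.univ : Finset ι) d, (J i : ℝ) =
      ∑ J ∈ Finset.piAntidiag (Finset.univ : Finset ι) d, (J i' : ℝ) := by
  have h : ∀ J ∈ Finset.piAntidiag (Finset.univ : Finset ι) d,
      J ∘ Equiv.swap i i' ∈ Finset.piAntidiag (Finset.univ : Finset ι) d := by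
    intro J hJ
    simp only [Finset.mem_piAntidiag, Finset.mem_univ, implies_true, and_true] at hJ ⊢
    rw [← hJ]
    exact Equiv.sum_comp (Equiv.swap i i') J
  refine Finset.sum_nbij' (fun J => J ∘ Equiv.swap i i') (fun J => J ∘ Equiv.swap i i') h h
    (fun J _ => ?_) (fun J _ => ?_) (fun J _ => by simp)
  · ext k
    simp
  · ext k
    simp

lemma auxpoly_mean {ι : Type*} [Fintype ι] [DecidableEq ι] [Nonempty ι] (d : ℕ) (γ : ι → ℝ) :
    ∑ J ∈ Finset.piAntidiag (Finset.univ : Finset ι) d,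
      (∑ i, (J i : ℝ) * γ i - (d : ℝ) * (∑ i, γ i) / Fintype.card ι) = 0 := by
  have hN : (Fintype.card ι : ℝ) ≠ 0 := by exact_mod_cast Fintype.card_ne_zero
  have h1 : ∀ i, ∑ J ∈ Finset.piAntidiag (Finset.univ : Finset ι) d, (J i : ℝ) =
      (Finset.piAntidiag (Finset.univ : Finset ι) d).card * d / Fintype.card ι := by
    intro i
    rw [eq_div_iff hN]
    have h2 : ∑ k : ι, ∑ J ∈ Finset.piAntidiag (Finset.univ : Finset ι) d, (J k : ℝ) =
        (Finset.piAntidiag (Finset.univ : Finset ι) d).card * d := by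
      rw [Finset.sum_comm, ← nsmul_eq_mul, ← Finset.sum_const]
      refine Finset.sum_congr rfl fun J hJ => ?_
      exact_mod_cast (Finset.mem_piAntidiag.mp hJ).1
    rw [← h2, Finset.sum_congr rfl fun k _ => auxpoly_sym d k i]
    simp [mul_comm]
  rw [Finset.sum_sub_distrib, Finset.sum_comm]
  simp only [← Finset.sum_mul, h1, ← Finset.mul_sum, Finset.sum_const, nsmul_eq_mul]
  ring

lemma auxpoly_abs {ι : Type*} [Fintype ι] [DecidableEq ι] [Nonempty ι] (d : ℕ) (γ : ι → ℝ) (G : ℝ)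
    (hG : ∀ i, (d : ℝ) * |γ i| ≤ G) {J : ι → ℕ}
    (hJ : J ∈ Finset.piAntidiag (Finset.univ : Finset ι) d) :
    |∑ i, (J i : ℝ) * γ i - (d : ℝ) * (∑ i, γ i) / Fintype.card ι| ≤ 2 * G := by
  have hN : (0 : ℝ) < Fintype.card ι := by exact_mod_cast Fintype.card_pos
  have hs : ∑ i, (J i : ℝ) = d := by exact_mod_cast (Finset.mem_piAntidiag.mp hJ).1
  have hG0 : 0 ≤ G := le_trans (by positivity) (hG (Classical.arbitrary ι))
  have h1 : |∑ i, (J i : ℝ) * γ i| ≤ G := by
    refine (Finset.abs_sum_le_sum_abs _ _).trans ?_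
    rcases Nat.eq_zero_or_pos d with h | h
    · have : ∀ i, (J i : ℝ) = 0 := by
        intro i
        rw [h, Nat.cast_zero, Finset.sum_eq_zero_iff_of_nonneg (fun i _ => by positivity)] at hs
        exact hs i (Finset.mem_univ i)
      simpa [this] using hG0
    · have hd : (0 : ℝ) < d := by exact_mod_cast h
      refine le_of_mul_le_mul_left ?_ hd
      rw [Finset.mul_sum]
      conv_rhs => rw [← hs, Finset.sum_mul]
      refine Finset.sum_le_sum fun i _ => ?_
      rw [abs_mul, Nat.abs_cast, mul_left_comm]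
      exact mul_le_mul_of_nonneg_left (hG i) (by positivity)
  have h2 : |(d : ℝ) * (∑ i, γ i) / Fintype.card ι| ≤ G := by
    rw [abs_div, abs_of_pos hN, div_le_iff₀ hN, Finset.mul_sum]
    refine (Finset.abs_sum_le_sum_abs _ _).trans ?_
    refine (Finset.sum_le_card_nsmul _ _ G fun i _ => ?_).trans (by simp [mul_comm])
    rw [abs_mul, Nat.abs_cast]
    exact hG i
  refine (abs_sub _ _).trans ?_
  linarith

open Classical in
lemma cheb {m : ℕ} {ι : Type*} [Fintype ι] [DecidableEq ι] [Nonempty ι] (hm : 0 < m)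
    (d : Fin m → ℕ) (γ : Fin m → ι → ℝ) (G ε : ℝ) (hε : 0 < ε)
    (hG : ∀ j i, (d j : ℝ) * |γ j i| ≤ G) :
    (((Fintype.piFinset fun j => Finset.piAntidiag (Finset.univ : Finset ι) (d j)).filter
        fun J => ∑ j, (d j : ℝ) * (∑ i, γ j i) / Fintype.card ι + m * ε <
          ∑ j, ∑ i, (J j i : ℝ) * γ j i).card : ℝ) * (m * ε ^ 2) ≤
      4 * G ^ 2 * (Fintype.piFinset fun j =>
        Finset.piAntidiag (Finset.univ : Finset ι) (d j)).card := by
  have hm' : (0 : ℝ) < m := by exact_mod_cast hm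
  have h1 := auxpoly_var (fun j => Finset.piAntidiag (Finset.univ : Finset ι) (d j))
    (fun j J => ∑ i, (J i : ℝ) * γ j i - (d j : ℝ) * (∑ i, γ j i) / Fintype.card ι) (2 * G)
    (fun j => auxpoly_mean (d j) (γ j)) (fun j a ha => auxpoly_abs (d j) (γ j) G (hG j) ha)
  refine le_of_mul_le_mul_left ?_ hm'
  refine le_trans ?_ (h1.trans (le_of_eq (by ring)))
  refine le_trans ?_ (Finset.sum_le_sum_of_subset_of_nonneg (Finset.filter_subset
    (fun J => ∑ j, (d j : ℝ) * (∑ i, γ j i) / Fintype.card ι + m * ε <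
      ∑ j, ∑ i, (J j i : ℝ) * γ j i) _) fun _ _ _ => sq_nonneg _)
  refine le_trans (le_of_eq ?_) (Finset.card_nsmul_le_sum _ _ ((m * ε) ^ 2) fun J hJ => ?_)
  · rw [nsmul_eq_mul]
    ring
  · have h2 := (Finset.mem_filter.mp hJ).2
    rw [Finset.sum_sub_distrib]
    exact pow_le_pow_left₀ (by positivity) (by linarith) 2

/-- A block exponent as a finitely supported function. -/
noncomputable def auxpoly_toF {μ ι : Type*} [Fintype μ] [Fintype ι] (J : μ → ι → ℕ) :
    μ × ι →₀ ℕ := Finsupp.equivFunOnFinite.symm fun x => J x.1 x.2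

@[simp] lemma auxpoly_toF_apply {μ ι : Type*} [Fintype μ] [Fintype ι] (J : μ → ι → ℕ) (j : μ)
    (i : ι) : auxpoly_toF J (j, i) = J j i := rfl

lemma auxpoly_toF_inj {μ ι : Type*} [Fintype μ] [Fintype ι] :
    Function.Injective (auxpoly_toF : (μ → ι → ℕ) → μ × ι →₀ ℕ) := by
  intro J K h
  ext j i
  rw [← auxpoly_toF_apply J, h, auxpoly_toF_apply]

lemma auxpoly_card {ι : Type*} [Fintype ι] [DecidableEq ι] (d : ℕ) :
    ((Finset.piAntidiag (Finset.univ : Finset ι) d).card : ℝ) ≤ (2 ^ Fintype.card ι) ^ d := by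
  have h : Finset.piAntidiag (Finset.univ : Finset ι) d ⊆
      Fintype.piFinset fun _ => Finset.range (2 ^ d) := by
    intro J hJ
    rw [Fintype.mem_piFinset]
    intro i
    rw [Finset.mem_range]
    refine lt_of_le_of_lt ?_ (Nat.lt_two_pow_self (n := d))
    rw [← (Finset.mem_piAntidiag.mp hJ).1]
    exact Finset.single_le_sum (f := J) (fun _ _ => Nat.zero_le _) (Finset.mem_univ i)
  have h2 := Finset.card_le_card h
  rw [Fintype.card_piFinset, Finset.prod_const, Finset.card_range, Finset.card_univ,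
    ← pow_mul, mul_comm, pow_mul] at h2
  exact_mod_cast h2

lemma auxpoly_siegel {α β : Type*} [Fintype α] [Fintype β] [Nonempty β] (A : Matrix α β ℤ)
    (h : 2 * Fintype.card α ≤ Fintype.card β) (T : ℝ) (hT : 1 ≤ T)
    (hA : ∀ a b, |(A a b : ℝ)| ≤ T) :
    ∃ t : β → ℤ, t ≠ 0 ∧ (∀ a, ∑ b, A a b * t b = 0) ∧
      ∀ b, |(t b : ℝ)| ≤ Fintype.card β * T := by
  have hβ : 0 < Fintype.card β := Fintype.card_pos
  have hβ' : (1 : ℝ) ≤ Fintype.card β := by exact_mod_cast hβ
  rcases Nat.eq_zero_or_pos (Fintype.card α) with h0 | h0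
  · have := Fintype.card_eq_zero_iff.mp h0
    refine ⟨fun _ => 1, fun h => ?_, fun a => isEmptyElim a, fun b => ?_⟩
    · exact one_ne_zero (congrFun h (Classical.arbitrary β))
    · simpa using one_le_mul_of_one_le_of_one_le hβ' hT
  · letI : SeminormedAddCommGroup (Matrix α β ℤ) := Matrix.seminormedAddCommGroup
    obtain ⟨t, h1, h2, h3⟩ := Int.Matrix.exists_ne_zero_int_vec_norm_le A (by omega) h0
    refine ⟨t, h1, fun a => congrFun h2 a, fun b => ?_⟩
    have h4 : ‖A‖ ≤ T := (Matrix.norm_le_iff (by linarith)).mpr fun a b => by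
      rw [Int.norm_eq_abs]
      exact hA a b
    have h5 : (1 : ℝ) ≤ Fintype.card β * max 1 ‖A‖ :=
      one_le_mul_of_one_le_of_one_le hβ' (le_max_left _ _)
    have h6 : (2 * Fintype.card α : ℝ) ≤ Fintype.card β := by exact_mod_cast h
    have h7 : (0 : ℝ) < Fintype.card α := by exact_mod_cast h0
    have h8 : (Fintype.card α : ℝ) / (Fintype.card β - Fintype.card α) ≤ 1 := by
      rw [div_le_one (by linarith)]
      linarith
    rw [← Int.norm_eq_abs]
    refine (norm_le_pi_norm t b).trans (h3.trans ?_)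
    refine (Real.rpow_le_rpow_of_exponent_le h5 h8).trans ?_
    rw [Real.rpow_one]
    exact mul_le_mul_of_nonneg_left (max_le hT h4) (by linarith)

theorem aux_poly {m : ℕ} {ι S : Type*} [Fintype ι] [DecidableEq ι] [Nonempty ι] [Fintype S]
    (hm : 0 < m) (d : Fin m → ℕ) (B : S → Fin m → Matrix ι ι ℤ) (β : Fin m → ℝ)
    (hβ : ∀ j, 1 ≤ β j) (hB : ∀ s j i k, |(B s j i k : ℝ)| ≤ β j) (γ : S → Fin m → ι → ℝ)
    (G ε : ℝ) (hε : 0 < ε) (hG : ∀ s j i, (d j : ℝ) * |γ s j i| ≤ G)
    (hmε : 8 * (Fintype.card S : ℝ) * G ^ 2 ≤ m * ε ^ 2) :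
    ∃ P : MvPolynomial (Fin m × ι) ℚ, P ≠ 0 ∧ P ∈ ZP (Fin m × ι) ∧ MHom d P ∧
      l1 P ≤ ∏ j, ((4 : ℝ) ^ Fintype.card ι * Fintype.card ι * β j) ^ d j ∧
      ∀ s, ∀ J ∈ (subst (fun j => toQ (B s j)) P).support,
        ∑ j, ∑ i, (J (j, i) : ℝ) * γ s j i ≤
          ∑ j, (d j : ℝ) * (∑ i, γ s j i) / Fintype.card ι + m * ε := by
  classical
  set 𝒥 := Fintype.piFinset fun j => Finset.piAntidiag (Finset.univ : Finset ι) (d j) with h𝒥
  have hmem : ∀ J : Fin m → ι → ℕ, J ∈ 𝒥 ↔ ∀ j, ∑ i, J j i = d j := by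
    intro J
    simp [h𝒥, Fintype.mem_piFinset, Finset.mem_piAntidiag]
  let bad : S → Finset (Fin m → ι → ℕ) := fun s => 𝒥.filter
    fun J => ∑ j, (d j : ℝ) * (∑ i, γ s j i) / Fintype.card ι + m * ε <
      ∑ j, ∑ i, (J j i : ℝ) * γ s j i
  have hm' : (0 : ℝ) < m := by exact_mod_cast hm
  have hN : (1 : ℝ) ≤ Fintype.card ι := by exact_mod_cast Fintype.card_pos
  have hcard : 2 * Fintype.card (Σ s, bad s) ≤ Fintype.card 𝒥 := by
    have h1 : ∀ s, ((bad s).card : ℝ) * (m * ε ^ 2) ≤ 4 * G ^ 2 * 𝒥.card := fun s => by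
      convert cheb hm d (γ s) G ε hε (hG s)
    have h2 : (∑ s, ((bad s).card : ℝ)) * (m * ε ^ 2) ≤ Fintype.card S * (4 * G ^ 2 * 𝒥.card) := by
      rw [Finset.sum_mul]
      refine (Finset.sum_le_card_nsmul _ _ _ fun s _ => h1 s).trans (by simp)
    have h3 : (0 : ℝ) < m * ε ^ 2 := by positivity
    have h4 : 2 * (∑ s, ((bad s).card : ℝ)) ≤ 𝒥.card := by
      refine le_of_mul_le_mul_right ?_ h3
      have := mul_le_mul_of_nonneg_left hmε (Nat.cast_nonneg (α := ℝ) 𝒥.card)
      nlinarith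
    rw [Fintype.card_sigma, Fintype.card_coe]
    simp only [Fintype.card_coe]
    exact_mod_cast h4
  have : Nonempty 𝒥 := ⟨⟨fun j => Pi.single (Classical.arbitrary ι) (d j), by
    rw [hmem]
    intro j
    simp⟩⟩
  have hmono : ∀ (J : 𝒥) (c : ℚ), MHom d (monomial (auxpoly_toF J.1) c) := by
    intro J c K hK j
    have := Finset.mem_singleton.mp (support_monomial_subset hK)
    rw [this]
    exact (hmem _).mp J.2 j
  have hz : ∀ (r : Σ s, bad s) (J : 𝒥), ∃ z : ℤ, coeff (auxpoly_toF r.2.1)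
      (subst (fun j => toQ (B r.1 j)) (monomial (auxpoly_toF J.1) 1)) = z := fun r J =>
    mem_ZP_iff.mp (subst_mem_ZP _ (by simpa using monomial_mem_ZP (auxpoly_toF J.1) 1)) _
  choose A hA using hz
  have hT : (1 : ℝ) ≤ ∏ j, ((Fintype.card ι : ℝ) * β j) ^ d j :=
    Finset.one_le_prod fun j _ => one_le_pow₀ (one_le_mul_of_one_le_of_one_le hN (hβ j))
  obtain ⟨t, ht0, ht1, ht2⟩ := auxpoly_siegel (Matrix.of A) hcard _ hT fun r J => by
    have h1 := (coeff_le_l1 _ (auxpoly_toF r.2.1)).trans (l1_subst_le (fun j => toQ (B r.1 j)) β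
      (fun j i k => by simpa [toQ] using hB r.1 j i k) (hmono J 1))
    rw [hA, l1_monomial] at h1
    simpa using h1
  have hP : MHom d (∑ J : 𝒥, monomial (auxpoly_toF J.1) (t J : ℚ)) := by
    intro K hK
    obtain ⟨J, _, hJ⟩ := Finset.mem_biUnion.mp (support_sum hK)
    exact hmono J _ K hJ
  refine ⟨∑ J : 𝒥, monomial (auxpoly_toF J.1) (t J : ℚ), ?_,
    Subring.sum_mem _ fun J _ => monomial_mem_ZP _ _, hP, ?_, ?_⟩
  · intro h
    apply ht0
    funext J
    have h1 := congrArg (coeff (auxpoly_toF J.1)) h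
    rw [coeff_sum, Finset.sum_eq_single J] at h1
    · simpa using h1
    · intro K _ hK
      rw [coeff_monomial, if_neg]
      exact fun h => hK (Subtype.ext (auxpoly_toF_inj h))
    · simp
  · refine (l1_sum_le _ _).trans ?_
    have h1 : (Fintype.card 𝒥 : ℝ) ≤ ∏ j, (2 ^ Fintype.card ι : ℝ) ^ d j := by
      rw [Fintype.card_coe, h𝒥, Fintype.card_piFinset, Nat.cast_prod]
      exact Finset.prod_le_prod (fun _ _ => by positivity) fun j _ => auxpoly_card (d j)
    refine (Finset.sum_le_card_nsmul _ _ (Fintype.card 𝒥 * ∏ j,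
      ((Fintype.card ι : ℝ) * β j) ^ d j) fun J _ => ?_).trans ?_
    · rw [l1_monomial]
      simpa using ht2 J
    · rw [nsmul_eq_mul, Finset.card_univ]
      calc _ ≤ (∏ j, (2 ^ Fintype.card ι : ℝ) ^ d j) * ((∏ j, (2 ^ Fintype.card ι : ℝ) ^ d j) *
            ∏ j, ((Fintype.card ι : ℝ) * β j) ^ d j) := by gcongr
        _ = _ := by
          rw [← Finset.prod_mul_distrib, ← Finset.prod_mul_distrib]
          refine Finset.prod_congr rfl fun j _ => ?_
          rw [← mul_pow, ← mul_pow, ← mul_assoc, ← mul_pow, ← mul_assoc]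
          norm_num
  · intro s K hK
    by_contra hlt
    have hK1 : (fun j i => K (j, i)) ∈ bad s :=
      Finset.mem_filter.mpr ⟨(hmem _).mpr (mhom_subst hP _ K hK), not_le.mp hlt⟩
    have hK2 : auxpoly_toF (fun j i => K (j, i)) = K := by
      ext x
      rfl
    apply mem_support_iff.mp hK
    have h1 := ht1 ⟨s, _, hK1⟩
    rw [map_sum, coeff_sum]
    have h2 : ∀ J : 𝒥, coeff K (subst (fun j => toQ (B s j))
        (monomial (auxpoly_toF J.1) (t J : ℚ))) = ((A ⟨s, _, hK1⟩ J * t J : ℤ) : ℚ) := by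
      intro J
      have h3 := hA ⟨s, _, hK1⟩ J
      simp only [hK2] at h3
      have h4 : (monomial (auxpoly_toF J.1) (t J : ℚ) : MvPolynomial (Fin m × ι) ℚ) =
          (t J : ℚ) • monomial (auxpoly_toF J.1) 1 := by
        rw [smul_monomial, smul_eq_mul, mul_one]
      rw [h4, map_smul, coeff_smul, h3, smul_eq_mul, Int.cast_mul, mul_comm]
    rw [Finset.sum_congr rfl fun J _ => h2 J, ← Int.cast_sum]
    exact_mod_cast h1

end Pool.Agent.Lib.Subspace
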