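import Pool.Agent.Lib.Subspace.Defs

/-! Compound matrices.

`cmp_mul` (Cauchy-Binet): either through `exteriorPower.map`, `Module.Basis.exteriorPower` and
`LinearMap.toMatrix_comp`, or directly: expand `det ((A * B).submatrix f g)` by multilinearity
over `h : Fin p → Fin M`, drop non-injective `h`, write injective `h = emb s ∘ perm`.
`cmp_contract`: let `Y = (B over ℚ)⁻¹`; `cmp p B *ᵥ c = r • e τ0`, so
`c s = r * det (Y.submatrix (emb s) (emb τ0))`, `r ≠ 0`. Pick `s0` with `c s0 ≠ 0`, `f = emb s0`,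
`u i = r * det (Y.submatrix (Function.update f 0 i) (emb τ0))`. It is `0` if the updated map is not
injective and `± c s` otherwise (`s` its image, `det_permute`); `u (f 0) = c s0`. By linearity of
`det` in row `0` (`det_updateRow_*`), `∑ i, x i * u i = r * det (updateRow .. 0 (fun l =>
c0 (emb τ0 l))) = 0` as `x ᵥ* Y = c0`. -/

set_option autoImplicit false

open Matrix

namespace Pool.Agent.Lib.Subspace

variable {M : ℕ}

lemma compound_dual {R : Type*} [CommRing R] (p : ℕ) (t : Set.powersetCard (Fin M) p)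
    (v : Fin p → Fin M → R) :
    exteriorPower.ιMultiDual R p (Pi.basisFun R (Fin M)) t (exteriorPower.ιMulti R p v) =
      (Matrix.of fun i j => v i (emb t j)).det := by
  rw [exteriorPower.ιMultiDual_apply_ιMulti]
  rfl

lemma compound_expand {R : Type*} [CommRing R] (p : ℕ) (v : Fin p → Fin M → R) :
    exteriorPower.ιMulti R p v = ∑ u : Set.powersetCard (Fin M) p,
      (Matrix.of fun i j => v i (emb u j)).det •
        exteriorPower.ιMulti R p (fun i => (Pi.single (emb u i) (1 : R) : Fin M → R)) := by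
  conv_lhs => rw [← ((Pi.basisFun R (Fin M)).exteriorPower p).sum_repr
    (exteriorPower.ιMulti R p v)]
  refine Finset.sum_congr rfl fun u _ => ?_
  rw [exteriorPower.basis_repr_apply, compound_dual, exteriorPower.basis_apply,
    exteriorPower.ιMulti_family]
  congr 2
  funext i
  simp only [Function.comp_apply, Pi.basisFun_apply]
  rfl

lemma cmp_mul {R : Type*} [CommRing R] (p : ℕ) (A B : Matrix (Fin M) (Fin M) R) :
    cmp p (A * B) = cmp p A * cmp p B := by
  ext s t
  have h := congrArg (fun w => exteriorPower.ιMultiDual R p (Pi.basisFun R (Fin M)) t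
    (exteriorPower.map p B.vecMulLinear w)) (compound_expand p (fun i => A (emb s i)))
  simp only [map_sum, map_smul, exteriorPower.map_apply_ιMulti, compound_dual, smul_eq_mul] at h
  rw [Matrix.mul_apply]
  have h1 : cmp p (A * B) s t = (Matrix.of fun i j =>
      (⇑B.vecMulLinear ∘ fun i => A (emb s i)) i (emb t j)).det := by
    unfold cmp
    congr 1
  rw [h1, h]
  refine Finset.sum_congr rfl fun u _ => ?_
  congr 1
  unfold cmp
  congr 1
  ext i j
  simp

lemma cmp_one {R : Type*} [CommRing R] (p : ℕ) :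
    cmp p (1 : Matrix (Fin M) (Fin M) R) = 1 := by
  ext s t
  by_cases hst : s = t
  · subst hst
    rw [Matrix.one_apply_eq]
    unfold cmp
    rw [Matrix.submatrix_one _ (emb s).injective, Matrix.det_one]
  · rw [Matrix.one_apply_ne hst]
    obtain ⟨i, his, hit⟩ := (Set.powersetCard.exists_mem_notMem_iff_ne s t).mp hst
    obtain ⟨k, rfl⟩ := (Set.powersetCard.mem_range_ofFinEmbEquiv_symm_iff_mem s i).mpr his
    unfold cmp
    refine Matrix.det_eq_zero_of_row_eq_zero k fun j => ?_
    rw [Matrix.submatrix_apply]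
    refine Matrix.one_apply_ne fun h => hit ?_
    have h' : Set.powersetCard.ofFinEmbEquiv.symm s k = emb t j := h
    rw [h', ← Set.powersetCard.mem_coe_iff]
    exact Finset.orderEmbOfFin_mem t.val t.prop j

lemma cmp_transpose {R : Type*} [CommRing R] (p : ℕ) (A : Matrix (Fin M) (Fin M) R) :
    cmp p Aᵀ = (cmp p A)ᵀ := by
  ext s t
  rw [Matrix.transpose_apply]
  unfold cmp
  rw [← Matrix.det_transpose, Matrix.transpose_submatrix, Matrix.transpose_transpose]

lemma compound_map {R S : Type*} [CommRing R] [CommRing S] (φ : R →+* S) (p : ℕ)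
    (A : Matrix (Fin M) (Fin M) R) : cmp p (A.map φ) = (cmp p A).map φ := by
  ext s t
  rw [Matrix.map_apply]
  unfold cmp
  rw [RingHom.map_det]
  rfl

lemma cmp_det_ne_zero (p : ℕ) (A : Matrix (Fin M) (Fin M) ℤ) (hA : A.det ≠ 0) :
    (cmp p A).det ≠ 0 := by
  intro h0
  have hq : IsUnit (A.map (Int.castRingHom ℚ)).det := by
    have : (A.map (Int.castRingHom ℚ)).det = (Int.castRingHom ℚ) A.det := by
      rw [RingHom.map_det]; rfl
    rw [this, isUnit_iff_ne_zero]
    simpa using hA
  have h1 := congrArg (cmp p) (Matrix.mul_nonsing_inv _ hq)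
  rw [cmp_mul, cmp_one, compound_map] at h1
  have h2 := congrArg Matrix.det h1
  have h3 : ((cmp p A).map (Int.castRingHom ℚ)).det = (Int.castRingHom ℚ) (cmp p A).det := by
    rw [RingHom.map_det]; rfl
  rw [Matrix.det_mul, h3, h0, map_zero, zero_mul, Matrix.det_one] at h2
  exact zero_ne_one h2

lemma abs_det_le_of_le_mul {p : ℕ} (N : Matrix (Fin p) (Fin p) ℤ) (t r : Fin p → ℝ)
    (h : ∀ l l', |(N l l' : ℝ)| ≤ t l * r l') :
    |(N.det : ℝ)| ≤ p.factorial * (∏ l, t l) * ∏ l, r l := by
  rw [Matrix.det_apply']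
  push_cast
  refine (Finset.abs_sum_le_sum_abs _ _).trans ?_
  have h1 : ∀ σ : Equiv.Perm (Fin p),
      |((Equiv.Perm.sign σ : ℤ) : ℝ) * ∏ i, (N (σ i) i : ℝ)| ≤ (∏ l, t l) * ∏ l, r l := by
    intro σ
    have hs : |((Equiv.Perm.sign σ : ℤ) : ℝ)| = 1 := by
      rcases Int.units_eq_one_or (Equiv.Perm.sign σ) with h | h <;> simp [h]
    rw [abs_mul, hs, one_mul, Finset.abs_prod, ← Equiv.prod_comp σ t, ← Finset.prod_mul_distrib]
    exact Finset.prod_le_prod (fun i _ => abs_nonneg _) fun i _ => h _ _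
  refine (Finset.sum_le_sum fun σ _ => h1 σ).trans ?_
  rw [Finset.sum_const, Finset.card_univ, Fintype.card_perm, Fintype.card_fin, nsmul_eq_mul,
    mul_assoc]

lemma prod_dvd_det {p : ℕ} (N : Matrix (Fin p) (Fin p) ℤ) (t : Fin p → ℤ)
    (h : ∀ l l', t l ∣ N l l') : ∏ l, t l ∣ N.det := by
  rw [Matrix.det_apply']
  refine Finset.dvd_sum fun σ _ => Dvd.dvd.mul_left ?_ _
  rw [← Equiv.prod_comp σ t]
  exact Finset.prod_dvd_prod_of_dvd _ _ fun i _ => h _ _

lemma prod_emb {R : Type*} [CommMonoid R] {p : ℕ} (s : Set.powersetCard (Fin M) p)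
    (f : Fin M → R) : ∏ l, f (emb s l) = ∏ i ∈ s.val, f i := by
  rw [← Finset.prod_coe_sort s.val f]
  exact Fintype.prod_equiv (s.val.orderIsoOfFin s.prop).toEquiv _ _ fun l => rfl

lemma card_powersetCard_le (p : ℕ) : Fintype.card (Set.powersetCard (Fin M) p) ≤ 2 ^ M := by
  refine (Fintype.card_le_of_injective (fun s : Set.powersetCard (Fin M) p => s.val)
    Subtype.val_injective).trans ?_
  rw [Fintype.card_finset, Fintype.card_fin]

lemma compound_card_mem (p : ℕ) (i j : Fin M) :
    (Finset.univ.filter fun s : Set.powersetCard (Fin M) p => i ∈ s.val).card =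
      (Finset.univ.filter fun s : Set.powersetCard (Fin M) p => j ∈ s.val).card := by
  have key : ∀ i j : Fin M,
      (Finset.univ.filter fun s : Set.powersetCard (Fin M) p => i ∈ s.val).card ≤
      (Finset.univ.filter fun s : Set.powersetCard (Fin M) p => j ∈ s.val).card := by
    intro i j
    refine Finset.card_le_card_of_injOn
      (fun s => Set.powersetCard.map p (Equiv.swap i j).toEmbedding s) ?_ ?_
    · intro s hs
      simp only [Finset.coe_filter, Finset.mem_univ, true_and, Set.mem_ofPred_eq] at hs ⊢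
      rw [Set.powersetCard.val_map, Finset.mem_map]
      exact ⟨i, hs, by simp⟩
    · intro s _ t _ hst
      have h := congrArg Subtype.val hst
      simp only [Set.powersetCard.val_map] at h
      exact Subtype.ext (Finset.map_injective _ h)
  exact le_antisymm (key i j) (key j i)

/-- Every index lies in the same number `r` of `p`-subsets. -/
lemma sum_sum_powersetCard (p : ℕ) : ∃ r : ℕ, r ≤ 2 ^ M ∧ ∀ f : Fin M → ℝ,
    ∑ s : Set.powersetCard (Fin M) p, ∑ i ∈ s.val, f i = r * ∑ i, f i := by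
  have h1 : ∀ f : Fin M → ℝ, ∑ s : Set.powersetCard (Fin M) p, ∑ i ∈ s.val, f i =
      ∑ i, ((Finset.univ.filter fun s : Set.powersetCard (Fin M) p => i ∈ s.val).card : ℝ)
        * f i := by
    intro f
    have h2 : ∀ s : Set.powersetCard (Fin M) p,
        ∑ i ∈ s.val, f i = ∑ i, if i ∈ s.val then f i else 0 := by
      intro s
      rw [← Finset.sum_filter]
      congr 1
      ext i
      simp
    simp only [h2]
    rw [Finset.sum_comm]
    refine Finset.sum_congr rfl fun i _ => ?_
    rw [← Finset.sum_filter, Finset.sum_const, nsmul_eq_mul]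
  rcases isEmpty_or_nonempty (Fin M) with hM | ⟨⟨i0⟩⟩
  · refine ⟨0, Nat.zero_le _, fun f => ?_⟩
    rw [h1]
    simp
  · refine ⟨(Finset.univ.filter fun s : Set.powersetCard (Fin M) p => i0 ∈ s.val).card, ?_,
      fun f => ?_⟩
    · exact ((Finset.card_filter_le _ _).trans_eq Finset.card_univ).trans (card_powersetCard_le p)
    · rw [h1, Finset.mul_sum]
      refine Finset.sum_congr rfl fun i _ => ?_
      rw [compound_card_mem p i i0]

lemma compound_factor {p : ℕ} (g : Fin p → Fin M) (hg : Function.Injective g) :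
    ∃ (s : Set.powersetCard (Fin M) p) (σ : Equiv.Perm (Fin p)), g = emb s ∘ σ := by
  have hc : (Finset.univ.map ⟨g, hg⟩ : Finset (Fin M)).card = p := by simp
  let s : Set.powersetCard (Fin M) p := ⟨Finset.univ.map ⟨g, hg⟩, hc⟩
  have hmem : ∀ l, g l ∈ s.val := fun l => Finset.mem_map.mpr ⟨l, Finset.mem_univ _, rfl⟩
  let k : Fin p → Fin p := fun l => (s.val.orderIsoOfFin s.prop).symm ⟨g l, hmem l⟩
  have hk : ∀ l, emb s (k l) = g l := by
    intro l
    have : ((s.val.orderIsoOfFin s.prop) (k l) : Fin M) = g l := by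
      simp only [k, OrderIso.apply_symm_apply]
    exact this
  have hki : Function.Injective k := by
    intro a b hab
    apply hg
    rw [← hk a, ← hk b, hab]
  refine ⟨s, Equiv.ofBijective k (Finite.injective_iff_bijective.mp hki), ?_⟩
  funext l
  exact (hk l).symm

lemma compound_minor {R : Type*} [CommRing R] {p : ℕ} (Y : Matrix (Fin M) (Fin M) R)
    (τ : Set.powersetCard (Fin M) p) (g : Fin p → Fin M) :
    (Y.submatrix g (emb τ)).det = 0 ∨ ∃ s, (Y.submatrix g (emb τ)).det = cmp p Y s τ ∨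
      (Y.submatrix g (emb τ)).det = -cmp p Y s τ := by
  by_cases hg : Function.Injective g
  · right
    obtain ⟨s, σ, rfl⟩ := compound_factor g hg
    refine ⟨s, ?_⟩
    have h1 : Y.submatrix (emb s ∘ σ) (emb τ) = (Y.submatrix (emb s) (emb τ)).submatrix σ id := rfl
    rw [h1, Matrix.det_permute]
    unfold cmp
    rcases Int.units_eq_one_or (Equiv.Perm.sign σ) with h | h <;> simp [h]
  · left
    simp only [Function.Injective, not_forall] at hg
    obtain ⟨a, b, hab, hne⟩ := hg
    refine Matrix.det_zero_of_row_eq hne ?_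
    funext l
    simp [hab]

lemma compound_linear {R : Type*} [CommRing R] {p : ℕ} (Y : Matrix (Fin M) (Fin M) R)
    (f e : Fin p → Fin M) (l0 : Fin p) (x : Fin M → R) :
    ∑ i, x i * (Y.submatrix (Function.update f l0 i) e).det =
      ((Y.submatrix f e).updateRow l0 (fun l => ∑ i, x i * Y i (e l))).det := by
  have h1 : ∀ i, Y.submatrix (Function.update f l0 i) e =
      (Y.submatrix f e).updateRow l0 (fun l => Y i (e l)) := by
    intro i
    ext a b
    by_cases ha : a = l0
    · subst ha; simp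
    · simp [Matrix.updateRow_ne ha, Function.update_of_ne ha]
  have h2 : (fun l => ∑ i, x i * Y i (e l)) = ∑ i, x i • fun l => Y i (e l) := by
    funext l
    simp
  simp only [h1, ← Matrix.cramer_transpose_apply]
  rw [h2, map_sum, Finset.sum_apply]
  refine Finset.sum_congr rfl fun i _ => ?_
  rw [map_smul, Pi.smul_apply, smul_eq_mul]

theorem cmp_contract (B : Matrix (Fin M) (Fin M) ℤ) (hB : B.det ≠ 0) (p : ℕ) (hp : 0 < p)
    (τ0 : Set.powersetCard (Fin M) p) (x c0 : Fin M → ℤ) (hx : ∀ k, x k = ∑ j, c0 j * B j k)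
    (h0 : ∀ j ∈ τ0.val, c0 j = 0) (c : Set.powersetCard (Fin M) p → ℤ) (hc : c ≠ 0)
    (hann : ∀ τ, τ ≠ τ0 → ∑ s, c s * cmp p B τ s = 0) :
    ∃ u : Fin M → ℤ, u ≠ 0 ∧ ∑ i, u i * x i = 0 ∧ ∀ i, u i = 0 ∨ ∃ s, |u i| = |c s| := by
  set Bq : Matrix (Fin M) (Fin M) ℚ := B.map (Int.castRingHom ℚ) with hBq
  have hq : IsUnit Bq.det := by
    have : Bq.det = (Int.castRingHom ℚ) B.det := by
      rw [RingHom.map_det]; rfl
    rw [this, isUnit_iff_ne_zero]
    simpa using hB
  set Y : Matrix (Fin M) (Fin M) ℚ := Bq⁻¹ with hY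
  set r : ℚ := ((∑ s, c s * cmp p B τ0 s : ℤ) : ℚ) with hr
  have hYB : cmp p Y * cmp p Bq = 1 := by
    rw [← cmp_mul, hY, Matrix.nonsing_inv_mul _ hq, cmp_one]
  have hBc : cmp p Bq *ᵥ (fun s => (c s : ℚ)) = Pi.single τ0 r := by
    funext τ
    have h1 : (cmp p Bq *ᵥ (fun s => (c s : ℚ))) τ = ((∑ s, c s * cmp p B τ s : ℤ) : ℚ) := by
      rw [hBq, compound_map]
      simp only [Matrix.mulVec, dotProduct, Matrix.map_apply, eq_intCast]
      push_cast
      exact Finset.sum_congr rfl fun s _ => mul_comm _ _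
    rw [h1]
    by_cases hτ : τ = τ0
    · subst hτ
      rw [Pi.single_eq_same]
    · rw [hann τ hτ, Pi.single_eq_of_ne hτ, Int.cast_zero]
  have hcs : ∀ s, (c s : ℚ) = r * cmp p Y s τ0 := by
    intro s
    have h1 : (cmp p Y * cmp p Bq) *ᵥ (fun s => (c s : ℚ)) = cmp p Y *ᵥ Pi.single τ0 r := by
      rw [← Matrix.mulVec_mulVec, hBc]
    rw [hYB, Matrix.one_mulVec] at h1
    have h2 := congrFun h1 s
    simp only [Matrix.mulVec_single, MulOpposite.smul_eq_mul_unop, Pi.smul_apply,
      MulOpposite.unop_op] at h2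
    rw [h2, mul_comm]
    rfl
  obtain ⟨s0, hs0⟩ : ∃ s0, c s0 ≠ 0 := Function.ne_iff.mp hc
  let l0 : Fin p := ⟨0, hp⟩
  have hu : ∀ i, ∃ z : ℤ,
      (z : ℚ) = r * (Y.submatrix (Function.update (emb s0) l0 i) (emb τ0)).det ∧
        (z = 0 ∨ ∃ s, |z| = |c s|) := by
    intro i
    rcases compound_minor Y τ0 (Function.update (emb s0) l0 i) with h | ⟨s, h | h⟩
    · exact ⟨0, by rw [h]; simp, Or.inl rfl⟩
    · exact ⟨c s, by rw [h, hcs], Or.inr ⟨s, rfl⟩⟩
    · exact ⟨-c s, by rw [h, Int.cast_neg, hcs, mul_neg], Or.inr ⟨s, abs_neg _⟩⟩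
  choose u hu1 hu2 using hu
  refine ⟨u, ?_, ?_, hu2⟩
  · intro hu0
    have h1 := hu1 (emb s0 l0)
    rw [Function.update_eq_self, hu0] at h1
    apply hs0
    have h2 : (c s0 : ℚ) = 0 := by
      rw [hcs]
      exact h1.symm.trans (by simp)
    exact_mod_cast h2
  · have hxY : ∀ k, ∑ i, (x i : ℚ) * Y i k = c0 k := by
      intro k
      have h1 : (fun i => (x i : ℚ)) = (fun j => (c0 j : ℚ)) ᵥ* Bq := by
        funext i
        rw [hx i]
        simp [Matrix.vecMul, dotProduct, hBq]
      have h2 : (fun i => (x i : ℚ)) ᵥ* Y = fun j => (c0 j : ℚ) := by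
        rw [h1, Matrix.vecMul_vecMul, hY, Matrix.mul_nonsing_inv _ hq, Matrix.vecMul_one]
      exact congrFun h2 k
    have h3 : ((∑ i, u i * x i : ℤ) : ℚ) = 0 := by
      push_cast
      simp only [hu1]
      have h4 : ∑ i, r * (Y.submatrix (Function.update (emb s0) l0 i) (emb τ0)).det * (x i : ℚ)
          = r * ∑ i, (x i : ℚ) * (Y.submatrix (Function.update (emb s0) l0 i) (emb τ0)).det := by
        rw [Finset.mul_sum]
        exact Finset.sum_congr rfl fun i _ => by ring
      rw [h4, compound_linear]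
      have h5 : (Matrix.updateRow (Y.submatrix (emb s0) (emb τ0)) l0
          (fun l => ∑ i, (x i : ℚ) * Y i (emb τ0 l))).det = 0 := by
        refine Matrix.det_eq_zero_of_row_eq_zero l0 fun l => ?_
        rw [Matrix.updateRow_self, hxY,
          h0 (emb τ0 l) (Finset.orderEmbOfFin_mem τ0.val τ0.prop l),
          Int.cast_zero]
      rw [h5, mul_zero]
    exact_mod_cast h3

end Pool.Agent.Lib.Subspace
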