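import Pool.Agent.Lib.Subspace.CtoP

/-! The geometry of numbers step: proof of the statement `reduced`. -/

set_option autoImplicit false

open Matrix

namespace Pool.Agent.Lib.Subspace

lemma reduced_step {M : ℕ} (L : Fin M → ℝ) (hL : Monotone L) (b G : ℝ) (hG : 0 ≤ G)
    (h0 : ∃ j, L j ≤ b) (hs : M * (b + M * G) < ∑ j, L j) :
    ∃ k : ℕ, k + 1 < M ∧ ∀ j i : Fin M, j.val ≤ k → k < i.val → L j + G ≤ L i ∧ b < L i := by
  by_contra hc
  have key : ∀ (k : ℕ) (hk : k < M), L ⟨k, hk⟩ ≤ b + k * G := by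
    intro k
    induction k with
    | zero =>
      intro hk
      obtain ⟨j, hj⟩ := h0
      simpa using (hL (Fin.mk_le_of_le_val (Nat.zero_le _))).trans hj
    | succ k ih =>
      intro hk
      by_contra h
      refine hc ⟨k, hk, fun j i hj hi => ?_⟩
      have h1 : L j ≤ L ⟨k, by omega⟩ := hL (Fin.le_def.2 hj)
      have h2 : L ⟨k + 1, hk⟩ ≤ L i := hL (Fin.le_def.2 hi)
      have h3 := ih (by omega)
      have h4 : (0 : ℝ) ≤ k * G := by positivity
      push_cast at h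
      constructor <;> linarith
  refine absurd hs (not_lt.2 ?_)
  refine (Finset.sum_le_sum (g := fun _ => b + M * G) fun j _ => ?_).trans (by simp [mul_add])
  have : (j.val : ℝ) * G ≤ M * G := mul_le_mul_of_nonneg_right (by exact_mod_cast j.2.le) hG
  linarith [key j.1 j.2]

/-- A reduced basis of the lattice with respect to the box given by `x`. -/
lemma reduced_basis (M : ℕ) : ∃ c : ℝ, 1 ≤ c ∧ ∀ (x : Fin M → ℤ) (B0 : Matrix (Fin M) (Fin M) ℤ),
    (∀ i, x i ≠ 0) → B0.det ≠ 0 →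
    ∃ (U : Matrix (Fin M) (Fin M) ℤ) (π : Equiv.Perm (Fin M)) (lam : Fin M → ℝ),
      IsUnit U.det ∧ (∀ i, 0 < lam i) ∧ Monotone lam ∧
      (∀ j i, |((U * B0) j (π i) : ℝ)| ≤ c * |(x (π i) : ℝ)| * min (lam i) (lam j)) ∧
      (∏ i, lam i) * ∏ i, |(x i : ℝ)| ≤ c * |(B0.det : ℝ)| := by
  obtain ⟨c, hc, h⟩ := kz_aux M
  refine ⟨c, hc, fun x B0 hx hB => ?_⟩
  have hx' : ∀ i, (0 : ℝ) < |(x i : ℝ)| := fun i => abs_pos.2 (Int.cast_ne_zero.2 (hx i))
  have hdet : (B0.map (fun z => (z : ℚ)) * diagonal fun k => |(x k : ℚ)|⁻¹).det =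
      (B0.det : ℚ) * (∏ k, |(x k : ℚ)|)⁻¹ := by
    rw [det_mul, det_diagonal, Int.cast_det, Finset.prod_inv_distrib]
  obtain ⟨U, π, lam, h1, h2, h3, h4, h5, -⟩ :=
    h (B0.map (fun z => (z : ℚ)) * diagonal fun k => |(x k : ℚ)|⁻¹) (by
      rw [hdet]
      exact mul_ne_zero (Int.cast_ne_zero.2 hB) (inv_ne_zero (Finset.prod_ne_zero_iff.2
        fun i _ => abs_ne_zero.2 (Int.cast_ne_zero.2 (hx i)))))
  refine ⟨U, π, lam, h1, h2, h3, fun j i => ?_, ?_⟩
  · have := h4 j i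
    simp only [mul_diagonal, map_apply, ← mul_assoc, ← Finset.sum_mul] at this
    push_cast at this
    rw [abs_mul, abs_inv, abs_abs, ← div_eq_mul_inv, div_le_iff₀ (hx' _)] at this
    rw [mul_apply]
    push_cast
    linarith
  · rw [hdet] at h5
    generalize B0.det = d at h5 ⊢
    push_cast at h5
    have hp : (0 : ℝ) < ∏ k, |(x k : ℝ)| := Finset.prod_pos fun i _ => hx' i
    rwa [abs_mul, abs_inv, abs_of_pos hp, ← mul_assoc, ← div_eq_mul_inv, le_div_iff₀ hp] at h5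

lemma reduced_cramer {M : ℕ} (B : Matrix (Fin M) (Fin M) ℤ) (x c0 : Fin M → ℤ) (t : Fin M → ℝ)
    (ht : ∀ j, 0 ≤ t j) (hx : ∀ i, x i = ∑ j, c0 j * B j i)
    (hB : ∀ j i, |(B j i : ℝ)| ≤ t j * |(x i : ℝ)|) (j : Fin M) (hj : c0 j ≠ 0) :
    t j * |(B.det : ℝ)| ≤ M.factorial * (∏ l, t l) * ∏ i, |(x i : ℝ)| := by
  have e : x = ∑ l, c0 l • B l := by
    funext i
    rw [hx i, Finset.sum_apply]
    rfl
  have h1 : (B.updateRow j x).det = c0 j * B.det := by
    rw [e]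
    exact det_updateRow_sum B j c0
  have h2 := abs_det_le_of_le_mul (B.updateRow j x) (Function.update t j 1) (fun i => |(x i : ℝ)|)
    (fun l i => by
      by_cases c : l = j
      · subst c
        simp
      · rw [updateRow_ne c, Function.update_of_ne c]
        exact hB l i)
  rw [h1, Finset.prod_update_of_mem (Finset.mem_univ j), one_mul, Int.cast_mul,
    Finset.sdiff_singleton_eq_erase] at h2
  have h3 : (1 : ℝ) ≤ |(c0 j : ℝ)| := by exact_mod_cast Int.one_le_abs hj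
  have h4 : |(B.det : ℝ)| ≤ |(c0 j : ℝ) * B.det| := by
    rw [abs_mul]
    exact le_mul_of_one_le_left (abs_nonneg _) h3
  rw [← Finset.mul_prod_erase _ t (Finset.mem_univ j)]
  calc _ ≤ t j * (M.factorial * (∏ l ∈ Finset.univ.erase j, t l) * ∏ i, |(x i : ℝ)|) :=
        mul_le_mul_of_nonneg_left (h4.trans h2) (ht j)
    _ = _ := by ring

lemma reduced_num {M p f b ε σ n lX lQ lL : ℝ} (hM : 0 ≤ M) (hp : 0 ≤ p) (hf : 0 ≤ f) (hb : 0 ≤ b)
    (hε : 0 < ε) (n0 : 0 < n) (n1 : 1 ≤ σ * n) (s3 : σ * (2 * (b + M * b + p * (f + M) + 1)) ≤ ε)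
    (I2 : lX - lQ ≤ -(ε * n)) (I3 : lQ ≤ b + lL + lX + p * (f + M * (σ * n))) :
    M * (b + M * (ε / (2 * (M * M + 1)) * n)) < lL := by
  have h1 : M * M * (ε / (2 * (M * M + 1))) ≤ ε / 2 := by
    rw [mul_div_assoc', div_le_div_iff₀ (by positivity) (by positivity)]
    nlinarith
  have h2 := mul_le_mul_of_nonneg_right h1 n0.le
  have h3 := mul_le_mul_of_nonneg_right s3 n0.le
  have h4 : (b + M * b + p * f) * 1 ≤ (b + M * b + p * f) * (σ * n) :=
    mul_le_mul_of_nonneg_left n1 (by positivity)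
  linarith

theorem reduced_pf (M : ℕ) (P : Finset Nat.Primes) (C ε η : ℝ) (hC : 0 < C) (hε : 0 < ε)
    (hη : 0 < η) : ∃ c C1 g σ0 : ℝ, 1 ≤ c ∧ 0 < C1 ∧ 0 < g ∧ 0 < σ0 ∧
      ∀ σ n : ℝ, 0 < σ → σ ≤ σ0 → 1 / σ ≤ n → CData M P C ε η σ n → RData M P c C1 g η σ n := by
  obtain ⟨c, hc, hkz⟩ := reduced_basis M
  have hc0 : 0 < c := by linarith
  have lc : 0 ≤ Real.log c := Real.log_nonneg hc
  have hf : (1 : ℝ) ≤ M.factorial := by exact_mod_cast M.factorial_pos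
  have lf : 0 ≤ Real.log M.factorial := Real.log_nonneg hf
  obtain ⟨b, hb⟩ : ∃ b, b = Real.log M.factorial + M * Real.log c := ⟨_, rfl⟩
  have hb0 : 0 ≤ b := by rw [hb]; positivity
  obtain ⟨K, hK⟩ : ∃ K, K = b + M * b + P.card * (Real.log M.factorial + M) + 1 := ⟨_, rfl⟩
  have hK0 : 0 < K := by rw [hK]; positivity
  obtain ⟨D, hD⟩ : ∃ D, D = M + 1 + C := ⟨_, rfl⟩
  have hD0 : 0 < D := by rw [hD]; positivity
  obtain ⟨E, hE⟩ : ∃ E, E = Real.log c + P.card * (M * D) + M * (C + Real.log c) := ⟨_, rfl⟩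
  have hE0 : 0 ≤ E := by rw [hE]; positivity
  refine ⟨c, D + Real.log c + E, ε / (2 * (M * M + 1)), min (min η 1) (ε / (2 * K)), hc,
    by positivity, by positivity, by positivity, ?_⟩
  rintro σ n hσ hσ0 hn ⟨x, A, hA, hAb, hxb, hprod, hrel⟩
  have s1 : σ ≤ η := hσ0.trans ((min_le_left _ _).trans (min_le_left _ _))
  have s2 : σ ≤ 1 := hσ0.trans ((min_le_left _ _).trans (min_le_right _ _))
  have s3 : σ * (2 * K) ≤ ε := (le_div_iff₀ (by positivity)).1 (hσ0.trans (min_le_right _ _))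
  have n1 : 1 ≤ σ * n := by rwa [div_le_iff₀ hσ, mul_comm] at hn
  have n0 : 0 < n := lt_of_lt_of_le (by positivity) hn
  have n2 : 1 ≤ n := n1.trans (mul_le_of_le_one_left n0.le s2)
  have hx : ∀ i, x i ≠ 0 := by
    clear * - M x η n hrel hη n0 c
    intro i hi
    obtain ⟨j, hj⟩ := hrel (Pi.single i 1) (by simp) (by simp [Pi.single_apply, hi])
    have h1 : (1 : ℝ) < Real.exp (η * n) := Real.one_lt_exp_iff.2 (by positivity)
    by_cases c : j = i
    · rw [c, Pi.single_eq_same, Int.cast_one, abs_one] at hj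
      linarith
    · rw [Pi.single_eq_of_ne c, Int.cast_zero, abs_zero] at hj
      linarith
  have hAx : ∀ ℓ ∈ P, ∀ i, ∑ k, A ℓ i k * x k ≠ 0 := by
    intro ℓ hℓ i hi
    obtain ⟨j, hj⟩ := hrel (A ℓ i) (fun h => hA ℓ hℓ (det_eq_zero_of_row_eq_zero i (congrFun h))) hi
    have := Real.exp_le_exp.2 (mul_le_mul_of_nonneg_right s1 n0.le)
    linarith [hAb ℓ hℓ i j]
  have hx1 : ∀ i, (1 : ℝ) ≤ |(x i : ℝ)| := fun i => by exact_mod_cast Int.one_le_abs (hx i)
  have hx0 : ∀ i, (0 : ℝ) < |(x i : ℝ)| := fun i => one_pos.trans_le (hx1 i)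
  obtain ⟨a, ha⟩ : ∃ a : Nat.Primes → Fin M → ℕ,
    ∀ ℓ i, a ℓ i = padicValInt ℓ.1 (∑ k, A ℓ i k * x k) := ⟨_, fun _ _ => rfl⟩
  have hdvd : ∀ ℓ ∈ P, ∀ i, ((ℓ.1 : ℕ) : ℤ) ^ a ℓ i ∣ ∑ k, A ℓ i k * x k := by
    intro ℓ _ i
    have := Fact.mk ℓ.2
    rw [ha]
    exact padicValInt_dvd _
  obtain ⟨B0, hB0, hB1, hB2, hB3⟩ := lattice_basis M P A a
  obtain ⟨U, π, lam, hU, hl0, hlm, hb1, hb2⟩ := hkz x B0 hx hB0
  have hUd : |((U * B0).det : ℝ)| = |(B0.det : ℝ)| := by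
    rw [det_mul]
    rcases Int.isUnit_iff.1 hU with h | h <;> simp [h]
  have hBd : (U * B0).det ≠ 0 := by
    rw [det_mul]
    exact mul_ne_zero hU.ne_zero hB0
  have hd0 : (0 : ℝ) < |(B0.det : ℝ)| := abs_pos.2 (Int.cast_ne_zero.2 hB0)
  have hdiv : ∀ j, ∀ ℓ ∈ P, ∀ i, ((ℓ.1 : ℕ) : ℤ) ^ a ℓ i ∣ ∑ k, A ℓ i k * (U * B0) j k := by
    intro j ℓ hℓ i
    simp only [mul_apply, Finset.mul_sum]
    rw [Finset.sum_comm]
    refine Finset.dvd_sum fun l _ => ?_
    simp only [mul_left_comm _ (U j l), ← Finset.mul_sum]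
    exact (hB2 l ℓ hℓ i).mul_left _
  obtain ⟨c0, hc0x⟩ : ∃ c0 : Fin M → ℤ, ∀ i, x i = ∑ j, c0 j * (U * B0) j i := by
    obtain ⟨c1, h1⟩ := hB3 x hdvd
    refine ⟨c1 ᵥ* U⁻¹, fun i => ?_⟩
    change _ = ((c1 ᵥ* U⁻¹) ᵥ* (U * B0)) i
    rw [vecMul_vecMul, nonsing_inv_mul_cancel_left _ _ hU]
    exact h1 i
  have hb3 : ∀ j i, |((U * B0) j i : ℝ)| ≤ c * lam j * |(x i : ℝ)| := by
    intro j i
    obtain ⟨i, rfl⟩ := π.surjective i
    refine (hb1 j i).trans ?_
    rw [mul_right_comm c (lam j)]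
    exact mul_le_mul_of_nonneg_left (min_le_right _ _) (by positivity)
  -- logarithms
  have hℓ : ∀ ℓ : Nat.Primes, (0 : ℝ) < (ℓ.1 : ℕ) := fun ℓ => by exact_mod_cast ℓ.2.pos
  obtain ⟨Q, hQ⟩ : ∃ Q : ℝ, Q = ∏ ℓ ∈ P, ∏ i, ((ℓ.1 : ℕ) : ℝ) ^ a ℓ i := ⟨_, rfl⟩
  have hQ0 : 0 < Q := by
    rw [hQ]
    exact Finset.prod_pos fun ℓ _ => Finset.prod_pos fun i _ => pow_pos (hℓ ℓ) _
  have lQ : Real.log Q = ∑ ℓ ∈ P, ∑ i, (a ℓ i : ℝ) * Real.log ℓ.1 := by
    rw [hQ, Real.log_prod fun ℓ _ => (Finset.prod_pos fun i _ => pow_pos (hℓ ℓ) _).ne']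
    refine Finset.sum_congr rfl fun ℓ _ => ?_
    rw [Real.log_prod fun i _ => (pow_pos (hℓ ℓ) _).ne']
    simp only [Real.log_pow]
  have hX0 : (0 : ℝ) < ∏ i, |(x i : ℝ)| := Finset.prod_pos fun i _ => hx0 i
  have hL0 : (0 : ℝ) < ∏ i, lam i := Finset.prod_pos fun i _ => hl0 i
  have lX : Real.log (∏ i, |(x i : ℝ)|) = ∑ i, Real.log |(x i : ℝ)| :=
    Real.log_prod fun i _ => (hx0 i).ne'
  have lL : Real.log (∏ i, lam i) = ∑ i, Real.log (lam i) := Real.log_prod fun i _ => (hl0 i).ne'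
  have lX0 : 0 ≤ Real.log (∏ i, |(x i : ℝ)|) := by
    rw [lX]
    exact Finset.sum_nonneg fun i _ => Real.log_nonneg (hx1 i)
  have I1 : Real.log (∏ i, lam i) + Real.log (∏ i, |(x i : ℝ)|) ≤ Real.log c + Real.log Q := by
    clear * - M lam x c Q hL0 hX0 hc0 hQ0 B0 hb2 P a hQ hB1
    rw [← Real.log_mul hL0.ne' hX0.ne', ← Real.log_mul hc0.ne' hQ0.ne']
    refine Real.log_le_log (by positivity) (hb2.trans (mul_le_mul_of_nonneg_left ?_ hc0.le))
    rw [hQ]
    exact_mod_cast hB1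
  have I2 : Real.log (∏ i, |(x i : ℝ)|) - Real.log Q ≤ -(ε * n) := by
    clear * - M x Q ε n hX0 hQ0 P A a hQ hAx ha hprod hℓ
    rw [← Real.log_div hX0.ne' hQ0.ne', Real.log_le_iff_le_exp (by positivity)]
    refine le_of_eq_of_le ?_ hprod
    rw [div_eq_mul_inv, hQ, ← Finset.prod_inv_distrib]
    refine congrArg _ (Finset.prod_congr rfl fun ℓ hℓ => ?_)
    rw [← Finset.prod_inv_distrib]
    exact Finset.prod_congr rfl fun i _ => by rw [pad_int_eq ℓ _ (hAx ℓ hℓ i), ha]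
  have hcl : ∏ l, c * lam l = c ^ M * ∏ l, lam l := by
    rw [Finset.prod_mul_distrib]
    simp
  have I3 : Real.log Q ≤ b + Real.log (∏ i, lam i) + Real.log (∏ i, |(x i : ℝ)|) +
      P.card * (Real.log M.factorial + M * (σ * n)) := by
    clear * - Q M U B0 P A a hQ hA hBd hdiv c lam x hb3 σ n hAb hQ0 b hb hc hL0 hX0 hcl hℓ
    have h1 : Q ≤ |((U * B0).det : ℝ)| * ∏ ℓ ∈ P, |((A ℓ).det : ℝ)| := by
      rw [hQ]
      exact_mod_cast lattice_lower M P A hA a _ hBd hdiv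
    have h2 := abs_det_le_of_le_mul (U * B0) _ _ hb3
    have h3 : ∏ ℓ ∈ P, |((A ℓ).det : ℝ)| ≤ (M.factorial * Real.exp (σ * n) ^ M) ^ P.card := by
      rw [← Finset.prod_const]
      refine Finset.prod_le_prod (fun _ _ => abs_nonneg _) fun ℓ hℓ => ?_
      simpa using abs_det_le_of_le_mul (A ℓ) (fun _ => Real.exp (σ * n)) (fun _ => 1)
        fun i k => by simpa using hAb ℓ hℓ i k
    have h4 := Real.log_le_log hQ0 (h1.trans
      (mul_le_mul h2 h3 (Finset.prod_nonneg fun _ _ => abs_nonneg _) ((abs_nonneg _).trans h2)))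
    rw [hcl, Real.log_mul (by clear * - M c lam x hc hL0 hX0 h4; positivity) (by positivity), Real.log_mul (by positivity) hX0.ne',
      Real.log_mul (by positivity) (by positivity), Real.log_mul (by positivity) hL0.ne',
      Real.log_pow, Real.log_pow, Real.log_mul (by positivity) (by positivity), Real.log_pow,
      Real.log_exp] at h4
    linarith
  have I4 : ∀ j, c0 j ≠ 0 → Real.log (lam j) ≤ b := by
    clear * - M c0 c lam U B0 x hc0 hl0 hc0x hb3 hUd hcl hb2 hc hB0 b hb a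
    intro j hj
    have h1 := reduced_cramer (U * B0) x c0 (fun l => c * lam l)
      (fun l => (mul_pos hc0 (hl0 l)).le) hc0x hb3 j hj
    rw [hcl, hUd] at h1
    have h2 : c * lam j * |(B0.det : ℝ)| ≤ M.factorial * c ^ M * (c * |(B0.det : ℝ)|) := by
      refine h1.trans (le_of_eq_of_le (by ring)
        (mul_le_mul_of_nonneg_left hb2 (by positivity : (0 : ℝ) ≤ M.factorial * c ^ M)))
    have h3 : lam j ≤ M.factorial * c ^ M :=
      le_of_mul_le_mul_right (a := c * |(B0.det : ℝ)|) (by linarith) (by positivity)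
    have h4 := Real.log_le_log (hl0 j) h3
    rwa [Real.log_mul (by positivity) (by positivity), Real.log_pow, ← hb] at h4
  have hM : 0 < M := by
    rcases Nat.eq_zero_or_pos M with rfl | h
    · have : 0 < ε * n := by positivity
      simp [lQ] at I2
      linarith
    · exact h
  obtain ⟨k, hk, hstep⟩ := reduced_step (fun j => Real.log (lam j))
    (fun i j h => Real.log_le_log (hl0 i) (hlm h)) b (ε / (2 * (M * M + 1)) * n) (by positivity)
    (by
      by_contra h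
      refine hx ⟨0, hM⟩ ?_
      rw [hc0x]
      refine Finset.sum_eq_zero fun j _ => ?_
      by_contra h'
      exact h ⟨j, I4 j (left_ne_zero_of_mul h')⟩)
    (by
      rw [← lL]
      exact reduced_num M.cast_nonneg P.card.cast_nonneg lf hb0 hε n0 n1 (hK ▸ s3) I2 I3)
  have I5 : ∀ ℓ ∈ P, ∀ i, (a ℓ i : ℝ) * Real.log ℓ.1 ≤ D * n := by
    clear * - P M a A x hAx hdvd σ n C hAb hxb hℓ hM n2 s2 n0 D hD k
    intro ℓ hl i
    have h1 : ((ℓ.1 : ℕ) : ℝ) ^ a ℓ i ≤ |((∑ k, A ℓ i k * x k : ℤ) : ℝ)| := by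
      exact_mod_cast Int.le_of_dvd (abs_pos.2 (hAx ℓ hl i)) ((dvd_abs _ _).2 (hdvd ℓ hl i))
    have h2 : |((∑ k, A ℓ i k * x k : ℤ) : ℝ)| ≤ M * (Real.exp (σ * n) * Real.exp (C * n)) := by
      push_cast
      refine (Finset.abs_sum_le_sum_abs _ _).trans ((Finset.sum_le_sum
        (g := fun _ => Real.exp (σ * n) * Real.exp (C * n)) fun k _ => ?_).trans (by simp))
      rw [abs_mul]
      exact mul_le_mul (hAb ℓ hl i k) (hxb k) (abs_nonneg _) (by positivity)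
    have h3 := Real.log_le_log (pow_pos (hℓ ℓ) _) (h1.trans h2)
    have hM' : (0 : ℝ) < M := by exact_mod_cast hM
    rw [Real.log_pow, Real.log_mul hM'.ne' (by positivity),
      Real.log_mul (by positivity) (by positivity), Real.log_exp, Real.log_exp] at h3
    have h4 := Real.log_le_self hM'.le
    have h5 : (M : ℝ) * 1 ≤ M * n := mul_le_mul_of_nonneg_left n2 hM'.le
    have h6 := mul_le_mul_of_nonneg_right s2 n0.le
    rw [hD]
    linarith
  have lcn : Real.log c * 1 ≤ Real.log c * n := mul_le_mul_of_nonneg_left n2 lc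
  have I6 : ∀ j, -((C + Real.log c) * n) ≤ Real.log (lam j) := by
    clear * - M U B0 C c n lam hBd x hb3 hxb hc0 hl0 lcn
    intro j
    obtain ⟨i, hi⟩ : ∃ i, (U * B0) j i ≠ 0 := by
      by_contra h
      push Not at h
      exact hBd (det_eq_zero_of_row_eq_zero j h)
    have h1 : (1 : ℝ) ≤ |((U * B0) j i : ℝ)| := by exact_mod_cast Int.one_le_abs hi
    have h2 := Real.log_nonneg (h1.trans ((hb3 j i).trans
      (mul_le_mul_of_nonneg_left (hxb i) (mul_pos hc0 (hl0 j)).le)))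
    rw [Real.log_mul (mul_pos hc0 (hl0 j)).ne' (by positivity), Real.log_mul hc0.ne' (hl0 j).ne',
      Real.log_exp] at h2
    linarith
  have I7 : ∀ j, Real.log (lam j) ≤ E * n := by
    clear * - M lam C c n I6 Q P D a lQ I5 hC lc n0 E hE x lX0 I1 lcn lL
    intro j
    have h1 := Finset.single_le_sum (f := fun l => Real.log (lam l) + (C + Real.log c) * n)
      (fun l _ => by linarith [I6 l]) (Finset.mem_univ j)
    simp only [Finset.sum_add_distrib, Finset.sum_const, Finset.card_univ, Fintype.card_fin,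
      nsmul_eq_mul, ← lL] at h1
    have h2 : Real.log Q ≤ P.card * (M * (D * n)) := by
      rw [lQ, ← nsmul_eq_mul, ← Finset.sum_const]
      refine Finset.sum_le_sum fun ℓ hl => ?_
      exact (Finset.sum_le_sum fun i _ => I5 ℓ hl i).trans (by simp)
    have h3 : 0 ≤ (C + Real.log c) * n := by positivity
    rw [hE]
    linarith
  have p1 : 0 ≤ D * n := by positivity
  have p2 : 0 ≤ Real.log c * n := by positivity
  have p3 : 0 ≤ E * n := by positivity
  have p4 : C * n ≤ D * n :=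
    mul_le_mul_of_nonneg_right (by rw [hD]; linarith [M.cast_nonneg (α := ℝ)]) n0.le
  refine ⟨x, A, U * B0, π, lam, a, k, c0, hA, hAb, hx,
    fun i => (hxb i).trans (Real.exp_le_exp.2 (by linarith)), hrel, hBd, hl0,
    fun i => abs_le.2 ⟨by linarith [I6 i], by linarith [I7 i]⟩, hb1, hdiv,
    fun ℓ hl i => by linarith [I5 ℓ hl i], ?_, hk, fun j i hj hi => ?_, hc0x, fun j hj => ?_⟩
  · rw [Finset.sum_add_distrib, ← lX, ← lL, ← lQ]
    linarith
  · have := Real.exp_le_exp.2 (hstep j i hj hi).1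
    rwa [Real.exp_add, Real.exp_log (hl0 j), Real.exp_log (hl0 i)] at this
  · by_contra h
    exact absurd (I4 j h) (not_le.2 (hstep ⟨0, hM⟩ j (Nat.zero_le _) hj).2)

end Pool.Agent.Lib.Subspace
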