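import Pool.Agent.Lib.Subspace.CtoP

/-! From the reduced basis to the penultimate minimum situation (compound matrices). -/

set_option autoImplicit false

open Matrix Finset

namespace Pool.Agent.Lib.Subspace

variable {M p : ℕ}

lemma rtop_emb_mem (s : Set.powersetCard (Fin M) p) (l : Fin p) : emb s l ∈ s.val :=
  orderEmbOfFin_mem _ _ l

lemma rtop_emb_surj (s : Set.powersetCard (Fin M) p) {i : Fin M} (hi : i ∈ s.val) :
    ∃ l, emb s l = i := by
  have : i ∈ Set.range (emb s) := by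
    unfold emb
    rw [range_orderEmbOfFin]
    exact hi
  exact this

lemma rtop_abs_sum (s : Set.powersetCard (Fin M) p) {f : Fin M → ℝ} {b : ℝ} (hb : 0 ≤ b)
    (h : ∀ i, |f i| ≤ b) : |∑ i ∈ s.val, f i| ≤ M * b := by
  refine (abs_sum_le_sum_abs _ _).trans ((sum_le_card_nsmul _ _ b fun i _ => h i).trans ?_)
  rw [nsmul_eq_mul]
  exact mul_le_mul_of_nonneg_right
    (by exact_mod_cast (card_le_univ s.val).trans_eq (Fintype.card_fin M)) hb

lemma rtop_entry (hp : p ≤ M) (A : Matrix (Fin M) (Fin M) ℤ) {y : ℝ} (hy : 1 ≤ y)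
    (h : ∀ i k, |(A i k : ℝ)| ≤ Real.exp y) (s t : Set.powersetCard (Fin M) p) :
    |((cmp p A s t : ℤ) : ℝ)| ≤ Real.exp ((M.factorial + M) * y) := by
  refine (abs_det_le_of_le_mul (A.submatrix (emb s) (emb t)) (fun _ => 1) (fun _ => Real.exp y)
    fun l l' => (h _ _).trans_eq (one_mul _).symm).trans ?_
  rw [prod_const_one, mul_one, prod_const, card_univ, Fintype.card_fin, ← Real.exp_nat_mul, add_mul,
    Real.exp_add]
  have h1 : (p.factorial : ℝ) ≤ M.factorial := by exact_mod_cast Nat.factorial_le hp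
  have h2 : (p : ℝ) ≤ M := by exact_mod_cast hp
  have h3 : (0 : ℝ) ≤ M.factorial := Nat.cast_nonneg _
  refine mul_le_mul ?_ (Real.exp_le_exp.2 (by gcongr)) (Real.exp_pos _).le (Real.exp_pos _).le
  nlinarith [Real.add_one_le_exp (M.factorial * y)]

lemma rtop_pad (ℓ : Nat.Primes) (A B : Matrix (Fin M) (Fin M) ℤ) (a : Fin M → ℕ)
    (h : ∀ j i, ((ℓ.1 : ℕ) : ℤ) ^ a i ∣ ∑ k, A i k * B j k) (s τ : Set.powersetCard (Fin M) p) :
    pad ℓ ((∑ k, cmp p A s k * cmp p B τ k : ℤ) : ℚ)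
      ≤ Real.exp (-∑ i ∈ s.val, (a i : ℝ) * Real.log ℓ.1) := by
  have e : ∑ k, cmp p A s k * cmp p B τ k = cmp p (A * Bᵀ) s τ := by
    rw [cmp_mul, cmp_transpose]
    rfl
  have hd := prod_dvd_det ((A * Bᵀ).submatrix (emb s) (emb τ))
    (fun l => ((ℓ.1 : ℕ) : ℤ) ^ a (emb s l)) fun l l' => h (emb τ l') (emb s l)
  rw [prod_emb s fun i => ((ℓ.1 : ℕ) : ℤ) ^ a i, prod_pow_eq_pow_sum] at hd
  rw [e]
  refine (pad_le_of_dvd ℓ _ _ hd).trans_eq ?_
  rw [Real.exp_neg, ← sum_mul, ← Nat.cast_sum, Real.exp_nat_mul,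
    Real.exp_log (by exact_mod_cast ℓ.2.pos)]

lemma rtop_arch (hp : p ≤ M) (B : Matrix (Fin M) (Fin M) ℤ) {c : ℝ} (hc : 1 ≤ c) {u w : Fin M → ℝ}
    (hu : ∀ i, 0 < u i) (hw : ∀ i, 0 < w i) (τ s : Set.powersetCard (Fin M) p) (t : Fin p → ℝ)
    (h : ∀ l l', |(B (emb τ l) (emb s l') : ℝ)|
      ≤ Real.exp (t l) * (c * u (emb s l') * w (emb s l'))) :
    arch ((∑ k, (1 : Matrix _ _ ℤ) s k * cmp p B τ k : ℤ) : ℚ) ≤ Real.exp
      (∑ i ∈ s.val, (Real.log (u i) + Real.log (w i)) + Real.log (M.factorial * c ^ M)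
        + ∑ l, t l) := by
  have e : ∑ k, (1 : Matrix _ _ ℤ) s k * cmp p B τ k = cmp p B τ s := by
    simp [Matrix.one_apply]
  rw [e, arch_apply, Rat.cast_intCast]
  refine (abs_det_le_of_le_mul (B.submatrix (emb τ) (emb s)) (fun l => Real.exp (t l))
    (fun l' => c * u (emb s l') * w (emb s l')) h).trans ?_
  have h0 : (0 : ℝ) < M.factorial := by exact_mod_cast M.factorial_pos
  have h1 : (p.factorial : ℝ) ≤ M.factorial := by exact_mod_cast Nat.factorial_le hp
  have h2 : c ^ p ≤ c ^ M := pow_le_pow_right₀ hc hp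
  have h3 : ∏ l', c * u (emb s l') * w (emb s l')
      = c ^ p * Real.exp (∑ i ∈ s.val, (Real.log (u i) + Real.log (w i))) := by
    simp only [mul_assoc]
    rw [prod_mul_distrib, prod_const, card_univ, Fintype.card_fin, prod_emb s fun i => u i * w i,
      Real.exp_sum]
    exact congrArg _ (prod_congr rfl fun i _ => by
      rw [Real.exp_add, Real.exp_log (hu i), Real.exp_log (hw i)])
  rw [h3, ← Real.exp_sum, Real.exp_add, Real.exp_add, Real.exp_log (by positivity)]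
  calc _ = Real.exp (∑ i ∈ s.val, (Real.log (u i) + Real.log (w i))) * (p.factorial * c ^ p)
        * Real.exp (∑ l, t l) := by ring
    _ ≤ _ := by gcongr

theorem r_to_p_pf (M : ℕ) (P : Finset Nat.Primes) (c C g η : ℝ) (hc : 1 ≤ c) (hC : 0 < C)
    (hg : 0 < g) : ∃ C' δ κ σ0 : ℝ, 0 < C' ∧ 0 < δ ∧ 1 ≤ κ ∧ 0 < σ0 ∧
      ∀ σ n : ℝ, 0 < σ → σ ≤ σ0 → 1 / σ ≤ n → RData M P c C g η σ n →
        ∃ p : Fin M, PData (Set.powersetCard (Fin M) p.val) (plc P) C' δ η (κ * σ) n := by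
  have hF : (1 : ℝ) ≤ M.factorial := by exact_mod_cast M.factorial_pos
  have hM : (0 : ℝ) ≤ M := Nat.cast_nonneg M
  obtain ⟨K, hK⟩ : ∃ K, K = Real.log (M.factorial * c ^ M) := ⟨_, rfl⟩
  have hK0 : 0 ≤ K := hK ▸ Real.log_nonneg (one_le_mul_of_one_le_of_one_le hF (one_le_pow₀ hc))
  have hlc : 0 ≤ Real.log c := Real.log_nonneg hc
  obtain ⟨E, hE⟩ : ∃ E : ℝ, E = 2 ^ M * (Real.log c + K) := ⟨_, rfl⟩
  have hE0 : 0 ≤ E := by rw [hE]; positivity
  refine ⟨M * (2 * C) + K + g, g / 2, M.factorial + M, g / (2 * E + g), by positivity,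
    by positivity, by linarith, by positivity, ?_⟩
  rintro σ n hσ hσ0 hn ⟨x, A, B, π, lam, a, k, c0, hA0, hA, hx0, hx, hrel, hB0, hl0, hl, hB, hdv,
    ha, hsum, hk, hgap, hxc, hc0⟩
  have hσn : 1 ≤ σ * n := by rwa [div_le_iff₀' hσ] at hn
  have hn0 : 0 < n := lt_of_lt_of_le (by positivity) hn
  have hgn : 2 * E + g ≤ g * n := by
    rw [le_div_iff₀ (by positivity)] at hσ0
    nlinarith [mul_le_mul_of_nonneg_right hσ0 hn0.le]
  have hn1 : 1 ≤ n := le_of_mul_le_mul_left (by linarith) hg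
  have hCn : 0 ≤ C * n := by positivity
  obtain ⟨p, hp⟩ : ∃ p, p + (k + 1) = M := ⟨M - (k + 1), by omega⟩
  refine ⟨⟨p, by omega⟩, ?_⟩
  have hpM : p ≤ M := by omega
  have hcard : (Ioi (⟨k, by omega⟩ : Fin M)).card = p := by
    rw [Fin.card_Ioi]
    simp only
    omega
  let τ0 : Set.powersetCard (Fin M) p := ⟨Ioi ⟨k, by omega⟩, hcard⟩
  let s0 : Set.powersetCard (Fin M) p := ⟨τ0.val.map π.toEmbedding, (card_map _).trans hcard⟩
  have hτ0 : ∀ j, j ∈ τ0.val ↔ k < j.val := fun j => mem_Ioi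
  have hs0 : ∀ i ∈ s0.val, k < (π.symm i).val := fun i hi => (hτ0 _).1 (mem_map_equiv.1 hi)
  have hxp : ∀ i, 0 < |(x i : ℝ)| := fun i => abs_pos.2 (by exact_mod_cast hx0 i)
  have hB' : ∀ j i, |(B j i : ℝ)| ≤ c * |(x i : ℝ)| * min (lam (π.symm i)) (lam j) := fun j i => by
    simpa using hB j (π.symm i)
  have hcx : ∀ i, 0 ≤ c * |(x i : ℝ)| := fun i => by positivity
  have hplain : ∀ τ s : Set.powersetCard (Fin M) p,
      arch ((∑ k, (1 : Matrix _ _ ℤ) s k * cmp p B τ k : ℤ) : ℚ) ≤ Real.exp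
        (∑ i ∈ s.val, (Real.log |(x i : ℝ)| + Real.log (lam (π.symm i))) + K) := fun τ s => by
    have := rtop_arch hpM B hc hxp (fun i => hl0 (π.symm i)) τ s (fun _ => 0) fun l l' => by
      rw [Real.exp_zero, one_mul]
      exact (hB' _ _).trans (mul_le_mul_of_nonneg_left (min_le_left _ _) (hcx _))
    rwa [sum_const_zero, add_zero, ← hK] at this
  refine ⟨fun v => v.elim 1 fun ℓ => cmp p (A ℓ.1), cmp p B, τ0,
    fun v s => v.elim (∑ i ∈ s.val, (Real.log |(x i : ℝ)| + Real.log (lam (π.symm i))) + K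
      - if s = s0 then g * n else 0) fun ℓ => -∑ i ∈ s.val, (a ℓ.1 i : ℝ) * Real.log ℓ.1.1,
    ?_, ?_, cmp_det_ne_zero p B hB0, ?_, ?_, ?_, ?_, ?_⟩
  · rintro (_ | ℓ)
    · exact det_one.trans_ne one_ne_zero
    · exact cmp_det_ne_zero p _ (hA0 ℓ.1 ℓ.2)
  · rintro (_ | ℓ) s t
    · refine le_trans ?_ (Real.one_le_exp (by positivity))
      simp only [Option.elim, Matrix.one_apply]
      split_ifs <;> simp
    · rw [mul_assoc]
      exact rtop_entry hpM _ hσn (hA ℓ.1 ℓ.2) s t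
  · have hKn : K ≤ K * n := le_mul_of_one_le_right hK0 hn1
    have hgn0 : 0 ≤ g * n := by positivity
    rintro (_ | ℓ) s
    · have h1 := abs_le.1 (rtop_abs_sum s (b := 2 * C * n) (by positivity)
        (f := fun i => Real.log |(x i : ℝ)| + Real.log (lam (π.symm i))) fun i => by
          have h2 : 0 ≤ Real.log |(x i : ℝ)| :=
            Real.log_nonneg (by exact_mod_cast Int.one_le_abs (hx0 i))
          have h3 := (Real.log_le_iff_le_exp (hxp i)).2 (hx i)
          have h4 := abs_le.1 (hl (π.symm i))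
          rw [abs_le]
          constructor <;> linarith)
      simp only [Option.elim]
      rw [abs_le]
      split_ifs <;> constructor <;> linarith
    · have h1 := rtop_abs_sum s hCn (f := fun i => (a ℓ.1 i : ℝ) * Real.log ℓ.1.1) fun i => by
        rw [abs_of_nonneg (mul_nonneg (Nat.cast_nonneg _) (Real.log_natCast_nonneg _))]
        exact ha ℓ.1 ℓ.2 i
      simp only [Option.elim]
      rw [abs_neg]
      nlinarith [mul_nonneg hM hCn]
  · obtain ⟨r, hr, hs⟩ := sum_sum_powersetCard (M := M) p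
    have hr' : (r : ℝ) ≤ 2 ^ M := by exact_mod_cast hr
    have hN : (Fintype.card (Set.powersetCard (Fin M) p) : ℝ) ≤ 2 ^ M := by
      exact_mod_cast card_powersetCard_le p
    rw [Fintype.sum_option]
    simp only [Option.elim]
    rw [sum_sub_distrib, sum_add_distrib, hs, sum_ite_eq' univ s0, if_pos (mem_univ _), sum_const,
      card_univ, nsmul_eq_mul]
    simp only [sum_neg_distrib, hs]
    rw [← mul_sum, sum_coe_sort P fun ℓ => ∑ i, (a ℓ i : ℝ) * Real.log ℓ.1, sum_add_distrib,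
      Equiv.sum_comp π.symm fun i => Real.log (lam i), ← sum_add_distrib]
    nlinarith [mul_le_mul_of_nonneg_left hsum (Nat.cast_nonneg (α := ℝ) r),
      mul_le_mul_of_nonneg_right hr' hlc, mul_le_mul_of_nonneg_right hN hK0]
  · rintro (_ | ℓ) τ s hτ
    · simp only [Option.elim]
      split_ifs with h
      · subst h
        obtain ⟨j, hj, hj'⟩ := not_subset.1 (mt Set.powersetCard.eq_iff_subset.2 hτ)
        obtain ⟨l0, rfl⟩ := rtop_emb_surj τ hj
        have := rtop_arch hpM B hc hxp (fun i => hl0 (π.symm i)) τ s0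
          (fun l => if l = l0 then -(g * n) else 0) fun l l' => by
            refine (hB' _ _).trans ?_
            rw [mul_left_comm]
            refine mul_le_mul_of_nonneg_left ?_ (hcx _)
            split_ifs with h
            · rw [h, Real.exp_neg, le_inv_mul_iff₀' (Real.exp_pos _)]
              exact (mul_le_mul_of_nonneg_right (min_le_right _ _) (Real.exp_pos _).le).trans
                (hgap _ _ (not_lt.1 (mt (hτ0 _).2 hj')) (hs0 _ (rtop_emb_mem s0 l')))
            · rw [Real.exp_zero, one_mul]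
              exact min_le_left _ _
        rwa [sum_ite_eq' univ l0, if_pos (mem_univ _), ← hK, ← sub_eq_add_neg] at this
      · rw [sub_zero]
        exact hplain τ s
    · exact rtop_pad ℓ.1 _ B _ (fun j i => hdv j ℓ.1 ℓ.2 i) s τ
  · have h1 : g * n ≤ (M * (2 * C) + K + g) * n :=
      mul_le_mul_of_nonneg_right (le_add_of_nonneg_left (by positivity)) hn0.le
    have hgn0 : 0 ≤ g * n := by positivity
    rintro (_ | ℓ) s
    · refine (hplain τ0 s).trans (Real.exp_le_exp.2 ?_)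
      simp only [Option.elim]
      split_ifs <;> linarith
    · exact (rtop_pad ℓ.1 _ B _ (fun j i => hdv j ℓ.1 ℓ.2 i) s τ0).trans
        (Real.exp_le_exp.2 (le_add_of_nonneg_right (hgn0.trans h1)))
  · intro c' hc' hann
    obtain ⟨u, hu, hux, hus⟩ := cmp_contract B hB0 p (by omega) τ0 x c0 hxc
      (fun j hj => hc0 j ((hτ0 j).1 hj)) c' hc' hann
    obtain ⟨i, hi⟩ := hrel u hu hux
    rcases hus i with h | ⟨s, h⟩
    · rw [h, Int.cast_zero, abs_zero] at hi
      exact absurd hi (Real.exp_pos _).le.not_gt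
    · exact ⟨s, hi.trans_eq (by exact_mod_cast h)⟩

end Pool.Agent.Lib.Subspace
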