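import Pool.Agent.Lib.Subspace.ThmP
import Pool.Agent.Lib.Subspace.CtoP1
import Pool.Agent.Lib.Subspace.CtoP2

/-! The Subspace Theorem with moving rational forms along an ultrafilter. -/

set_option autoImplicit false

open Filter

namespace Pool.Agent.Lib.Subspace

theorem c_to_p (M : ℕ) (P : Finset Nat.Primes) (C ε η : ℝ) (hC : 0 < C) (hε : 0 < ε)
    (hη : 0 < η) : ∃ C' δ κ σ0 : ℝ, 0 < C' ∧ 0 < δ ∧ 1 ≤ κ ∧ 0 < σ0 ∧
      ∀ σ n : ℝ, 0 < σ → σ ≤ σ0 → 1 / σ ≤ n → CData M P C ε η σ n →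
        ∃ p : Fin M, PData (Set.powersetCard (Fin M) p.val) (plc P) C' δ η (κ * σ) n := by
  obtain ⟨c, C1, g, σ0, hc, hC1, hg, hσ0, h⟩ := reduced_pf M P C ε η hC hε hη
  obtain ⟨C', δ, κ, σ1, hC', hδ, hκ, hσ1, h'⟩ := r_to_p_pf M P c C1 g η hc hC1 hg
  refine ⟨C', δ, κ, min σ0 σ1, hC', hδ, hκ, lt_min hσ0 hσ1, fun σ n hσ hle hn hd => ?_⟩
  exact h' σ n hσ (hle.trans (min_le_right _ _)) hn
    (h σ n hσ (hle.trans (min_le_left _ _)) hn hd)

lemma PData.mono {ι S : Type*} [Fintype ι] [DecidableEq ι] [Fintype S]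
    {v : S → AbsoluteValue ℚ ℝ} {C δ η σ σ' n : ℝ} (hn : 0 ≤ n) (h : σ ≤ σ')
    (hd : PData ι v C δ η σ n) : PData ι v C δ η σ' n := by
  obtain ⟨A, Z, τ0, γ, h1, h2, h3⟩ := hd
  exact ⟨A, Z, τ0, γ, h1, fun s i k => (h2 s i k).trans
    (Real.exp_le_exp.mpr (mul_le_mul_of_nonneg_right h hn)), h3⟩

lemma exists_lacunary (U : Ultrafilter ℕ) (hU : (U : Filter ℕ) ≤ atTop) {Q : ℕ → Prop}
    (hQ : ∀ᶠ n in (U : Filter ℕ), Q n) (σ : ℝ) (hσ : 0 < σ) (m : ℕ) :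
    ∃ n : Fin m → ℕ, (∀ j, Q (n j)) ∧ (∀ j, 1 / σ ≤ (n j : ℝ)) ∧
      ∀ i j, i < j → (n j : ℝ) ≤ σ * n i := by
  have key : ∀ T : ℝ, ∃ n : ℕ, Q n ∧ T ≤ (n : ℝ) := by
    intro T
    have h1 : ∀ᶠ n : ℕ in (U : Filter ℕ), T ≤ (n : ℝ) :=
      hU (tendsto_natCast_atTop_atTop.eventually_ge_atTop T)
    exact (hQ.and h1).exists
  induction m with
  | zero => exact ⟨Fin.elim0, fun j => j.elim0, fun j => j.elim0, fun i => i.elim0⟩
  | succ m ih =>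
    obtain ⟨n, h1, h2, h3⟩ := ih
    obtain ⟨n0, h4, h5⟩ := key (max (1 / σ) ((∑ j, (n j : ℝ)) / σ))
    refine ⟨Fin.cons n0 n, ?_, ?_, ?_⟩
    · intro j
      refine Fin.cases ?_ (fun j => ?_) j
      · simpa using h4
      · simpa using h1 j
    · intro j
      refine Fin.cases ?_ (fun j => ?_) j
      · simpa using (le_max_left _ _).trans h5
      · simpa using h2 j
    · intro i j
      refine Fin.cases ?_ (fun j => ?_) j
      · intro h; exact absurd h (Fin.not_lt_zero _)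
      · refine Fin.cases ?_ (fun i => ?_) i
        · intro _
          have h6 : (∑ j, (n j : ℝ)) / σ ≤ n0 := (le_max_right _ _).trans h5
          rw [div_le_iff₀ hσ] at h6
          have h7 : (n j : ℝ) ≤ ∑ j, (n j : ℝ) :=
            Finset.single_le_sum (f := fun j => (n j : ℝ)) (fun _ _ => Nat.cast_nonneg _)
              (Finset.mem_univ j)
          simp only [Fin.cons_succ, Fin.cons_zero]
          linarith
        · intro h
          simpa using h3 i j (Fin.succ_lt_succ_iff.mp h)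

theorem core (M : ℕ) (P : Finset Nat.Primes) (C ε η : ℝ) (hC : 0 < C) (hε : 0 < ε) (hη : 0 < η)
    (U : Ultrafilter ℕ) (hU : (U : Filter ℕ) ≤ atTop) :
    ¬ ∀ σ : ℝ, 0 < σ → ∀ᶠ n : ℕ in (U : Filter ℕ), CData M P C ε η σ n := by
  intro h
  obtain ⟨C', δ, κ, σ0, hC', hδ, hκ, hσ0, hcp⟩ := c_to_p M P C ε η hC hε hη
  have hP := fun p : Fin M =>
    thmP (Set.powersetCard (Fin M) p.val) (plc P) (pf_plc P) C' δ η hC' hδ hη
  choose s hs m hm using hP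
  have hκ0 : 0 < κ := by linarith
  obtain ⟨σ, hσ, hσ1, hσ2⟩ : ∃ σ : ℝ, 0 < σ ∧ σ ≤ σ0 ∧ ∀ p, κ * σ ≤ s p := by
    have : ∀ᶠ σ : ℝ in nhdsWithin 0 (Set.Ioi 0), 0 < σ ∧ σ ≤ σ0 ∧ ∀ p, κ * σ ≤ s p := by
      refine Filter.Eventually.and self_mem_nhdsWithin (Filter.Eventually.and ?_ ?_)
      · exact nhdsWithin_le_nhds (eventually_le_nhds hσ0)
      · rw [Filter.eventually_all]
        intro p
        have h1 : ∀ᶠ σ : ℝ in nhds 0, σ ≤ s p / κ := eventually_le_nhds (div_pos (hs p) hκ0)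
        refine nhdsWithin_le_nhds (h1.mono fun σ hσ => ?_)
        rwa [le_div_iff₀ hκ0, mul_comm] at hσ
    exact this.exists
  have h1 : ∀ᶠ n : ℕ in (U : Filter ℕ), 1 / σ ≤ (n : ℝ) :=
    hU (tendsto_natCast_atTop_atTop.eventually_ge_atTop _)
  have h2 : ∀ᶠ n : ℕ in (U : Filter ℕ), ∃ p : Fin M,
      PData (Set.powersetCard (Fin M) p.val) (plc P) C' δ η (κ * σ) n :=
    ((h σ hσ).and h1).mono fun n hn => hcp σ n hσ hσ1 hn.2 hn.1
  obtain ⟨p, hp⟩ := Ultrafilter.eventually_exists_iff.mp h2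
  obtain ⟨n, hn1, hn2, hn3⟩ := exists_lacunary U hU hp (s p) (hs p) (m p)
  exact hm p (fun j => (n j : ℝ)) hn2 hn3
    fun j => (hn1 j).mono (Nat.cast_nonneg _) (hσ2 p)

end Pool.Agent.Lib.Subspace
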