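import Pool.Agent.Lib.Subspace.Defs

/-! The lattice cut out by the p-adic conditions, and the product formula.

`lattice_basis`: the lattice is the kernel `Λ` of the additive map from `Fin M → ℤ` to
`Π ℓ : P, Π i, ZMod (ℓ ^ a ℓ i)`; so `Nat.card ((Fin M → ℤ) ⧸ Λ)` is finite, nonzero and at most
the product (`QuotientAddGroup.kerLift_injective` or `AddSubgroup.index_ker`). It has full rank
(it contains `N • e j`, `N` the product), take a basis (`Submodule.basisOfPid`,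
`Module.finBasisOfFinrankEq`) and use `Submodule.natAbs_det_basis_change`.
`lattice_lower`: `∏ i, ℓ ^ a ℓ i` divides `det (A ℓ * Bᵀ) = det (A ℓ) * det B`; these prime powers
are pairwise coprime, so their product divides `det B * ∏ ℓ, det (A ℓ) ≠ 0`.
`pf_plc`: `∏ ℓ ∈ P, ℓ ^ padicValInt ℓ z` divides `z`. -/

set_option autoImplicit false

namespace Pool.Agent.Lib.Subspace

lemma lattice_coprime (ℓ m : Nat.Primes) (h : ℓ ≠ m) (a b : ℕ) :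
    IsCoprime (((ℓ.1 : ℕ) : ℤ) ^ a) (((m.1 : ℕ) : ℤ) ^ b) := by
  have h1 : Nat.Coprime ℓ.1 m.1 := (Nat.coprime_primes ℓ.2 m.2).mpr fun e => h (Subtype.ext e)
  exact (Nat.isCoprime_iff_coprime.mpr h1).pow

lemma lattice_prod_dvd_det {M : ℕ} (v : Fin M → ℤ) (C : Matrix (Fin M) (Fin M) ℤ)
    (h : ∀ i j, v i ∣ C i j) : ∏ i, v i ∣ C.det := by
  choose D hD using h
  have : C = Matrix.of fun i j => v i * (Matrix.of D) i j := by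
    ext i j; simp [hD]
  rw [this, Matrix.det_mul_column]
  exact Dvd.intro _ rfl

theorem lattice_basis (M : ℕ) (P : Finset Nat.Primes)
    (A : Nat.Primes → Matrix (Fin M) (Fin M) ℤ) (a : Nat.Primes → Fin M → ℕ) :
    ∃ B : Matrix (Fin M) (Fin M) ℤ, B.det ≠ 0 ∧
      |B.det| ≤ ∏ ℓ ∈ P, ∏ i, ((ℓ.1 : ℕ) : ℤ) ^ a ℓ i ∧
      (∀ j, ∀ ℓ ∈ P, ∀ i, ((ℓ.1 : ℕ) : ℤ) ^ a ℓ i ∣ ∑ k, A ℓ i k * B j k) ∧
      (∀ z : Fin M → ℤ, (∀ ℓ ∈ P, ∀ i, ((ℓ.1 : ℕ) : ℤ) ^ a ℓ i ∣ ∑ k, A ℓ i k * z k) →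
        ∃ c : Fin M → ℤ, ∀ k, z k = ∑ j, c j * B j k) := by
  classical
  let G : Type := (ℓ : P) → (i : Fin M) → ZMod (ℓ.1.1 ^ a ℓ.1 i)
  have : ∀ (ℓ : P) (i : Fin M), NeZero (ℓ.1.1 ^ a ℓ.1 i) :=
    fun ℓ i => ⟨pow_ne_zero _ ℓ.1.2.ne_zero⟩
  let f : (Fin M → ℤ) →ₗ[ℤ] G :=
    { toFun := fun z ℓ i => ((∑ k, A ℓ.1 i k * z k : ℤ) : ZMod (ℓ.1.1 ^ a ℓ.1 i))
      map_add' := by
        intro x y; funext ℓ i
        simp only [Pi.add_apply, mul_add, Finset.sum_add_distrib, Int.cast_add]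
        rfl
      map_smul' := by
        intro c x; funext ℓ i
        have : ∑ k, A ℓ.1 i k * (c • x) k = c * ∑ k, A ℓ.1 i k * x k := by
          rw [Finset.mul_sum]
          exact Finset.sum_congr rfl fun k _ => by simp only [Pi.smul_apply, smul_eq_mul]; ring
        simp only [this, Int.cast_mul, RingHom.id_apply]
        change _ = c • ((∑ k, A ℓ.1 i k * x k : ℤ) : ZMod (ℓ.1.1 ^ a ℓ.1 i))
        rw [zsmul_eq_mul] }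
  have hmem : ∀ z : Fin M → ℤ, z ∈ LinearMap.ker f ↔
      ∀ ℓ ∈ P, ∀ i, ((ℓ.1 : ℕ) : ℤ) ^ a ℓ i ∣ ∑ k, A ℓ i k * z k := by
    intro z
    rw [LinearMap.mem_ker]
    constructor
    · intro h ℓ hℓ i
      have h1 : ((∑ k, A ℓ i k * z k : ℤ) : ZMod (ℓ.1 ^ a ℓ i)) = 0 :=
        congrFun (congrFun h ⟨ℓ, hℓ⟩) i
      rw [ZMod.intCast_zmod_eq_zero_iff_dvd] at h1
      exact_mod_cast h1
    · intro h
      funext ℓ i
      have h1 := h ℓ.1 ℓ.2 i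
      change ((∑ k, A ℓ.1 i k * z k : ℤ) : ZMod (ℓ.1.1 ^ a ℓ.1 i)) = 0
      rw [ZMod.intCast_zmod_eq_zero_iff_dvd]
      exact_mod_cast h1
  have hinj : Function.Injective ((LinearMap.ker f).liftQ f le_rfl) := by
    rw [← LinearMap.ker_eq_bot]
    exact Submodule.ker_liftQ_eq_bot _ _ _ le_rfl
  have hfinG : Finite G := inferInstance
  have hfin : Finite ((Fin M → ℤ) ⧸ LinearMap.ker f) := Finite.of_injective _ hinj
  have hcard : Nat.card ((Fin M → ℤ) ⧸ LinearMap.ker f) ≤ Nat.card G :=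
    Nat.card_le_card_of_injective _ hinj
  have hG : Nat.card G = ∏ ℓ ∈ P, ∏ i, ℓ.1 ^ a ℓ i := by
    rw [Nat.card_pi, ← Finset.prod_coe_sort P]
    refine Finset.prod_congr rfl fun ℓ _ => ?_
    rw [Nat.card_pi]
    exact Finset.prod_congr rfl fun i _ => Nat.card_zmod _
  have hrank : Module.finrank ℤ (LinearMap.ker f) = M := by
    rw [(Submodule.finiteQuotient_iff _).mp hfin]; simp
  let bN : Module.Basis (Fin M) ℤ (LinearMap.ker f) := Module.finBasisOfFinrankEq ℤ _ hrank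
  have hdet := Submodule.natAbs_det_basis_change (Pi.basisFun ℤ (Fin M)) (LinearMap.ker f) bN
  let B : Matrix (Fin M) (Fin M) ℤ := Matrix.of fun j k => (bN j : Fin M → ℤ) k
  have hB : B.det = (Pi.basisFun ℤ (Fin M)).det ((↑) ∘ bN) := by
    rw [Pi.basisFun_det_apply]; rfl
  have hpos : 0 < Nat.card ((Fin M → ℤ) ⧸ LinearMap.ker f) := Nat.card_pos
  refine ⟨B, ?_, ?_, ?_, ?_⟩
  · intro h0
    rw [← hB, h0] at hdet
    simp only [Int.natAbs_zero] at hdet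
    omega
  · rw [← hB] at hdet
    have h1 : B.det.natAbs ≤ ∏ ℓ ∈ P, ∏ i, ℓ.1 ^ a ℓ i := by rw [hdet, ← hG]; exact hcard
    rw [← Int.natCast_natAbs]
    exact_mod_cast h1
  · intro j
    exact (hmem _).mp (bN j).2
  · intro z hz
    refine ⟨fun j => bN.repr ⟨z, (hmem z).mpr hz⟩ j, fun k => ?_⟩
    have h1 := congrArg (fun x : LinearMap.ker f => (x : Fin M → ℤ) k)
      (bN.sum_repr ⟨z, (hmem z).mpr hz⟩)
    simp only [AddSubmonoidClass.coe_finsetSum, Finset.sum_apply, SetLike.val_smul,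
      Pi.smul_apply, smul_eq_mul] at h1
    exact h1.symm

theorem lattice_lower (M : ℕ) (P : Finset Nat.Primes)
    (A : Nat.Primes → Matrix (Fin M) (Fin M) ℤ) (hA : ∀ ℓ ∈ P, (A ℓ).det ≠ 0)
    (a : Nat.Primes → Fin M → ℕ) (B : Matrix (Fin M) (Fin M) ℤ) (hB : B.det ≠ 0)
    (h : ∀ j, ∀ ℓ ∈ P, ∀ i, ((ℓ.1 : ℕ) : ℤ) ^ a ℓ i ∣ ∑ k, A ℓ i k * B j k) :
    ∏ ℓ ∈ P, ∏ i, ((ℓ.1 : ℕ) : ℤ) ^ a ℓ i ≤ |B.det| * ∏ ℓ ∈ P, |(A ℓ).det| := by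
  classical
  have h1 : ∀ ℓ ∈ P, ∏ i, ((ℓ.1 : ℕ) : ℤ) ^ a ℓ i ∣ B.det * ∏ ℓ ∈ P, (A ℓ).det := by
    intro ℓ hℓ
    have h2 : ∏ i, ((ℓ.1 : ℕ) : ℤ) ^ a ℓ i ∣ (A ℓ * B.transpose).det :=
      lattice_prod_dvd_det _ _ fun i j => by
        rw [Matrix.mul_apply]; exact h j ℓ hℓ i
    rw [Matrix.det_mul, Matrix.det_transpose, mul_comm] at h2
    exact h2.trans (mul_dvd_mul_left _ (Finset.dvd_prod_of_mem _ hℓ))
  have h3 : ∏ ℓ ∈ P, ∏ i, ((ℓ.1 : ℕ) : ℤ) ^ a ℓ i ∣ B.det * ∏ ℓ ∈ P, (A ℓ).det := by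
    refine Finset.prod_dvd_of_coprime ?_ h1
    intro ℓ _ m _ hne
    simp only [Function.onFun, Finset.prod_pow_eq_pow_sum]
    exact lattice_coprime ℓ m hne _ _
  have h4 : B.det * ∏ ℓ ∈ P, (A ℓ).det ≠ 0 := mul_ne_zero hB (Finset.prod_ne_zero_iff.mpr hA)
  have h5 := Int.le_of_dvd (abs_pos.mpr h4) ((dvd_abs _ _).mpr h3)
  rwa [abs_mul, Finset.abs_prod] at h5

lemma pad_int_eq (ℓ : Nat.Primes) (z : ℤ) (hz : z ≠ 0) :
    pad ℓ (z : ℚ) = (((ℓ.1 : ℕ) : ℝ) ^ padicValInt ℓ.1 z)⁻¹ := by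
  have : Fact ℓ.1.Prime := ⟨ℓ.2⟩
  have hz' : (z : ℚ) ≠ 0 := by exact_mod_cast hz
  change ((padicNorm ℓ.1 (z : ℚ) : ℚ) : ℝ) = _
  rw [padicNorm.eq_zpow_of_nonzero hz', padicValRat.of_int]
  simp

lemma pad_le_of_dvd (ℓ : Nat.Primes) (z : ℤ) (a : ℕ) (h : ((ℓ.1 : ℕ) : ℤ) ^ a ∣ z) :
    pad ℓ (z : ℚ) ≤ (((ℓ.1 : ℕ) : ℝ) ^ a)⁻¹ := by
  have : Fact ℓ.1.Prime := ⟨ℓ.2⟩
  have h1 : padicNorm ℓ.1 (z : ℚ) ≤ (ℓ.1 : ℚ) ^ (-a : ℤ) :=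
    padicNorm.dvd_iff_norm_le.mp (by exact_mod_cast h)
  change ((padicNorm ℓ.1 (z : ℚ) : ℚ) : ℝ) ≤ _
  have h2 : ((padicNorm ℓ.1 (z : ℚ) : ℚ) : ℝ) ≤ (((ℓ.1 : ℚ) ^ (-a : ℤ) : ℚ) : ℝ) := by
    exact_mod_cast h1
  simpa using h2

lemma pad_int_le_one (ℓ : Nat.Primes) (z : ℤ) : pad ℓ (z : ℚ) ≤ 1 := by
  simpa using pad_le_of_dvd ℓ z 0 (by simp)

lemma pad_natCast (ℓ : Nat.Primes) (q : ℕ) (hq : q ≠ 0) :
    pad ℓ (q : ℚ) = Real.exp (-((q.factorization ℓ.1 : ℝ) * Real.log ℓ.1)) := by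
  have h1 := pad_int_eq ℓ (q : ℤ) (by exact_mod_cast hq)
  rw [Int.cast_natCast] at h1
  have hp : (0 : ℝ) < ((ℓ.1 : ℕ) : ℝ) := by exact_mod_cast ℓ.2.pos
  rw [h1, padicValInt.of_nat, Nat.factorization_def q ℓ.2, Real.exp_neg, ← Real.log_pow,
    Real.exp_log (pow_pos hp _)]

lemma pf_plc (P : Finset Nat.Primes) : PF (plc P) := by
  classical
  intro z hz
  rw [Fintype.prod_option]
  have h1 : ∏ ℓ : P, plc P (some ℓ) (z : ℚ)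
      = (∏ ℓ ∈ P, ((ℓ.1 : ℕ) : ℝ) ^ padicValInt ℓ.1 z)⁻¹ := by
    rw [← Finset.prod_inv_distrib, ← Finset.prod_coe_sort P]
    exact Finset.prod_congr rfl fun ℓ _ => pad_int_eq ℓ.1 z hz
  have h2 : plc P none (z : ℚ) = |(z : ℝ)| := by simp [plc, arch]
  have h3 : ∏ ℓ ∈ P, ((ℓ.1 : ℕ) : ℤ) ^ padicValInt ℓ.1 z ∣ z := by
    refine Finset.prod_dvd_of_coprime ?_ fun ℓ _ => ?_
    · intro ℓ _ m _ hne
      exact lattice_coprime ℓ m hne _ _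
    · exact padicValInt_dvd z
  have h4 := Int.le_of_dvd (abs_pos.mpr hz) ((dvd_abs _ _).mpr h3)
  have h5 : ∏ ℓ ∈ P, ((ℓ.1 : ℕ) : ℝ) ^ padicValInt ℓ.1 z ≤ |(z : ℝ)| := by exact_mod_cast h4
  have h6 : 0 < ∏ ℓ ∈ P, ((ℓ.1 : ℕ) : ℝ) ^ padicValInt ℓ.1 z :=
    Finset.prod_pos fun ℓ _ => pow_pos (by exact_mod_cast ℓ.2.pos) _
  rw [h1, h2, ← div_eq_mul_inv, le_div_iff₀ h6, one_mul]
  exact h5

end Pool.Agent.Lib.Subspace
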