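import Pool.Agent.Lib.Subspace.Norm
import Pool.Agent.Lib.Subspace.Lattice

/-! The ultrapower of the rationals, its subfield of elements of height `o(n)`, and exponential
size bounds. -/

set_option autoImplicit false

open Filter

namespace Pool.Agent.Lib.Subspace

/-- The ultrapower of the rationals. -/
abbrev FF (U : Ultrafilter ℕ) := Filter.Germ (U : Filter ℕ) ℚ

/-- `a` is a quotient of two integers of size at most `t`. -/
def Ht (a : ℚ) (t : ℝ) : Prop :=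
  ∃ u d : ℤ, d ≠ 0 ∧ a = (u : ℚ) / d ∧ |(u : ℝ)| ≤ t ∧ |(d : ℝ)| ≤ t

lemma one_le_abs_int {d : ℤ} (hd : d ≠ 0) : (1 : ℝ) ≤ |(d : ℝ)| := by
  exact_mod_cast Int.one_le_abs hd

lemma Ht.one_le {a : ℚ} {t : ℝ} (h : Ht a t) : 1 ≤ t := by
  obtain ⟨u, d, hd, -, -, h2⟩ := h
  exact (one_le_abs_int hd).trans h2

lemma Ht.mono {a : ℚ} {s t : ℝ} (h : Ht a s) (hst : s ≤ t) : Ht a t := by
  obtain ⟨u, d, hd, h0, h1, h2⟩ := h
  exact ⟨u, d, hd, h0, h1.trans hst, h2.trans hst⟩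

lemma Ht.neg {a : ℚ} {t : ℝ} (h : Ht a t) : Ht (-a) t := by
  obtain ⟨u, d, hd, h0, h1, h2⟩ := h
  exact ⟨-u, d, hd, by rw [h0]; push_cast; ring, by simpa using h1, h2⟩

lemma Ht.mul {a b : ℚ} {s t : ℝ} (h : Ht a s) (h' : Ht b t) : Ht (a * b) (s * t) := by
  obtain ⟨u, d, hd, h0, h1, h2⟩ := h
  obtain ⟨u', d', hd', h0', h1', h2'⟩ := h'
  refine ⟨u * u', d * d', mul_ne_zero hd hd', by rw [h0, h0']; push_cast; ring, ?_, ?_⟩
  · push_cast; rw [abs_mul]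
    exact mul_le_mul h1 h1' (abs_nonneg _) ((abs_nonneg _).trans h1)
  · push_cast; rw [abs_mul]
    exact mul_le_mul h2 h2' (abs_nonneg _) ((abs_nonneg _).trans h2)

lemma Ht.add {a b : ℚ} {s t : ℝ} (h : Ht a s) (h' : Ht b t) : Ht (a + b) (2 * (s * t)) := by
  obtain ⟨u, d, hd, h0, h1, h2⟩ := h
  obtain ⟨u', d', hd', h0', h1', h2'⟩ := h'
  have hs : 0 ≤ s := (abs_nonneg _).trans h1
  have ht : 0 ≤ t := (abs_nonneg _).trans h1'
  have hdq : (d : ℚ) ≠ 0 := by exact_mod_cast hd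
  have hdq' : (d' : ℚ) ≠ 0 := by exact_mod_cast hd'
  refine ⟨u * d' + d * u', d * d', mul_ne_zero hd hd', ?_, ?_, ?_⟩
  · rw [h0, h0']; push_cast; field_simp
  · push_cast
    refine (abs_add_le _ _).trans ?_
    rw [abs_mul, abs_mul]
    have e1 := mul_le_mul h1 h2' (abs_nonneg _) hs
    have e2 := mul_le_mul h2 h1' (abs_nonneg _) hs
    linarith
  · push_cast; rw [abs_mul]
    have e1 := mul_le_mul h2 h2' (abs_nonneg _) hs
    nlinarith [mul_nonneg hs ht]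

lemma Ht.inv {a : ℚ} {t : ℝ} (h : Ht a t) : Ht a⁻¹ t := by
  have h1t := h.one_le
  obtain ⟨u, d, hd, h0, h1, h2⟩ := h
  by_cases hu : u = 0
  · exact ⟨0, 1, one_ne_zero, by simp [h0, hu], by simpa using (by linarith), by simpa using h1t⟩
  · exact ⟨d, u, hu, by rw [h0, inv_div], h2, h1⟩

lemma ht_int (z : ℤ) {t : ℝ} (h1 : 1 ≤ t) (hz : |(z : ℝ)| ≤ t) : Ht (z : ℚ) t :=
  ⟨z, 1, one_ne_zero, by simp, hz, by simpa using h1⟩

lemma exists_ht (a : ℚ) : ∃ t, Ht a t :=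
  ⟨max |(a.num : ℝ)| |((a.den : ℤ) : ℝ)|, a.num, a.den, by exact_mod_cast a.den_ne_zero,
    by simp [Rat.num_div_den], le_max_left _ _, le_max_right _ _⟩

/-- Absolute values that are not too small on integers. -/
def Good (v : AbsoluteValue ℚ ℝ) : Prop := ∀ d : ℤ, d ≠ 0 → 1 ≤ v (d : ℚ) * |(d : ℝ)|

lemma good_arch : Good arch := by
  intro d hd
  have := one_le_abs_int hd
  rw [arch_apply]
  push_cast
  nlinarith

lemma good_pad (ℓ : Nat.Primes) : Good (pad ℓ) := by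
  intro d hd
  have h := pf_plc {ℓ} d hd
  rw [Fintype.prod_option, Fintype.prod_unique] at h
  simp only [plc, arch_apply] at h
  have e : ((default : ({ℓ} : Finset Nat.Primes)) : Nat.Primes) = ℓ :=
    Finset.mem_singleton.mp (default : ({ℓ} : Finset Nat.Primes)).2
  rw [e] at h
  push_cast at h
  linarith

lemma Ht.v_le {v : AbsoluteValue ℚ ℝ} (hv : Good v) {a : ℚ} {t : ℝ} (h : Ht a t) :
    v a ≤ t * t := by
  obtain ⟨u, d, hd, h0, h1, h2⟩ := h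
  have hd0 : 0 < v (d : ℚ) := v.pos (by exact_mod_cast hd)
  have ht : 0 ≤ t := (abs_nonneg _).trans h1
  rw [h0, map_div₀, div_le_iff₀ hd0]
  have e1 : v (u : ℚ) ≤ t := (v_int_le v u).trans h1
  have e2 : 1 ≤ v (d : ℚ) * t := (hv d hd).trans (mul_le_mul_of_nonneg_left h2 hd0.le)
  nlinarith

variable {U : Ultrafilter ℕ}

lemma ev_const_le (hU : (U : Filter ℕ) ≤ atTop) (K : ℝ) {ε : ℝ} (hε : 0 < ε) :
    ∀ᶠ n : ℕ in (U : Filter ℕ), K ≤ Real.exp (ε * n) := by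
  refine hU ((tendsto_natCast_atTop_atTop.eventually_ge_atTop (K / ε)).mono fun n hn => ?_)
  rw [div_le_iff₀ hε] at hn
  have := Real.add_one_le_exp (ε * n)
  linarith

/-- Height at most `c n + o(n)`. -/
def HtLe (c : ℝ) (a : FF U) : Prop :=
  ∃ f : ℕ → ℚ, (f : FF U) = a ∧
    ∀ ε : ℝ, 0 < ε → ∀ᶠ n : ℕ in (U : Filter ℕ), Ht (f n) (Real.exp ((c + ε) * n))

/-- `v`-adic size at most `exp (c n + o(n))`. -/
def VLe (v : AbsoluteValue ℚ ℝ) (c : ℝ) (a : FF U) : Prop :=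
  ∃ f : ℕ → ℚ, (f : FF U) = a ∧
    ∀ ε : ℝ, 0 < ε → ∀ᶠ n : ℕ in (U : Filter ℕ), v (f n) ≤ Real.exp ((c + ε) * n)

/-- Germs of integer sequences. -/
def IsInt (a : FF U) : Prop := ∃ f : ℕ → ℤ, ((fun n => (f n : ℚ) : ℕ → ℚ) : FF U) = a

lemma htLe_coe {c : ℝ} {f : ℕ → ℚ} : HtLe c (f : FF U) ↔
    ∀ ε : ℝ, 0 < ε → ∀ᶠ n : ℕ in (U : Filter ℕ), Ht (f n) (Real.exp ((c + ε) * n)) := by
  refine ⟨?_, fun h => ⟨f, rfl, h⟩⟩
  rintro ⟨g, hg, h⟩ ε hε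
  filter_upwards [h ε hε, Germ.coe_eq.mp hg] with n h1 h2
  rwa [← h2]

lemma vLe_coe {v : AbsoluteValue ℚ ℝ} {c : ℝ} {f : ℕ → ℚ} : VLe v c (f : FF U) ↔
    ∀ ε : ℝ, 0 < ε → ∀ᶠ n : ℕ in (U : Filter ℕ), v (f n) ≤ Real.exp ((c + ε) * n) := by
  refine ⟨?_, fun h => ⟨f, rfl, h⟩⟩
  rintro ⟨g, hg, h⟩ ε hε
  filter_upwards [h ε hε, Germ.coe_eq.mp hg] with n h1 h2
  rwa [← h2]

lemma exp_mono_c {c c' : ℝ} (h : c ≤ c') (n : ℕ) : Real.exp (c * n) ≤ Real.exp (c' * n) :=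
  Real.exp_le_exp.mpr (mul_le_mul_of_nonneg_right h (Nat.cast_nonneg n))

lemma HtLe.mono {c c' : ℝ} {a : FF U} (h : HtLe c a) (hc : c ≤ c') : HtLe c' a := by
  obtain ⟨f, rfl, h⟩ := h
  exact ⟨f, rfl, fun ε hε => (h ε hε).mono fun n hn => hn.mono (exp_mono_c (by linarith) n)⟩

lemma HtLe.neg {c : ℝ} {a : FF U} (h : HtLe c a) : HtLe c (-a) := by
  obtain ⟨f, rfl, h⟩ := h
  exact ⟨-f, rfl, fun ε hε => (h ε hε).mono fun n hn => hn.neg⟩

lemma HtLe.inv {c : ℝ} {a : FF U} (h : HtLe c a) : HtLe c a⁻¹ := by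
  obtain ⟨f, rfl, h⟩ := h
  exact ⟨f⁻¹, rfl, fun ε hε => (h ε hε).mono fun n hn => hn.inv⟩

lemma HtLe.mul {c c' : ℝ} {a b : FF U} (h : HtLe c a) (h' : HtLe c' b) :
    HtLe (c + c') (a * b) := by
  obtain ⟨f, rfl, h⟩ := h
  obtain ⟨g, rfl, h'⟩ := h'
  refine ⟨f * g, rfl, fun ε hε => ?_⟩
  filter_upwards [h (ε / 2) (by linarith), h' (ε / 2) (by linarith)] with n h1 h2
  refine (h1.mul h2).mono (le_of_eq ?_)
  rw [← Real.exp_add]; ring_nf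

lemma HtLe.add (hU : (U : Filter ℕ) ≤ atTop) {c c' : ℝ} {a b : FF U} (h : HtLe c a)
    (h' : HtLe c' b) : HtLe (c + c') (a + b) := by
  obtain ⟨f, rfl, h⟩ := h
  obtain ⟨g, rfl, h'⟩ := h'
  refine ⟨f + g, rfl, fun ε hε => ?_⟩
  filter_upwards [h (ε / 3) (by linarith), h' (ε / 3) (by linarith),
    ev_const_le hU 2 (ε := ε / 3) (by linarith)] with n h1 h2 h3
  refine (h1.add h2).mono ?_
  refine (mul_le_mul_of_nonneg_right h3 (by positivity)).trans (le_of_eq ?_)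
  rw [← Real.exp_add, ← Real.exp_add]; ring_nf

lemma htLe_const (hU : (U : Filter ℕ) ≤ atTop) (r : ℚ) :
    HtLe 0 ((fun _ : ℕ => r : ℕ → ℚ) : FF U) := by
  obtain ⟨t, ht⟩ := exists_ht r
  refine ⟨_, rfl, fun ε hε => ?_⟩
  filter_upwards [ev_const_le hU t hε] with n hn
  exact ht.mono (by simpa using hn)

/-- The subfield of germs of height `o(n)`. -/
def k0 (hU : (U : Filter ℕ) ≤ atTop) : Subfield (FF U) where
  carrier := {a | HtLe 0 a}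
  mul_mem' ha hb := by simpa using HtLe.mul ha hb
  one_mem' := htLe_const hU 1
  add_mem' ha hb := by simpa using HtLe.add hU ha hb
  zero_mem' := htLe_const hU 0
  neg_mem' ha := HtLe.neg ha
  inv_mem' _ ha := HtLe.inv ha

lemma mem_k0 {hU : (U : Filter ℕ) ≤ atTop} {a : FF U} : a ∈ k0 hU ↔ HtLe 0 a := Iff.rfl

lemma VLe.mono {v : AbsoluteValue ℚ ℝ} {c c' : ℝ} {a : FF U} (h : VLe v c a) (hc : c ≤ c') :
    VLe v c' a := by
  obtain ⟨f, rfl, h⟩ := h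
  exact ⟨f, rfl, fun ε hε => (h ε hε).mono fun n hn => hn.trans (exp_mono_c (by linarith) n)⟩

lemma vLe_zero (v : AbsoluteValue ℚ ℝ) (c : ℝ) : VLe v c (0 : FF U) :=
  ⟨0, rfl, fun _ _ => Eventually.of_forall fun n => by simpa using (Real.exp_pos _).le⟩

lemma VLe.neg {v : AbsoluteValue ℚ ℝ} {c : ℝ} {a : FF U} (h : VLe v c a) : VLe v c (-a) := by
  obtain ⟨f, rfl, h⟩ := h
  exact ⟨-f, rfl, fun ε hε => (h ε hε).mono fun n hn => by simpa using hn⟩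

lemma VLe.mul {v : AbsoluteValue ℚ ℝ} {c c' : ℝ} {a b : FF U} (h : VLe v c a)
    (h' : VLe v c' b) : VLe v (c + c') (a * b) := by
  obtain ⟨f, rfl, h⟩ := h
  obtain ⟨g, rfl, h'⟩ := h'
  refine ⟨f * g, rfl, fun ε hε => ?_⟩
  filter_upwards [h (ε / 2) (by linarith), h' (ε / 2) (by linarith)] with n h1 h2
  rw [Pi.mul_apply, map_mul]
  refine (mul_le_mul h1 h2 (v.nonneg _) (Real.exp_pos _).le).trans (le_of_eq ?_)
  rw [← Real.exp_add]; ring_nf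

lemma VLe.add (hU : (U : Filter ℕ) ≤ atTop) {v : AbsoluteValue ℚ ℝ} {c : ℝ} {a b : FF U}
    (h : VLe v c a) (h' : VLe v c b) : VLe v c (a + b) := by
  obtain ⟨f, rfl, h⟩ := h
  obtain ⟨g, rfl, h'⟩ := h'
  refine ⟨f + g, rfl, fun ε hε => ?_⟩
  filter_upwards [h (ε / 2) (by linarith), h' (ε / 2) (by linarith),
    ev_const_le hU 2 (ε := ε / 2) (by linarith)] with n h1 h2 h3
  rw [Pi.add_apply]
  refine (v.add_le _ _).trans ?_
  have e : Real.exp ((c + ε) * n) = Real.exp (ε / 2 * n) * Real.exp ((c + ε / 2) * n) := by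
    rw [← Real.exp_add]; ring_nf
  rw [e]
  nlinarith [Real.exp_pos ((c + ε / 2) * n)]

lemma VLe.sub (hU : (U : Filter ℕ) ≤ atTop) {v : AbsoluteValue ℚ ℝ} {c : ℝ} {a b : FF U}
    (h : VLe v c a) (h' : VLe v c b) : VLe v c (a - b) := by
  rw [sub_eq_add_neg]; exact h.add hU h'.neg

lemma vLe_sum (hU : (U : Filter ℕ) ≤ atTop) {v : AbsoluteValue ℚ ℝ} {c : ℝ} {α : Type*}
    (s : Finset α) (f : α → FF U) (h : ∀ i ∈ s, VLe v c (f i)) : VLe v c (∑ i ∈ s, f i) :=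
  Finset.sum_induction f (VLe v c) (fun _ _ ha hb => ha.add hU hb) (vLe_zero v c) h

lemma HtLe.vLe {v : AbsoluteValue ℚ ℝ} (hv : Good v) {c : ℝ} {a : FF U} (h : HtLe c a) :
    VLe v (2 * c) a := by
  obtain ⟨f, rfl, h⟩ := h
  refine ⟨f, rfl, fun ε hε => ?_⟩
  filter_upwards [h (ε / 2) (by linarith)] with n h1
  refine (h1.v_le hv).trans (le_of_eq ?_)
  rw [← Real.exp_add]; ring_nf

lemma vLe_k0 {hU : (U : Filter ℕ) ≤ atTop} {v : AbsoluteValue ℚ ℝ} (hv : Good v) (a : k0 hU) :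
    VLe v 0 (a : FF U) := by
  simpa using HtLe.vLe hv (mem_k0.mp a.2)

lemma VLe.k0_mul {hU : (U : Filter ℕ) ≤ atTop} {v : AbsoluteValue ℚ ℝ} (hv : Good v) (a : k0 hU)
    {c : ℝ} {b : FF U} (h : VLe v c b) : VLe v c ((a : FF U) * b) := by
  simpa using (vLe_k0 hv a).mul h

lemma IsInt.add {a b : FF U} (h : IsInt a) (h' : IsInt b) : IsInt (a + b) := by
  obtain ⟨f, rfl⟩ := h
  obtain ⟨g, rfl⟩ := h'
  exact ⟨f + g, by rw [← Germ.coe_add]; congr 1; ext n; simp⟩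

lemma IsInt.mul {a b : FF U} (h : IsInt a) (h' : IsInt b) : IsInt (a * b) := by
  obtain ⟨f, rfl⟩ := h
  obtain ⟨g, rfl⟩ := h'
  exact ⟨f * g, by rw [← Germ.coe_mul]; congr 1; ext n; simp⟩

lemma IsInt.neg {a : FF U} (h : IsInt a) : IsInt (-a) := by
  obtain ⟨f, rfl⟩ := h
  exact ⟨-f, by rw [← Germ.coe_neg]; congr 1⟩

lemma isInt_one : IsInt (1 : FF U) := ⟨1, by rw [← Germ.coe_one]; congr 1⟩

lemma isInt_of_eventually {f : ℕ → ℚ} (h : ∀ᶠ n in (U : Filter ℕ), ∃ z : ℤ, f n = z) :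
    IsInt (f : FF U) := by
  classical
  refine ⟨fun n => if h : ∃ z : ℤ, f n = z then h.choose else 0, Germ.coe_eq.mpr ?_⟩
  filter_upwards [h] with n hn
  rw [dif_pos hn]
  exact hn.choose_spec.symm

lemma IsInt.vLe_pad {a : FF U} (h : IsInt a) (ℓ : Nat.Primes) : VLe (pad ℓ) 0 a := by
  obtain ⟨f, rfl⟩ := h
  refine ⟨_, rfl, fun ε hε => Eventually.of_forall fun n => ?_⟩
  refine (pad_int_le_one ℓ _).trans (Real.one_le_exp ?_)
  positivity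

lemma IsInt.htLe {a : FF U} (h : IsInt a) {c : ℝ} (hc : 0 ≤ c) (h' : VLe arch c a) :
    HtLe c a := by
  obtain ⟨f, rfl⟩ := h
  rw [vLe_coe] at h'
  refine ⟨_, rfl, fun ε hε => (h' ε hε).mono fun n hn => ?_⟩
  refine ht_int _ (Real.one_le_exp (by positivity)) ?_
  simpa [arch_apply] using hn

lemma vLe_one (v : AbsoluteValue ℚ ℝ) : VLe v 0 (1 : FF U) :=
  ⟨1, rfl, fun ε hε => Eventually.of_forall fun n => by
    simpa using (Real.one_le_exp (by positivity) : (1 : ℝ) ≤ Real.exp (ε * n))⟩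

lemma htLe_sum (hU : (U : Filter ℕ) ≤ atTop) {α : Type*} (s : Finset α) (f : α → FF U)
    (h : ∀ i ∈ s, ∃ c, HtLe c (f i)) : ∃ c, HtLe c (∑ i ∈ s, f i) :=
  Finset.sum_induction f (fun a => ∃ c, HtLe c a)
    (fun _ _ ⟨c, ha⟩ ⟨c', hb⟩ => ⟨c + c', ha.add hU hb⟩) ⟨0, (k0 hU).zero_mem⟩ h

end Pool.Agent.Lib.Subspace
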