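import Pool.Agent.Lib.Subspace.Core
import Pool.Agent.Lib.Subspace.Germ

/-! The Subspace Theorem in the ultrapower: a second main theorem over the field `k0`.

Plan. Assume `x` is independent over `k0 hU`; reindex by `Fintype.equivFin ι`. Choose integer
representatives `X i : ℕ → ℤ`.
(1) There is `η > 0` with: eventually in `U`, every nonzero integer relation of `X · n` has an
entry larger than `exp (η n)`. Otherwise (ultrafilter) for every `η > 0` eventually a relation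
of size at most `exp (η n)` exists; let `c n` be a nonzero relation of minimal sup norm
(`Nat.find` on `Finset.univ.sup (natAbs ∘ c)`, `0` if none exists); its germs lie in `k0`
(`ht_int`), give a vanishing combination, so all germs are `0`, so eventually `c n = 0`, absurd.
(2) Let `4 ε = -(∑ c0 + ∑∑ c) > 0`. For `σ > 0` choose representatives `a ℓ i k : ℕ → ℚ` of
the entries; eventually `Ht (a ℓ i k n) (exp (σ' n))` with `σ' = σ / (M^2 + 1)`; multiply the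
matrix by the product `D` of all its `M^2` denominators to get an integer matrix with entries at
most `exp (σ n)`; its determinant is `D^M * det (a ℓ · · n) ≠ 0` eventually
(`RingHom.map_det` for `Germ.coeRingHom` and `(k0 hU).subtype`), and
`pad ℓ (D * y) ≤ pad ℓ y` (`pad_int_le_one`). The product is at most
`exp ((∑ c0 + ∑∑ c + (number of factors) * ε') n) ≤ exp (-ε n)`. So `CData` holds eventually,
contradicting `core`. -/

set_option autoImplicit false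

open Filter

namespace Pool.Agent.Lib.Subspace

lemma coreg_cdata {ι : Type*} [Fintype ι] [DecidableEq ι] (P : Finset Nat.Primes)
    (C ε η σ n : ℝ) (x : ι → ℤ) (A : Nat.Primes → Matrix ι ι ℤ)
    (h1 : ∀ ℓ ∈ P, (A ℓ).det ≠ 0) (h2 : ∀ ℓ ∈ P, ∀ i k, |(A ℓ i k : ℝ)| ≤ Real.exp (σ * n))
    (h3 : ∀ i, |(x i : ℝ)| ≤ Real.exp (C * n))
    (h4 : (∏ i, |(x i : ℝ)|) * ∏ ℓ ∈ P, ∏ i, pad ℓ ((∑ k, A ℓ i k * x k : ℤ) : ℚ)
      ≤ Real.exp (-(ε * n)))
    (h5 : ∀ c : ι → ℤ, c ≠ 0 → ∑ i, c i * x i = 0 → ∃ i, Real.exp (η * n) < |(c i : ℝ)|) :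
    CData (Fintype.card ι) P C ε η σ n := by
  set e := Fintype.equivFin ι
  refine ⟨fun i => x (e.symm i), fun ℓ => (A ℓ).submatrix e.symm e.symm, fun ℓ hℓ => ?_,
    fun ℓ hℓ i k => h2 ℓ hℓ _ _, fun i => h3 _, ?_, fun c hc hr => ?_⟩
  · rw [Matrix.det_submatrix_equiv_self]
    exact h1 ℓ hℓ
  · refine le_of_eq_of_le ?_ h4
    congr 1
    · exact Equiv.prod_comp e.symm fun i => |(x i : ℝ)|
    · refine Finset.prod_congr rfl fun ℓ _ => ?_
      rw [← Equiv.prod_comp e.symm fun i => pad ℓ ((∑ k, A ℓ i k * x k : ℤ) : ℚ)]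
      refine Finset.prod_congr rfl fun i _ => ?_
      rw [← Equiv.sum_comp e.symm fun k => A ℓ (e.symm i) k * x k]
      rfl
  · have hc' : (fun i => c (e i)) ≠ 0 := fun h => hc (funext fun j => by
      simpa using congrFun h (e.symm j))
    obtain ⟨i, hi⟩ := h5 (fun i => c (e i)) hc' (by
      rw [← hr, ← Equiv.sum_comp e]
      simp)
    exact ⟨e i, hi⟩

lemma coreg_sum {U : Ultrafilter ℕ} {ι : Type*} [Fintype ι] (a b : ι → ℕ → ℚ) :
    ∑ k, (a k : FF U) * (b k : FF U) = ((fun n => ∑ k, a k n * b k n : ℕ → ℚ) : FF U) := by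
  have h : (fun n => ∑ k, a k n * b k n : ℕ → ℚ) = ∑ k, a k * b k := by
    funext n
    simp
  rw [h]
  exact (map_sum (Germ.coeRingHom (U : Filter ℕ)) (fun k => a k * b k) Finset.univ).symm

lemma coreg_min {ι : Type*} [Fintype ι] (S : Set (ι → ℤ)) :
    ∃ c : ι → ℤ, ∀ c' ∈ S, c ∈ S ∧ ∀ t : ℝ, (∀ i, |(c' i : ℝ)| ≤ t) → ∀ i, |(c i : ℝ)| ≤ t := by
  rcases S.eq_empty_or_nonempty with rfl | hS
  · exact ⟨0, fun _ h => absurd h (Set.notMem_empty _)⟩
  · obtain ⟨c, hc, hmin⟩ := (InvImage.wf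
      (fun c : ι → ℤ => Finset.univ.sup fun i => (c i).natAbs) wellFounded_lt).has_min S hS
    refine ⟨c, fun c' hc' => ⟨hc, fun t ht i => ?_⟩⟩
    have h1 : (Finset.univ.sup fun i => (c i).natAbs) ≤ Finset.univ.sup fun i => (c' i).natAbs :=
      not_lt.1 (hmin c' hc')
    obtain ⟨j, -, hj⟩ := Finset.exists_mem_eq_sup Finset.univ ⟨i, Finset.mem_univ i⟩
      fun i => (c' i).natAbs
    have h2 : (c i).natAbs ≤ (c' j).natAbs :=
      ((Finset.le_sup (f := fun i => (c i).natAbs) (Finset.mem_univ i)).trans h1).trans hj.le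
    have h3 : |c i| ≤ |c' j| := by
      rw [Int.abs_eq_natAbs, Int.abs_eq_natAbs]
      exact_mod_cast h2
    refine le_trans ?_ (ht j)
    exact_mod_cast h3

lemma coreg_eta {U : Ultrafilter ℕ} (hU : (U : Filter ℕ) ≤ atTop) {ι : Type*} [Fintype ι]
    (X : ι → ℕ → ℤ)
    (hli : LinearIndependent (k0 hU) fun i => ((fun n => (X i n : ℚ) : ℕ → ℚ) : FF U)) :
    ∃ η : ℝ, 0 < η ∧ ∀ᶠ n : ℕ in (U : Filter ℕ), ∀ c : ι → ℤ, c ≠ 0 → ∑ i, c i * X i n = 0 →
      ∃ i, Real.exp (η * n) < |(c i : ℝ)| := by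
  by_contra hn
  choose c hc using fun n : ℕ => coreg_min {c : ι → ℤ | c ≠ 0 ∧ ∑ i, c i * X i n = 0}
  have key : ∀ η : ℝ, 0 < η → ∀ᶠ n : ℕ in (U : Filter ℕ),
      (c n ≠ 0 ∧ ∑ i, c n i * X i n = 0) ∧ ∀ i, |(c n i : ℝ)| ≤ Real.exp (η * n) := by
    intro η hη
    have h1 := Ultrafilter.eventually_not.2 fun h => hn ⟨η, hη, h⟩
    filter_upwards [h1] with n h
    push Not at h
    obtain ⟨c', h2, h3, h4⟩ := h
    exact ⟨(hc n c' ⟨h2, h3⟩).1, (hc n c' ⟨h2, h3⟩).2 _ h4⟩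
  have hk : ∀ i, ((fun n => (c n i : ℚ) : ℕ → ℚ) : FF U) ∈ k0 hU := by
    intro i
    refine mem_k0.2 (htLe_coe.2 fun ε hε => ?_)
    filter_upwards [key ε hε] with n h
    rw [zero_add]
    exact ht_int _ (Real.one_le_exp (by positivity)) (h.2 i)
  have h0 := Fintype.linearIndependent_iff.1 hli (fun i => ⟨_, hk i⟩) (by
    refine (coreg_sum (fun i n => (c n i : ℚ)) fun i n => (X i n : ℚ)).trans ?_
    rw [← Germ.coe_zero, Germ.coe_eq]
    filter_upwards [key 1 one_pos] with n h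
    rw [Pi.zero_apply]
    exact_mod_cast h.1.2)
  have h1 : ∀ i, ∀ᶠ n : ℕ in (U : Filter ℕ), c n i = 0 := by
    intro i
    have h2 : ((fun n => (c n i : ℚ) : ℕ → ℚ) : FF U) = ((0 : ℕ → ℚ) : FF U) :=
      congrArg Subtype.val (h0 i)
    filter_upwards [Germ.coe_eq.1 h2] with n h
    rw [Pi.zero_apply] at h
    exact_mod_cast h
  obtain ⟨n, h2, h3⟩ := ((eventually_all.2 h1).and (key 1 one_pos)).exists
  exact h3.1.1 (funext h2)

lemma coreg_det {U : Ultrafilter ℕ} {hU : (U : Filter ℕ) ≤ atTop} {ι : Type*} [Fintype ι]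
    [DecidableEq ι] (A : Matrix ι ι (k0 hU)) (hA : A.det ≠ 0) (a : ι → ι → ℕ → ℚ)
    (ha : ∀ i k, (a i k : FF U) = A i k) :
    ∀ᶠ n : ℕ in (U : Filter ℕ), (Matrix.of fun i k => a i k n).det ≠ 0 := by
  have h1 : Germ.coeRingHom (U : Filter ℕ) (Matrix.of a).det = (k0 hU).subtype A.det := by
    rw [RingHom.map_det, RingHom.map_det]
    congr 1
    ext i k
    exact ha i k
  refine Ultrafilter.eventually_not.2 fun h => hA (Subtype.ext ?_)
  refine h1.symm.trans ?_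
  refine (Germ.coe_eq.2 ?_ : (((Matrix.of a).det : ℕ → ℚ) : FF U) = ((0 : ℕ → ℚ) : FF U))
  filter_upwards [h] with n hn
  exact ((Pi.evalRingHom (fun _ : ℕ => ℚ) n).map_det (Matrix.of a)).trans hn

lemma coreg_clear {ι : Type*} [Fintype ι] [DecidableEq ι] (B : Matrix ι ι ℚ) {t : ℝ}
    (h : ∀ i k, Ht (B i k) t) (hB : B.det ≠ 0) :
    ∃ Z : Matrix ι ι ℤ, Z.det ≠ 0 ∧ (∀ i k, |(Z i k : ℝ)| ≤ t ^ (Fintype.card (ι × ι) + 1)) ∧
      ∀ (ℓ : Nat.Primes) (x : ι → ℤ) (i : ι),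
        pad ℓ ((∑ k, Z i k * x k : ℤ) : ℚ) ≤ pad ℓ (∑ k, B i k * x k) := by
  have h' := h
  choose u d hd he hu hd' using h'
  set D : ℤ := ∏ p : ι × ι, d p.1 p.2 with hD
  have hD0 : D ≠ 0 := Finset.prod_ne_zero_iff.2 fun p _ => hd _ _
  set Z : Matrix ι ι ℤ := fun i k => u i k * ∏ p ∈ Finset.univ.erase (i, k), d p.1 p.2 with hZ
  have hZB : ∀ i k, (Z i k : ℚ) = D * B i k := by
    intro i k
    have h0 : (d i k : ℚ) ≠ 0 := by exact_mod_cast hd i k
    rw [he i k, hD, ← Finset.mul_prod_erase _ _ (Finset.mem_univ (i, k))]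
    simp only [hZ]
    push_cast
    field_simp
  refine ⟨Z, fun h0 => ?_, fun i k => ?_, fun ℓ x i => ?_⟩
  · have h1 : ((Z.det : ℤ) : ℚ) = ((D : ℚ) • B).det := by
      refine ((Int.castRingHom ℚ).map_det Z).trans ?_
      congr 1
      ext i k
      exact hZB i k
    rw [h0, Matrix.det_smul, Int.cast_zero] at h1
    exact mul_ne_zero (pow_ne_zero _ (by exact_mod_cast hD0)) hB h1.symm
  · have h1t := (h i k).one_le
    simp only [hZ]
    push_cast
    rw [abs_mul, Finset.abs_prod, pow_succ']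
    refine mul_le_mul (hu i k) ?_ (Finset.prod_nonneg fun _ _ => abs_nonneg _) (by linarith)
    refine (Finset.prod_le_prod (g := fun _ => t) (fun _ _ => abs_nonneg _)
      fun p _ => hd' _ _).trans ?_
    rw [Finset.prod_const]
    exact pow_le_pow_right₀ h1t (Finset.card_le_univ _)
  · have h1 : ((∑ k, Z i k * x k : ℤ) : ℚ) = D * ∑ k, B i k * x k := by
      push_cast
      rw [Finset.mul_sum]
      exact Finset.sum_congr rfl fun k _ => by rw [hZB, mul_assoc]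
    rw [h1, map_mul]
    exact mul_le_of_le_one_left ((pad ℓ).nonneg _) (pad_int_le_one ℓ D)

theorem coreG {U : Ultrafilter ℕ} (hU : (U : Filter ℕ) ≤ atTop) {ι : Type*} [Fintype ι]
    [DecidableEq ι] (P : Finset Nat.Primes) (x : ι → FF U) (hx : ∀ i, IsInt (x i))
    (A : Nat.Primes → Matrix ι ι (k0 hU)) (hA : ∀ ℓ ∈ P, (A ℓ).det ≠ 0) (c0 : ι → ℝ)
    (c : Nat.Primes → ι → ℝ) (h0 : ∀ i, VLe arch (c0 i) (x i))
    (h1 : ∀ ℓ ∈ P, ∀ i, VLe (pad ℓ) (c ℓ i) (∑ k, (A ℓ i k : FF U) * x k))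
    (hsum : ∑ i, c0 i + ∑ ℓ ∈ P, ∑ i, c ℓ i < 0) : ¬ LinearIndependent (k0 hU) x := by
  intro hli
  choose X hX using hx
  obtain rfl : x = fun i => ((fun n => (X i n : ℚ) : ℕ → ℚ) : FF U) := funext fun i => (hX i).symm
  obtain ⟨η, hη, hrel⟩ := coreg_eta hU X hli
  have ha := fun ℓ i k => mem_k0.1 (A ℓ i k).2
  choose a ha1 ha2 using ha
  set S : ℝ := ∑ i, c0 i + ∑ ℓ ∈ P, ∑ i, c ℓ i with hS
  set N : ℝ := Fintype.card ι + P.card * Fintype.card ι with hN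
  have hN0 : 0 ≤ N :=
    add_nonneg (Nat.cast_nonneg _) (mul_nonneg (Nat.cast_nonneg _) (Nat.cast_nonneg _))
  have hC : 0 < ∑ i, |c0 i| + 1 := by positivity
  have hε : 0 < -S / 2 := by linarith
  have hε' : 0 < -S / 2 / (N + 1) := div_pos hε (by linarith)
  set ε' : ℝ := -S / 2 / (N + 1) with hε'def
  have hε2 : N * ε' ≤ -S / 2 := by
    have : (N + 1) * ε' = -S / 2 := by rw [hε'def]; field_simp
    linarith
  refine core (Fintype.card ι) P (∑ i, |c0 i| + 1) (-S / 2) η hC hε hη U hU fun σ hσ => ?_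
  set L : ℕ := Fintype.card (ι × ι) + 1 with hL
  have hL0 : (0 : ℝ) < L := by rw [hL]; positivity
  have e1 : ∀ᶠ n : ℕ in (U : Filter ℕ), ∀ ℓ ∈ P, (Matrix.of fun i k => a ℓ i k n).det ≠ 0 :=
    (eventually_all_finset P).2 fun ℓ hℓ => coreg_det (A ℓ) (hA ℓ hℓ) (a ℓ) (ha1 ℓ)
  have e2 : ∀ᶠ n : ℕ in (U : Filter ℕ), ∀ ℓ ∈ P, ∀ i k,
      Ht (a ℓ i k n) (Real.exp ((0 + σ / L) * n)) :=
    (eventually_all_finset P).2 fun ℓ _ => eventually_all.2 fun i => eventually_all.2 fun k =>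
      ha2 ℓ i k _ (by positivity)
  have e3 : ∀ δ : ℝ, 0 < δ → ∀ᶠ n : ℕ in (U : Filter ℕ), ∀ i,
      |(X i n : ℝ)| ≤ Real.exp ((c0 i + δ) * n) := fun δ hδ =>
    eventually_all.2 fun i => (vLe_coe.1 (h0 i) δ hδ).mono fun n hn => by
      simpa [arch_apply] using hn
  have e4 : ∀ᶠ n : ℕ in (U : Filter ℕ), ∀ ℓ ∈ P, ∀ i,
      pad ℓ (∑ k, a ℓ i k n * (X k n : ℚ)) ≤ Real.exp ((c ℓ i + ε') * n) := by
    refine (eventually_all_finset P).2 fun ℓ hℓ => eventually_all.2 fun i => ?_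
    have h2 := h1 ℓ hℓ i
    simp only [← ha1] at h2
    rw [coreg_sum (a ℓ i) fun k n => (X k n : ℚ)] at h2
    exact vLe_coe.1 h2 ε' hε'
  filter_upwards [hrel, e1, e2, e3 1 one_pos, e3 ε' hε', e4] with n k0 k1 k2 k3 k4 k5
  have hZ := fun ℓ (hℓ : ℓ ∈ P) => coreg_clear (Matrix.of fun i k => a ℓ i k n) (k2 ℓ hℓ) (k1 ℓ hℓ)
  choose! Z z1 z2 z3 using hZ
  refine coreg_cdata P _ _ _ _ _ (fun i => X i n) Z z1 (fun ℓ hℓ i k => ?_) (fun i => ?_) ?_ k0
  · refine (z2 ℓ hℓ i k).trans (le_of_eq ?_)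
    rw [← hL, ← Real.exp_nat_mul]
    congr 1
    field_simp
    ring
  · refine (k3 i).trans (exp_mono_c ?_ n)
    have := Finset.single_le_sum (f := fun i => |c0 i|) (fun _ _ => abs_nonneg _)
      (Finset.mem_univ i)
    linarith [le_abs_self (c0 i)]
  · have p1 : ∏ i, |(X i n : ℝ)| ≤ ∏ i, Real.exp ((c0 i + ε') * n) :=
      Finset.prod_le_prod (fun _ _ => abs_nonneg _) fun i _ => k4 i
    have p2 : ∏ ℓ ∈ P, ∏ i, pad ℓ ((∑ k, Z ℓ i k * X k n : ℤ) : ℚ) ≤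
        ∏ ℓ ∈ P, ∏ i, Real.exp ((c ℓ i + ε') * n) :=
      Finset.prod_le_prod (fun ℓ _ => Finset.prod_nonneg fun _ _ => (pad ℓ).nonneg _)
        fun ℓ hℓ => Finset.prod_le_prod (fun _ _ => (pad ℓ).nonneg _)
          fun i _ => (z3 ℓ hℓ ℓ (fun k => X k n) i).trans (k5 ℓ hℓ i)
    refine (mul_le_mul p1 p2 (Finset.prod_nonneg fun ℓ _ => Finset.prod_nonneg fun _ _ =>
      (pad ℓ).nonneg _) (Finset.prod_nonneg fun _ _ => (Real.exp_pos _).le)).trans ?_
    simp only [← Real.exp_sum]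
    rw [← Real.exp_add, Real.exp_le_exp]
    have p3 : ∑ i, (c0 i + ε') * n + ∑ ℓ ∈ P, ∑ i, (c ℓ i + ε') * n = (S + N * ε') * n := by
      simp only [← Finset.sum_mul, Finset.sum_add_distrib, Finset.sum_const, Finset.card_univ,
        nsmul_eq_mul, hS, hN]
      ring
    rw [p3, ← neg_mul]
    exact mul_le_mul_of_nonneg_right (by linarith) (Nat.cast_nonneg n)

end Pool.Agent.Lib.Subspace
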