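import Mathlib

/-! A Korkine-Zolotarev type reduced basis in the sup norm (replaces Minkowski's second theorem
and Davenport's lemma).

Plan: induction on `M`, keeping the extra invariant in `kz_aux`. Step `M+1`: among unimodular `U`
choose one minimising the sup norm of row `0` of `U * B` (all entries lie in `(1/den) ℤ`, so use
`Nat.find` on `den * norm`); `B1 = U0 * B`, `lam0` the norm of row `0`, attained in column `π0`
(`lam0 > 0` as `det ≠ 0`). `B' j i = B1 (succ j) (π0.succAbove i) - B1 (succ j) π0 / B1 0 π0 *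
B1 0 (π0.succAbove i)` has `|det B1| = lam0 * |det B'|` (subtract multiples of row `0`, expand
along column `π0`: `det_succ_column`). From the hypothesis get `U'`, `π'`, `lam'`, `c'`. New rows:
row `0`, and `∑ l, U' j l • B1 (succ l) - (round (t j)) • B1 0` with
`t j = (∑ l, U' j l * B1 (succ l) π0) / B1 0 π0`; the matrix `U1` with first row `(1,0,..)` and
rows `(-round (t j), U' j)` has determinant `det U'` (`det_succ_row_zero`). The lifted row has
entries of size at most `lam0 / 2` in column `π0` and at most `c' min (..) + lam0/2` elsewhere.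
By minimality (swap rows `0` and `1`) `lam0 ≤ lam' 0 + lam0 / 2`, so `lam0 ≤ 2 lam' j`. Put
`lam = Fin.cons lam0 (fun j => max (lam' j) lam0)`, `π 0 = π0`, `π (succ i) = π0.succAbove (π' i)`,
`c = 2 ^ M * c' + 1`. -/

set_option autoImplicit false

namespace Pool.Agent.Lib.Subspace

theorem kz_den (N : ℕ) (B : Matrix (Fin N) (Fin N) ℚ) :
    ∃ (D : ℚ) (A : Matrix (Fin N) (Fin N) ℤ), 0 < D ∧ ∀ l i, (A l i : ℚ) = D * B l i := by
  classical
  refine ⟨((∏ x : Fin N × Fin N, (B x.1 x.2).den : ℕ) : ℚ), fun l i =>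
    ((∏ x ∈ (Finset.univ.erase ((l, i) : Fin N × Fin N)), (B x.1 x.2).den : ℕ) : ℤ) *
      (B l i).num, ?_, ?_⟩
  · exact Nat.cast_pos.2 (Finset.prod_pos (fun (x : Fin N × Fin N) _ => (B x.1 x.2).den_pos))
  · intro l i
    rw [← Finset.mul_prod_erase Finset.univ (fun x : Fin N × Fin N => (B x.1 x.2).den)
      (Finset.mem_univ (l, i))]
    have h : ((B l i).num : ℚ) = ((B l i).den : ℚ) * B l i := by
      rw [mul_comm]; exact (Rat.mul_den_eq_num (B l i)).symm
    push_cast
    rw [h]; ring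

theorem kz_min (M : ℕ) (B : Matrix (Fin (M + 1)) (Fin (M + 1)) ℚ) :
    ∃ (U : Matrix (Fin (M + 1)) (Fin (M + 1)) ℤ) (p : Fin (M + 1)), IsUnit U.det ∧
      (∀ i, |∑ l, (U 0 l : ℚ) * B l i| ≤ |∑ l, (U 0 l : ℚ) * B l p|) ∧
      ∀ V : Matrix (Fin (M + 1)) (Fin (M + 1)) ℤ, IsUnit V.det → ∀ j, ∃ i,
        |∑ l, (U 0 l : ℚ) * B l p| ≤ |∑ l, (V j l : ℚ) * B l i| := by
  classical
  obtain ⟨D, A, hD, hA⟩ := kz_den (M + 1) B
  have key : ∀ (v : Fin (M + 1) → ℤ) (i : Fin (M + 1)),
      (((∑ l, v l * A l i).natAbs : ℕ) : ℚ) = D * |∑ l, (v l : ℚ) * B l i| := by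
    intro v i
    have h1 : ((∑ l, v l * A l i : ℤ) : ℚ) = D * ∑ l, (v l : ℚ) * B l i := by
      push_cast
      rw [Finset.mul_sum]
      refine Finset.sum_congr rfl (fun l _ => ?_)
      rw [hA]; ring
    rw [Nat.cast_natAbs, Int.cast_abs, h1, abs_mul, abs_of_pos hD]
  have hex : ∃ n : ℕ, ∃ (V : Matrix (Fin (M + 1)) (Fin (M + 1)) ℤ) (j : Fin (M + 1)),
      IsUnit V.det ∧ ∀ i, (∑ l, V j l * A l i).natAbs ≤ n := by
    refine ⟨Finset.univ.sup (fun i => (∑ l, (1 : Matrix (Fin (M + 1)) (Fin (M + 1)) ℤ) 0 l *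
      A l i).natAbs), 1, 0, by simp, fun i => ?_⟩
    exact Finset.le_sup (f := fun i => (∑ l, (1 : Matrix (Fin (M + 1)) (Fin (M + 1)) ℤ) 0 l *
      A l i).natAbs) (Finset.mem_univ i)
  obtain ⟨V0, j0, hV0, hle⟩ := Nat.find_spec hex
  have hmin : ∀ V : Matrix (Fin (M + 1)) (Fin (M + 1)) ℤ, IsUnit V.det → ∀ j, ∃ i,
      Nat.find hex ≤ (∑ l, V j l * A l i).natAbs := by
    intro V hV j
    by_contra hcon
    push Not at hcon
    have h0 := hcon 0
    have h1 : Nat.find hex - 1 < Nat.find hex := by omega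
    exact Nat.find_min hex h1 ⟨V, j, hV, fun i => by have := hcon i; omega⟩
  obtain ⟨p, hp⟩ := hmin V0 hV0 j0
  refine ⟨V0.submatrix (Equiv.swap 0 j0) id, p, ?_, ?_, ?_⟩
  · rw [Matrix.det_permute]
    exact (Units.isUnit _).mul hV0
  · intro i
    simp only [Matrix.submatrix_apply, Equiv.swap_apply_left, id]
    have h1 : (((∑ l, V0 j0 l * A l i).natAbs : ℕ) : ℚ) ≤
        (((∑ l, V0 j0 l * A l p).natAbs : ℕ) : ℚ) := by
      exact_mod_cast (hle i).trans hp
    rw [key, key] at h1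
    exact le_of_mul_le_mul_left h1 hD
  · intro V hV j
    obtain ⟨i, hi⟩ := hmin V hV j
    refine ⟨i, ?_⟩
    simp only [Matrix.submatrix_apply, Equiv.swap_apply_left, id]
    have h1 : (((∑ l, V0 j0 l * A l p).natAbs : ℕ) : ℚ) ≤
        (((∑ l, V j l * A l i).natAbs : ℕ) : ℚ) := by
      exact_mod_cast (hle p).trans hi
    rw [key, key] at h1
    exact le_of_mul_le_mul_left h1 hD

theorem kz_det (M : ℕ) (C : Matrix (Fin (M + 1)) (Fin (M + 1)) ℚ) (p : Fin (M + 1))
    (hp : C 0 p ≠ 0) :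
    |C.det| = |C 0 p| * |(Matrix.of (fun j i : Fin M =>
      C j.succ (p.succAbove i) - C j.succ p / C 0 p * C 0 (p.succAbove i))).det| := by
  classical
  let c : Fin (M + 1) → ℚ := Fin.cons 0 (fun j => C j.succ p / C 0 p)
  let E : Matrix (Fin (M + 1)) (Fin (M + 1)) ℚ := Matrix.of (fun j i => C j i - c j * C 0 i)
  have h1 : C.det = E.det := by
    refine Matrix.det_eq_of_forall_row_eq_smul_add_const c 0 rfl (fun i j => ?_)
    simp [E, c]
  rw [h1, Matrix.det_succ_column E p, Fin.sum_univ_succ]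
  have h2 : ∀ j : Fin M, E j.succ p = 0 := by
    intro j
    simp only [E, c, Matrix.of_apply, Fin.cons_succ]
    field_simp
    ring
  simp only [h2, mul_zero, zero_mul, Finset.sum_const_zero, add_zero]
  have h3 : E 0 p = C 0 p := by simp [E, c]
  have h4 : E.submatrix (Fin.succAbove 0) p.succAbove = Matrix.of (fun j i : Fin M =>
      C j.succ (p.succAbove i) - C j.succ p / C 0 p * C 0 (p.succAbove i)) := by
    ext j i
    simp [E, c]
  rw [h3, h4, abs_mul, abs_mul, abs_pow, abs_neg, abs_one, one_pow, one_mul]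

theorem kz_lift (M : ℕ) (U : Matrix (Fin M) (Fin M) ℤ) (r : Fin M → ℤ) :
    ∃ W : Matrix (Fin (M + 1)) (Fin (M + 1)) ℤ, W.det = U.det ∧ W 0 0 = 1 ∧
      (∀ l : Fin M, W 0 l.succ = 0) ∧ (∀ j : Fin M, W j.succ 0 = r j) ∧
      ∀ j l : Fin M, W j.succ l.succ = U j l := by
  classical
  let W : Matrix (Fin (M + 1)) (Fin (M + 1)) ℤ :=
    Matrix.of (Fin.cons (Fin.cons 1 (fun _ => 0)) (fun j => Fin.cons (r j) (U j)))
  have h0 : W 0 0 = 1 := rfl
  have h1 : ∀ l : Fin M, W 0 l.succ = 0 := fun l => rfl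
  have h2 : ∀ j : Fin M, W j.succ 0 = r j := fun l => rfl
  have h3 : ∀ j l : Fin M, W j.succ l.succ = U j l := fun j l => rfl
  refine ⟨W, ?_, h0, h1, h2, h3⟩
  rw [Matrix.det_succ_row_zero, Fin.sum_univ_succ]
  simp only [h0, h1, mul_zero, zero_mul, Finset.sum_const_zero, add_zero]
  have h4 : W.submatrix Fin.succ (Fin.succAbove 0) = U := by
    ext j l
    simp [h3]
  rw [h4]
  simp

theorem kz_perm (M : ℕ) (p : Fin (M + 1)) (e : Equiv.Perm (Fin M)) :
    ∃ f : Equiv.Perm (Fin (M + 1)), f 0 = p ∧ ∀ i : Fin M, f i.succ = p.succAbove (e i) := by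
  refine ⟨(finSuccEquiv M).trans ((Equiv.optionCongr e).trans (finSuccEquiv' p).symm), ?_, ?_⟩
  · simp
  · intro i
    simp

theorem kz_mul (N : ℕ) (W U : Matrix (Fin N) (Fin N) ℤ) (B : Matrix (Fin N) (Fin N) ℚ)
    (j i : Fin N) : ∑ l, ((W * U) j l : ℚ) * B l i =
      ∑ k, (W j k : ℚ) * ∑ l, (U k l : ℚ) * B l i := by
  simp only [Matrix.mul_apply, Finset.mul_sum]
  push_cast
  simp only [Finset.sum_mul]
  rw [Finset.sum_comm]
  refine Finset.sum_congr rfl (fun k _ => Finset.sum_congr rfl (fun l _ => ?_))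
  ring

theorem kz_absdet (N : ℕ) (U : Matrix (Fin N) (Fin N) ℤ) (hU : IsUnit U.det)
    (B : Matrix (Fin N) (Fin N) ℚ) :
    |(Matrix.of (fun j i : Fin N => ∑ l, (U j l : ℚ) * B l i)).det| = |B.det| := by
  have h1 : Matrix.of (fun j i : Fin N => ∑ l, (U j l : ℚ) * B l i) =
      (Int.castRingHom ℚ).mapMatrix U * B := by
    ext j i
    simp [Matrix.mul_apply]
  rw [h1, Matrix.det_mul, ← RingHom.map_det, abs_mul]
  rcases Int.isUnit_iff.1 hU with h | h <;> simp [h]

theorem kz_rat (M : ℕ) : ∃ c : ℚ, 1 ≤ c ∧ ∀ B : Matrix (Fin M) (Fin M) ℚ, B.det ≠ 0 →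
    ∃ (U : Matrix (Fin M) (Fin M) ℤ) (e : Equiv.Perm (Fin M)) (lam : Fin M → ℚ),
      IsUnit U.det ∧ (∀ i, 0 < lam i) ∧ Monotone lam ∧
      (∀ j i, |∑ l, (U j l : ℚ) * B l (e i)| ≤ c * min (lam i) (lam j)) ∧
      ∏ i, lam i ≤ c * |B.det| ∧
      (∀ j : Fin M, j.val = 0 → ∀ i, |∑ l, (U j l : ℚ) * B l i| ≤ lam j) := by
  classical
  induction M with
  | zero =>
    refine ⟨1, le_rfl, fun B _ => ⟨1, 1, fun _ => 1, by simp, fun i => i.elim0,
      monotone_const, fun j => j.elim0, by simp, fun j => j.elim0⟩⟩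
  | succ M ih =>
    obtain ⟨c, hc, ih⟩ := ih
    have h2M : (1 : ℚ) ≤ 2 ^ M := one_le_pow₀ (by norm_num)
    have hc2 : c ≤ 2 ^ M * c := by nlinarith
    refine ⟨2 ^ M * c + 1, by linarith, fun B hB => ?_⟩
    obtain ⟨U0, p, hU0, hmax, hmin⟩ := kz_min M B
    set C : Matrix (Fin (M + 1)) (Fin (M + 1)) ℚ :=
      Matrix.of (fun j i => ∑ l, (U0 j l : ℚ) * B l i) with hCdef
    have hCa : ∀ j i, ∑ l, (U0 j l : ℚ) * B l i = C j i := fun j i => rfl
    simp only [hCa] at hmax hmin
    have hCdet : |C.det| = |B.det| := kz_absdet _ U0 hU0 B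
    have hp : C 0 p ≠ 0 := by
      intro h0
      have hz : C.det = 0 := by
        refine Matrix.det_eq_zero_of_row_eq_zero 0 (fun i => ?_)
        have := hmax i
        rw [h0, abs_zero] at this
        exact abs_nonpos_iff.1 this
      rw [hz, abs_zero] at hCdet
      exact hB (abs_eq_zero.1 hCdet.symm)
    have hl0 : 0 < |C 0 p| := abs_pos.2 hp
    set B' : Matrix (Fin M) (Fin M) ℚ := Matrix.of (fun j i : Fin M =>
      C j.succ (p.succAbove i) - C j.succ p / C 0 p * C 0 (p.succAbove i)) with hB'def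
    have hdet : |C.det| = |C 0 p| * |B'.det| := kz_det M C p hp
    have hB' : B'.det ≠ 0 := by
      intro h0
      rw [h0, abs_zero, mul_zero, hCdet] at hdet
      exact hB (abs_eq_zero.1 hdet)
    obtain ⟨U', e', lam', hU', hpos, hmono, hent, hprod, hfirst⟩ := ih B' hB'
    let t : Fin M → ℚ := fun j => (∑ l, (U' j l : ℚ) * C l.succ p) / C 0 p
    obtain ⟨W, hWdet, hW0, hW1, hW2, hW3⟩ := kz_lift M U' (fun j => -round (t j))
    obtain ⟨e, he0, he1⟩ := kz_perm M p e'
    have hWU : IsUnit (W * U0).det := by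
      rw [Matrix.det_mul, hWdet]; exact hU'.mul hU0
    have hrow0 : ∀ i, ∑ l, ((W * U0) 0 l : ℚ) * B l i = C 0 i := by
      intro i
      rw [kz_mul, Fin.sum_univ_succ]
      simp [hW0, hW1, hCa]
    have hrow : ∀ (j : Fin M) i, ∑ l, ((W * U0) j.succ l : ℚ) * B l i =
        -(round (t j) : ℚ) * C 0 i + ∑ l, (U' j l : ℚ) * C l.succ i := by
      intro j i
      rw [kz_mul, Fin.sum_univ_succ]
      simp [hW2, hW3, hCa]
    have hrp : ∀ j : Fin M, ∑ l, ((W * U0) j.succ l : ℚ) * B l p =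
        (t j - round (t j)) * C 0 p := by
      intro j
      rw [hrow]
      simp only [t]
      field_simp
      ring
    have hrs : ∀ j i : Fin M, ∑ l, ((W * U0) j.succ l : ℚ) * B l (p.succAbove i) =
        ∑ l, (U' j l : ℚ) * B' l i + (t j - round (t j)) * C 0 (p.succAbove i) := by
      intro j i
      rw [hrow]
      have : ∑ l, (U' j l : ℚ) * B' l i = ∑ l, (U' j l : ℚ) * C l.succ (p.succAbove i) -
          t j * C 0 (p.succAbove i) := by
        simp only [t, hB'def, Matrix.of_apply, mul_sub, Finset.sum_sub_distrib, Finset.sum_div,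
          Finset.sum_mul]
        congr 1
        refine Finset.sum_congr rfl (fun l _ => ?_)
        ring
      rw [this]; ring
    have hhalf : ∀ (j : Fin M) i, |(t j - round (t j)) * C 0 i| ≤ |C 0 p| / 2 := by
      intro j i
      rw [abs_mul]
      have h1 := abs_sub_round (t j)
      have h2 := hmax i
      have h3 := abs_nonneg (C 0 i)
      have h4 := abs_nonneg (t j - round (t j))
      nlinarith
    have htwo : ∀ j : Fin M, |C 0 p| ≤ 2 * lam' j := by
      intro j
      have hM : 0 < M := Fin.pos j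
      have hj0 : (⟨0, hM⟩ : Fin M) ≤ j := Nat.zero_le _
      have h1 := hmono hj0
      obtain ⟨i, hi⟩ := hmin (W * U0) hWU (Fin.succ ⟨0, hM⟩)
      have h2 := hpos ⟨0, hM⟩
      rcases Fin.eq_self_or_eq_succAbove p i with rfl | ⟨k, rfl⟩
      · rw [hrp] at hi
        have := hhalf ⟨0, hM⟩ i
        linarith
      · rw [hrs] at hi
        have h3 := hhalf ⟨0, hM⟩ (p.succAbove k)
        have h4 := hfirst ⟨0, hM⟩ rfl k
        have h5 := abs_add_le (∑ l, (U' ⟨0, hM⟩ l : ℚ) * B' l k)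
          ((t ⟨0, hM⟩ - round (t ⟨0, hM⟩)) * C 0 (p.succAbove k))
        linarith
    let lam : Fin (M + 1) → ℚ := Fin.cons |C 0 p| (fun j => max (lam' j) |C 0 p|)
    have hl00 : lam 0 = |C 0 p| := rfl
    have hls : ∀ j : Fin M, lam j.succ = max (lam' j) |C 0 p| := fun j => rfl
    have hge : ∀ i, |C 0 p| ≤ lam i := by
      intro i
      refine Fin.cases ?_ (fun k => ?_) i
      · exact hl00.ge
      · rw [hls]; exact le_max_right _ _
    have hgem : ∀ i j, |C 0 p| ≤ min (lam i) (lam j) := fun i j => le_min (hge i) (hge j)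
    refine ⟨W * U0, e, lam, hWU, fun i => hl0.trans_le (hge i), ?_, ?_, ?_, ?_⟩
    · intro a b
      refine Fin.cases (fun _ => ?_) (fun a' => ?_) a
      · rw [hl00]; exact hge b
      · refine Fin.cases (fun hab => ?_) (fun b' hab => ?_) b
        · exact absurd hab (not_le.2 (Fin.succ_pos a'))
        · rw [hls, hls]
          exact max_le_max (hmono (Fin.succ_le_succ_iff.1 hab)) le_rfl
    · intro j i
      have hg := hgem i j
      have hcc : 0 ≤ 2 ^ M * c := by linarith
      revert hg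
      refine Fin.cases (fun hg => ?_) (fun j' => ?_) j
      · rw [hrow0]
        have := hmax (e i)
        nlinarith
      · refine Fin.cases (fun hg => ?_) (fun i' hg => ?_) i
        · rw [he0, hrp]
          have := hhalf j' p
          nlinarith
        · rw [he1, hrs]
          have h3 := hhalf j' (p.succAbove (e' i'))
          have h4 := hent j' i'
          have h5 := abs_add_le (∑ l, (U' j' l : ℚ) * B' l (e' i'))
            ((t j' - round (t j')) * C 0 (p.succAbove (e' i')))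
          have h6 : min (lam' i') (lam' j') ≤ min (lam i'.succ) (lam j'.succ) := by
            rw [hls, hls]
            exact min_le_min (le_max_left _ _) (le_max_left _ _)
          have h7 : c * min (lam' i') (lam' j') ≤
              2 ^ M * c * min (lam i'.succ) (lam j'.succ) :=
            mul_le_mul hc2 h6 (le_min (hpos _).le (hpos _).le) hcc
          linarith
    · rw [Fin.prod_univ_succ, hl00]
      have h1 : ∏ i : Fin M, lam i.succ ≤ ∏ i : Fin M, 2 * lam' i := by
        refine Finset.prod_le_prod (fun i _ => (hl0.trans_le (hge _)).le) (fun i _ => ?_)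
        rw [hls]
        have := hpos i
        exact max_le (by linarith) (htwo i)
      rw [Finset.prod_mul_distrib, Finset.prod_const, Finset.card_univ, Fintype.card_fin] at h1
      have h2 : ∏ i : Fin M, lam i.succ ≤ 2 ^ M * (c * |B'.det|) :=
        h1.trans (mul_le_mul_of_nonneg_left hprod (by positivity))
      have h3 := mul_le_mul_of_nonneg_left h2 hl0.le
      rw [← hCdet, hdet]
      have h4 : 0 ≤ |C 0 p| * |B'.det| := by positivity
      nlinarith
    · intro j hj i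
      have hj0 : j = 0 := Fin.ext hj
      subst hj0
      rw [hrow0, hl00]
      exact hmax i

theorem kz_aux (M : ℕ) : ∃ c : ℝ, 1 ≤ c ∧ ∀ B : Matrix (Fin M) (Fin M) ℚ, B.det ≠ 0 →
    ∃ (U : Matrix (Fin M) (Fin M) ℤ) (π : Equiv.Perm (Fin M)) (lam : Fin M → ℝ),
      IsUnit U.det ∧ (∀ i, 0 < lam i) ∧ Monotone lam ∧
      (∀ j i, |((∑ l, (U j l : ℚ) * B l (π i) : ℚ) : ℝ)| ≤ c * min (lam i) (lam j)) ∧
      ∏ i, lam i ≤ c * |((B.det : ℚ) : ℝ)| ∧
      (∀ j : Fin M, j.val = 0 → ∀ i, |((∑ l, (U j l : ℚ) * B l i : ℚ) : ℝ)| ≤ lam j) := by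
  obtain ⟨c, hc, h⟩ := kz_rat M
  refine ⟨(c : ℝ), by exact_mod_cast hc, fun B hB => ?_⟩
  obtain ⟨U, e, lam, hU, hpos, hmono, hent, hprod, hfirst⟩ := h B hB
  refine ⟨U, e, fun i => (lam i : ℝ), hU, fun i => ?_, fun a b hab => ?_, fun j i => ?_, ?_,
    fun j hj i => ?_⟩
  · beta_reduce
    exact_mod_cast hpos i
  · beta_reduce
    exact_mod_cast hmono hab
  · beta_reduce
    exact_mod_cast hent j i
  · beta_reduce
    exact_mod_cast hprod
  · beta_reduce
    exact_mod_cast hfirst j hj i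

end Pool.Agent.Lib.Subspace
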