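import Pool.Agent.Lib.Subspace.Norm
import Pool.Agent.Lib.Subspace.KZ
import Pool.Agent.Lib.Subspace.Compound
import Pool.Agent.Lib.Subspace.Lattice

/-! From a point with a small product of linear forms to the penultimate minimum situation.

`reduced`: all `x i ≠ 0` and all `(A ℓ x) i ≠ 0` (unit vectors and rows of `A ℓ` are nonzero
vectors of size at most `exp (η n)` when `σ ≤ η`). `a ℓ i = padicValInt ℓ ((A ℓ x) i)`,
`B0` from `lattice_basis`, `kz_aux` for `B0 i k / |x k|`, `B = U * B0`. `x = ∑ c0 j • B j` with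
integers `c0` (`U` is unimodular); Cramer (`c0 j * det B = det (updateRow B j x)`,
`abs_det_le_of_le_mul`) gives `|c0 j| * lam j ≤ c' = M! c^(M+1)`, so `c0 j = 0` if
`c' < lam j`, and `lam 0 ≤ c'`. `lattice_lower` gives `∏ lam ≥ exp (ε n) / (M! c^M ∏ |det A ℓ|)`,
so `max (lam j) c'` grows by `exp (ε n / (2M))` from the first to the last index and there is a
step `k → k+1` with factor `exp (ε n / (2 M^2))`. Bounds for `log (lam i)`: `B 0 ≠ 0` is integral,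
and the product is bounded; `ℓ ^ a ℓ i ≤ |(A ℓ x) i| ≤ M exp ((σ + C) n)`.

`c_to_p`: `p = M - (k+1)` (number of indices above `k`), `τ0 = {j | k < j}`, `Z = cmp p B`,
matrices `1` at the real place and `cmp p (A ℓ)` at `ℓ`;
`γ none s = ∑ i ∈ s, (log |x i| + log (lam (π⁻¹ i))) + log (p! c^p) - (if s = π τ0 then g else 0)`,
`γ (some ℓ) s = - ∑ i ∈ s, a ℓ i * log ℓ`. Use `abs_det_le_of_le_mul` (a row `j0 ≤ k` of `τ ≠ τ0`
gains the factor `exp (-g)` in the columns `π τ0`), `cmp_mul`, `cmp_transpose`, `prod_dvd_det`,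
`pad_le_of_dvd`, `sum_sum_powersetCard`, `cmp_contract`. -/

set_option autoImplicit false

namespace Pool.Agent.Lib.Subspace

/-- Output of the geometry of numbers step. -/
def RData (M : ℕ) (P : Finset Nat.Primes) (c C g η σ n : ℝ) : Prop :=
  ∃ (x : Fin M → ℤ) (A : Nat.Primes → Matrix (Fin M) (Fin M) ℤ) (B : Matrix (Fin M) (Fin M) ℤ)
    (π : Equiv.Perm (Fin M)) (lam : Fin M → ℝ) (a : Nat.Primes → Fin M → ℕ) (k : ℕ)
    (c0 : Fin M → ℤ),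
    (∀ ℓ ∈ P, (A ℓ).det ≠ 0) ∧ (∀ ℓ ∈ P, ∀ i k, |(A ℓ i k : ℝ)| ≤ Real.exp (σ * n)) ∧
    (∀ i, x i ≠ 0) ∧ (∀ i, |(x i : ℝ)| ≤ Real.exp (C * n)) ∧
    (∀ c : Fin M → ℤ, c ≠ 0 → ∑ i, c i * x i = 0 → ∃ i, Real.exp (η * n) < |(c i : ℝ)|) ∧
    B.det ≠ 0 ∧ (∀ i, 0 < lam i) ∧ (∀ i, |Real.log (lam i)| ≤ C * n) ∧
    (∀ j i, |(B j (π i) : ℝ)| ≤ c * |(x (π i) : ℝ)| * min (lam i) (lam j)) ∧
    (∀ j, ∀ ℓ ∈ P, ∀ i, ((ℓ.1 : ℕ) : ℤ) ^ a ℓ i ∣ ∑ k, A ℓ i k * B j k) ∧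
    (∀ ℓ ∈ P, ∀ i, (a ℓ i : ℝ) * Real.log ℓ.1 ≤ C * n) ∧
    (∑ i, (Real.log |(x i : ℝ)| + Real.log (lam i)) -
      ∑ ℓ ∈ P, ∑ i, (a ℓ i : ℝ) * Real.log ℓ.1 ≤ Real.log c) ∧
    k + 1 < M ∧ (∀ j i : Fin M, j.val ≤ k → k < i.val → lam j * Real.exp (g * n) ≤ lam i) ∧
    (∀ i, x i = ∑ j, c0 j * B j i) ∧ (∀ j : Fin M, k < j.val → c0 j = 0)

end Pool.Agent.Lib.Subspace
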