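import Mathlib

/-!
Definitions for the p-adic Subspace Theorem over the rationals (rational linear forms of small
height, finitely many primes), following Schmidt, Schlickewei and Bombieri-Gubler chapter 7.
-/

set_option autoImplicit false

open MvPolynomial

namespace Pool.Agent.Lib.Subspace

noncomputable section

/-- Weighted l1 norm of a polynomial with respect to an absolute value `v` and radii `ρ`. -/
def nrm {σ : Type*} (v : AbsoluteValue ℚ ℝ) (ρ : σ → ℝ) (f : MvPolynomial σ ℚ) : ℝ :=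
  ∑ a ∈ f.support, v (coeff a f) * a.prod (fun i k => ρ i ^ k)

/-- Sum of the absolute values of the coefficients. -/
def l1 {σ : Type*} (f : MvPolynomial σ ℚ) : ℝ :=
  ∑ a ∈ f.support, |((coeff a f : ℚ) : ℝ)|

/-- Polynomials with integer coefficients inside the rational polynomials. -/
def ZP (σ : Type*) : Subring (MvPolynomial σ ℚ) :=
  (MvPolynomial.map (Int.castRingHom ℚ) : MvPolynomial σ ℤ →+* MvPolynomial σ ℚ).range

/-- The substitution `X j ↦ X j + ξ j`. -/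
def shift {σ : Type*} (ξ : σ → ℚ) : MvPolynomial σ ℚ →ₐ[ℚ] MvPolynomial σ ℚ :=
  aeval fun j => X j + C (ξ j)

/-- Weighted degree of a monomial. -/
def wt {σ : Type*} [Fintype σ] (w : σ → ℝ) (a : σ →₀ ℕ) : ℝ := ∑ j, (a j : ℝ) * w j

/-- `f` vanishes at `ξ` with index at least `θ` for the weights `w`. -/
def Van {σ : Type*} [Fintype σ] (ξ : σ → ℚ) (w : σ → ℝ) (θ : ℝ) (f : MvPolynomial σ ℚ) : Prop :=
  ∀ a ∈ (shift ξ f).support, θ ≤ wt w a

/-- The Taylor expansion `f (X + Y)` as a polynomial in `Y` over the polynomials in `X`. -/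
def taylor {σ : Type*} : MvPolynomial σ ℚ →ₐ[ℚ] MvPolynomial σ (MvPolynomial σ ℚ) :=
  aeval fun j => C (X j) + X j

/-- Hasse derivative (divided partial derivative) of multi-order `e`. -/
def hasse {σ : Type*} (e : σ →₀ ℕ) (f : MvPolynomial σ ℚ) : MvPolynomial σ ℚ :=
  coeff e (taylor f)

/-- Blockwise linear substitution `X (j,i) ↦ ∑ k, B j i k * X (j,k)`. -/
def subst {μ ι : Type*} [Fintype ι] (B : μ → Matrix ι ι ℚ) :
    MvPolynomial (μ × ι) ℚ →ₐ[ℚ] MvPolynomial (μ × ι) ℚ :=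
  aeval fun x => ∑ k, C (B x.1 x.2 k) * X (x.1, k)

/-- Multihomogeneity: degree `d j` in the block `j`. -/
def MHom {μ ι : Type*} [Fintype ι] (d : μ → ℕ) (f : MvPolynomial (μ × ι) ℚ) : Prop :=
  ∀ J ∈ f.support, ∀ j, ∑ i, J (j, i) = d j

/-- An integer matrix viewed over the rationals. -/
def toQ {ι : Type*} (A : Matrix ι ι ℤ) : Matrix ι ι ℚ := A.map (fun z => (z : ℚ))

/-- The p-adic absolute value. -/
def pad (ℓ : Nat.Primes) : AbsoluteValue ℚ ℝ := @Rat.AbsoluteValue.padic ℓ.1 ⟨ℓ.2⟩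

/-- The real absolute value. -/
def arch : AbsoluteValue ℚ ℝ := Rat.AbsoluteValue.real

/-- The places: the real one and the primes of `P`. -/
def plc (P : Finset Nat.Primes) : Option P → AbsoluteValue ℚ ℝ
  | none => arch
  | some ℓ => pad ℓ.1

/-- Product formula inequality for nonzero integers. -/
def PF {S : Type*} [Fintype S] (v : S → AbsoluteValue ℚ ℝ) : Prop :=
  ∀ z : ℤ, z ≠ 0 → 1 ≤ ∏ s, v s (z : ℚ)

/-- Data at scale `n` for the penultimate minimum theorem: all rows of `Z` except the row `τ0`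
lie in a box of small volume, and the hyperplane they span has large height. -/
def PData (ι : Type*) {S : Type*} [Fintype ι] [DecidableEq ι] [Fintype S]
    (v : S → AbsoluteValue ℚ ℝ) (C δ η σ n : ℝ) : Prop :=
  ∃ (A : S → Matrix ι ι ℤ) (Z : Matrix ι ι ℤ) (τ0 : ι) (γ : S → ι → ℝ),
    (∀ s, (A s).det ≠ 0) ∧ (∀ s i k, |(A s i k : ℝ)| ≤ Real.exp (σ * n)) ∧ Z.det ≠ 0 ∧
    (∀ s i, |γ s i| ≤ C * n) ∧ (∑ s, ∑ i, γ s i ≤ -(δ * n)) ∧
    (∀ s τ i, τ ≠ τ0 → v s ((∑ k, A s i k * Z τ k : ℤ) : ℚ) ≤ Real.exp (γ s i)) ∧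
    (∀ s i, v s ((∑ k, A s i k * Z τ0 k : ℤ) : ℚ) ≤ Real.exp (γ s i + C * n)) ∧
    (∀ c : ι → ℤ, c ≠ 0 → (∀ τ, τ ≠ τ0 → ∑ i, c i * Z τ i = 0) →
      ∃ i, Real.exp (η * n) < |(c i : ℝ)|)

/-- Data at scale `n` for the Subspace Theorem: an integer point with a small product of linear
forms which satisfies no linear relation with small coefficients. -/
def CData (M : ℕ) (P : Finset Nat.Primes) (C ε η σ n : ℝ) : Prop :=
  ∃ (x : Fin M → ℤ) (A : Nat.Primes → Matrix (Fin M) (Fin M) ℤ),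
    (∀ ℓ ∈ P, (A ℓ).det ≠ 0) ∧ (∀ ℓ ∈ P, ∀ i k, |(A ℓ i k : ℝ)| ≤ Real.exp (σ * n)) ∧
    (∀ i, |(x i : ℝ)| ≤ Real.exp (C * n)) ∧
    (∏ i, |(x i : ℝ)|) * ∏ ℓ ∈ P, ∏ i, pad ℓ ((∑ k, A ℓ i k * x k : ℤ) : ℚ)
      ≤ Real.exp (-(ε * n)) ∧
    (∀ c : Fin M → ℤ, c ≠ 0 → ∑ i, c i * x i = 0 → ∃ i, Real.exp (η * n) < |(c i : ℝ)|)

/-- Increasing enumeration of a `p`-element subset of `Fin M`. -/
def emb {M p : ℕ} (s : Set.powersetCard (Fin M) p) : Fin p ↪o Fin M :=
  s.val.orderEmbOfFin s.prop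

/-- The `p`-th compound matrix (all `p × p` minors). -/
def cmp {R : Type*} [CommRing R] {M : ℕ} (p : ℕ) (A : Matrix (Fin M) (Fin M) R) :
    Matrix (Set.powersetCard (Fin M) p) (Set.powersetCard (Fin M) p) R :=
  fun s t => (A.submatrix (emb s) (emb t)).det

end

end Pool.Agent.Lib.Subspace
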