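import Pool.Agent.Lib.Subspace.Norm

/-! Hasse derivatives and the index of vanishing.

Hints. `taylor` is an algebra hom, so `hasse e` is additive and `ℚ`-linear.
`hasse_monomial`: `taylor (monomial a c) = C (C c) * ∏ j, (C (X j) + X j) ^ a j`; expand each
factor with `add_pow`, the product of sums with `Finset.prod_univ_sum`, every term is a
`monomial r (..)`, and `coeff e` picks `r = e` (if `e ≤ a` fails some binomial is zero).
`hasse_shift`: `taylor ∘ shift ξ = map (shift ξ) ∘ taylor` by `algHom_ext`, then `coeff_map`.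
All other facts: write `f = ∑ a ∈ f.support, monomial a (coeff a f)` (`as_sum`). -/

set_option autoImplicit false

open MvPolynomial

namespace Pool.Agent.Lib.Subspace

variable {σ : Type*}

lemma hasse_add (e : σ →₀ ℕ) (f g : MvPolynomial σ ℚ) :
    hasse e (f + g) = hasse e f + hasse e g := by
  simp only [hasse, map_add, coeff_add]

lemma hasse_sum (e : σ →₀ ℕ) {α : Type*} (s : Finset α) (f : α → MvPolynomial σ ℚ) :
    hasse e (∑ i ∈ s, f i) = ∑ i ∈ s, hasse e (f i) := by
  simp only [hasse, map_sum, coeff_sum]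

lemma hasse_C_mul (e : σ →₀ ℕ) (c : ℚ) (f : MvPolynomial σ ℚ) :
    hasse e (C c * f) = C c * hasse e f := by
  rw [hasse, map_mul, algHom_C, MvPolynomial.algebraMap_apply, algebraMap_eq, coeff_C_mul, hasse]

lemma hasse_pow (j : σ) (n : ℕ) :
    (C (X j) + X j : MvPolynomial σ (MvPolynomial σ ℚ)) ^ n = ∑ m ∈ Finset.range (n + 1),
      monomial (Finsupp.single j m) (monomial (Finsupp.single j (n - m)) (n.choose m : ℚ)) := by
  rw [add_comm, add_pow]
  refine Finset.sum_congr rfl fun m _ => ?_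
  rw [← C_mul_X_pow_eq_monomial, ← C_mul_X_pow_eq_monomial, map_mul, map_pow, map_natCast,
    map_natCast]
  ring

lemma hasse_monomial [Fintype σ] (e a : σ →₀ ℕ) (c : ℚ) :
    hasse e (monomial a c) = monomial (a - e) (c * ∏ j, ((a j).choose (e j) : ℚ)) := by
  classical
  rw [← C_mul_monomial, ← mul_one c, ← C_mul_monomial, hasse_C_mul, mul_one]
  congr 1
  rw [hasse, taylor, aeval_monomial, map_one, one_mul, Finsupp.prod_fintype _ _ (by simp)]
  simp only [hasse_pow, Finset.prod_univ_sum, ← monomial_sum_prod, coeff_sum, coeff_monomial]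
  have h : ∀ (p : σ → ℕ) (j : σ), (∑ i, Finsupp.single i (p i)) j = p j := fun p j => by
    simp [Finsupp.finsetSum_apply, Finsupp.single_apply]
  rw [Finset.sum_eq_single (e : σ → ℕ), if_pos (Finsupp.ext (h e))]
  · congr 2
    exact Finsupp.ext fun j => h (fun i => a i - e i) j
  · intro p _ hp
    exact if_neg fun h' => hp (funext fun j => by rw [← h', h])
  · intro he
    rw [Fintype.mem_piFinset, not_forall] at he
    obtain ⟨j, hj⟩ := he
    rw [Finset.prod_eq_zero (Finset.mem_univ j), monomial_zero, ite_self]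
    rw [Nat.choose_eq_zero_of_lt (by simpa using hj), Nat.cast_zero]

lemma hasse_shift (ξ : σ → ℚ) (e : σ →₀ ℕ) (f : MvPolynomial σ ℚ) :
    hasse e (shift ξ f) = shift ξ (hasse e f) := by
  have h : taylor.comp (shift ξ) = (mapAlgHom (shift ξ)).comp taylor := by
    refine algHom_ext fun j => ?_
    simp [taylor, shift, MvPolynomial.algebraMap_apply]
    ring
  have h' : taylor (shift ξ f) = mapAlgHom (shift ξ) (taylor f) := DFunLike.congr_fun h f
  rw [hasse, h', mapAlgHom_apply, coeff_map]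
  rfl

lemma hasse_eq [Fintype σ] (e : σ →₀ ℕ) (f : MvPolynomial σ ℚ) :
    hasse e f = ∑ a ∈ f.support,
      monomial (a - e) (coeff a f * ∏ j, ((a j).choose (e j) : ℚ)) := by
  conv_lhs => rw [f.as_sum]
  simp only [hasse_sum, hasse_monomial]

lemma hasse_support [Fintype σ] {e a : σ →₀ ℕ} {f : MvPolynomial σ ℚ}
    (h : a ∈ (hasse e f).support) : a + e ∈ f.support := by
  classical
  rw [mem_support_iff, hasse_eq, coeff_sum] at h
  obtain ⟨b, hb, h⟩ := Finset.exists_ne_zero_of_sum_ne_zero h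
  rw [coeff_monomial] at h
  split_ifs at h with hab
  · have h1 : e ≤ b := fun j => by
      have := Finset.prod_ne_zero_iff.1 (right_ne_zero_of_mul h) j (Finset.mem_univ j)
      exact not_lt.1 fun h2 => this (by rw [Nat.choose_eq_zero_of_lt h2, Nat.cast_zero])
    rwa [← hab, tsub_add_cancel_of_le h1]
  · exact absurd rfl h

lemma hasse_mem_ZP [Fintype σ] (e : σ →₀ ℕ) {f : MvPolynomial σ ℚ} (hf : f ∈ ZP σ) :
    hasse e f ∈ ZP σ := by
  rw [hasse_eq]
  refine Subring.sum_mem _ fun a _ => ?_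
  obtain ⟨z, hz⟩ := mem_ZP_iff.1 hf a
  have := monomial_mem_ZP (a - e) (z * ∏ j, ((a j).choose (e j) : ℤ))
  rw [hz]
  exact_mod_cast this

lemma l1_hasse_le [Fintype σ] (e : σ →₀ ℕ) {f : MvPolynomial σ ℚ} {d : σ → ℕ}
    (hd : ∀ j, f.degreeOf j ≤ d j) : l1 (hasse e f) ≤ 2 ^ (∑ j, d j) * l1 f := by
  rw [hasse_eq]
  refine (l1_sum_le _ _).trans ?_
  rw [l1, Finset.mul_sum]
  refine Finset.sum_le_sum fun a ha => ?_
  rw [l1_monomial, Rat.cast_mul, abs_mul, mul_comm]
  refine mul_le_mul_of_nonneg_right ?_ (abs_nonneg _)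
  have h : ∏ j, (a j).choose (e j) ≤ 2 ^ ∑ j, d j := by
    rw [← Finset.prod_pow_eq_pow_sum]
    exact Finset.prod_le_prod' fun j _ => (Nat.choose_le_two_pow _ _).trans
      (Nat.pow_le_pow_right two_pos ((monomial_le_degreeOf j ha).trans (hd j)))
  rw [← Nat.cast_prod, Rat.cast_natCast, Nat.abs_cast]
  exact_mod_cast h

lemma degreeOf_hasse_le [Fintype σ] (e : σ →₀ ℕ) (f : MvPolynomial σ ℚ) (j : σ) :
    (hasse e f).degreeOf j ≤ f.degreeOf j :=
  degreeOf_le_iff.2 fun _ ha =>
    (Nat.le_add_right _ _).trans (monomial_le_degreeOf j (hasse_support ha))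

lemma wt_add [Fintype σ] (w : σ → ℝ) (a b : σ →₀ ℕ) : wt w (a + b) = wt w a + wt w b := by
  simp only [wt, Finsupp.add_apply, Nat.cast_add, add_mul, Finset.sum_add_distrib]

lemma van_mono [Fintype σ] {ξ : σ → ℚ} {w : σ → ℝ} {θ θ' : ℝ} {f : MvPolynomial σ ℚ}
    (h : Van ξ w θ f) (hθ : θ' ≤ θ) : Van ξ w θ' f :=
  fun a ha => hθ.trans (h a ha)

lemma van_zero [Fintype σ] (ξ : σ → ℚ) {w : σ → ℝ} (hw : ∀ j, 0 ≤ w j)
    (f : MvPolynomial σ ℚ) : Van ξ w 0 f :=
  fun _ _ => Finset.sum_nonneg fun j _ => mul_nonneg (Nat.cast_nonneg _) (hw j)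

lemma van_hasse [Fintype σ] {ξ : σ → ℚ} {w : σ → ℝ} {θ : ℝ} {f : MvPolynomial σ ℚ}
    (h : Van ξ w θ f) (e : σ →₀ ℕ) : Van ξ w (θ - wt w e) (hasse e f) := by
  intro a ha
  rw [← hasse_shift] at ha
  have := h _ (hasse_support ha)
  rw [wt_add] at this
  linarith

lemma van_C_mul [Fintype σ] {ξ : σ → ℚ} {w : σ → ℝ} {θ : ℝ} {f : MvPolynomial σ ℚ}
    (h : Van ξ w θ f) (c : ℚ) : Van ξ w θ (C c * f) := by
  intro a ha
  rw [map_mul, algHom_C, algebraMap_eq, mem_support_iff, coeff_C_mul] at ha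
  exact h a (mem_support_iff.2 (right_ne_zero_of_mul ha))

lemma hasse_van_mul [Fintype σ] {ξ : σ → ℚ} {w : σ → ℝ} {θ θ' : ℝ} {f g : MvPolynomial σ ℚ}
    (h : Van ξ w θ f) (h' : Van ξ w θ' g) : Van ξ w (θ + θ') (f * g) := by
  classical
  intro a ha
  rw [map_mul] at ha
  obtain ⟨b, hb, c, hc, rfl⟩ := Finset.mem_add.1 (support_mul _ _ ha)
  rw [wt_add]
  exact add_le_add (h b hb) (h' c hc)

lemma hasse_van_prod [Fintype σ] {ξ : σ → ℚ} {w : σ → ℝ} {α : Type*} (s : Finset α)
    {θ : α → ℝ} {f : α → MvPolynomial σ ℚ} (h : ∀ i, Van ξ w (θ i) (f i)) :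
    Van ξ w (∑ i ∈ s, θ i) (∏ i ∈ s, f i) := by
  classical
  induction s using Finset.induction_on with
  | empty =>
    intro a ha
    rw [Finset.prod_empty, map_one, mem_support_iff, coeff_one] at ha
    have : 0 = a := by simpa using ha
    simp [← this, wt]
  | insert i s hi ih =>
    rw [Finset.sum_insert hi, Finset.prod_insert hi]
    exact hasse_van_mul (h i) ih

lemma hasse_van_sum [Fintype σ] {ξ : σ → ℚ} {w : σ → ℝ} {α : Type*} (s : Finset α)
    {θ : ℝ} {f : α → MvPolynomial σ ℚ} (h : ∀ i, Van ξ w θ (f i)) :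
    Van ξ w θ (∑ i ∈ s, f i) := by
  intro a ha
  rw [map_sum, mem_support_iff, coeff_sum] at ha
  obtain ⟨i, -, hi⟩ := Finset.exists_ne_zero_of_sum_ne_zero ha
  exact h i a (mem_support_iff.2 hi)

/-- The index of a determinant: if the entry `(i, r)` has index at least `t r`, the determinant
has index at least `∑ r, t r`. -/
lemma van_det [Fintype σ] {ξ : σ → ℚ} {w : σ → ℝ} {n : Type*} [Fintype n] [DecidableEq n]
    (M : Matrix n n (MvPolynomial σ ℚ)) (t : n → ℝ) (h : ∀ i r, Van ξ w (t r) (M i r)) :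
    Van ξ w (∑ r, t r) M.det := by
  rw [Matrix.det_apply']
  refine hasse_van_sum _ fun π => ?_
  rw [← map_intCast (C : ℚ →+* MvPolynomial σ ℚ)]
  exact van_C_mul (hasse_van_prod _ fun i => h _ i) _

/-- A polynomial in the variables `1..m` times a polynomial in the variable `0`. -/
noncomputable def tens {m : ℕ} (f : MvPolynomial (Fin m) ℚ) (g : MvPolynomial (Fin 1) ℚ) :
    MvPolynomial (Fin (m + 1)) ℚ :=
  rename Fin.succ f * rename (fun _ => 0) g

lemma hasse_tens_monomial {m : ℕ} (a : Fin m →₀ ℕ) (b : Fin 1 →₀ ℕ) (c d : ℚ) :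
    tens (monomial a c) (monomial b d) = monomial (Finsupp.cons (b 0) a) (c * d) := by
  rw [tens, rename_monomial, rename_monomial, monomial_mul]
  congr 2
  have hb : b = Finsupp.single 0 (b 0) := Finsupp.unique_single b
  rw [hb, Finsupp.mapDomain_single, Finsupp.single_eq_same]
  ext j
  refine Fin.cases ?_ (fun j => ?_) j
  · rw [Finsupp.add_apply, Finsupp.mapDomain_of_notMem_range _ _ (by simp), Finsupp.cons_zero,
      Finsupp.single_eq_same, zero_add]
  · rw [Finsupp.add_apply, Finsupp.mapDomain_apply (Fin.succ_injective _), Finsupp.cons_succ,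
      Finsupp.single_eq_of_ne (Fin.succ_ne_zero j), add_zero]

lemma hasse_tens_add_left {m : ℕ} (f f' : MvPolynomial (Fin m) ℚ) (g : MvPolynomial (Fin 1) ℚ) :
    tens (f + f') g = tens f g + tens f' g := by
  simp only [tens, map_add, add_mul]

lemma hasse_tens_add_right {m : ℕ} (f : MvPolynomial (Fin m) ℚ) (g g' : MvPolynomial (Fin 1) ℚ) :
    tens f (g + g') = tens f g + tens f g' := by
  simp only [tens, map_add, mul_add]

lemma coeff_tens {m : ℕ} (f : MvPolynomial (Fin m) ℚ) (g : MvPolynomial (Fin 1) ℚ)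
    (e : Fin m →₀ ℕ) (r : Fin 1 →₀ ℕ) :
    coeff (Finsupp.cons (r 0) e) (tens f g) = coeff e f * coeff r g := by
  induction f using MvPolynomial.induction_on' with
  | add f f' h h' => rw [hasse_tens_add_left, coeff_add, coeff_add, h, h', add_mul]
  | monomial a c =>
    induction g using MvPolynomial.induction_on' with
    | add g g' h h' => rw [hasse_tens_add_right, coeff_add, coeff_add, h, h', mul_add]
    | monomial b d =>
      have hb : b 0 = r 0 ↔ b = r :=
        ⟨fun h => Finsupp.ext fun j => by rwa [Subsingleton.elim j 0], fun h => by rw [h]⟩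
      simp only [hasse_tens_monomial, coeff_monomial, Finsupp.cons_injective2.eq_iff, hb]
      by_cases h1 : a = e <;> by_cases h2 : b = r <;> simp [h1, h2]

lemma hasse_tens {m : ℕ} (f : MvPolynomial (Fin m) ℚ) (g : MvPolynomial (Fin 1) ℚ)
    (e : Fin m →₀ ℕ) (r : Fin 1 →₀ ℕ) :
    hasse (Finsupp.cons (r 0) e) (tens f g) = tens (hasse e f) (hasse r g) := by
  induction f using MvPolynomial.induction_on' with
  | add f f' h h' => rw [hasse_tens_add_left, hasse_add, hasse_add, h, h', hasse_tens_add_left]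
  | monomial a c =>
    induction g using MvPolynomial.induction_on' with
    | add g g' h h' => rw [hasse_tens_add_right, hasse_add, hasse_add, h, h', hasse_tens_add_right]
    | monomial b d =>
      simp only [hasse_tens_monomial, hasse_monomial, Fin.prod_univ_succ, Finsupp.cons_zero,
        Finsupp.cons_succ, Fin.prod_univ_zero]
      congr 1
      · congr 1
        ext j
        refine Fin.cases ?_ (fun j => ?_) j <;> simp
      · ring

lemma shift_tens {m : ℕ} (ξ : Fin (m + 1) → ℚ) (f : MvPolynomial (Fin m) ℚ)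
    (g : MvPolynomial (Fin 1) ℚ) :
    shift ξ (tens f g) = tens (shift (fun j => ξ j.succ) f) (shift (fun _ => ξ 0) g) := by
  have h : ∀ {τ : Type} (φ : τ → Fin (m + 1)) (p : MvPolynomial τ ℚ),
      shift ξ (rename φ p) = rename φ (shift (fun j => ξ (φ j)) p) := fun φ p => by
    have : (shift ξ).comp (rename φ) = (rename φ).comp (shift fun j => ξ (φ j)) :=
      algHom_ext fun j => by simp [shift]
    exact DFunLike.congr_fun this p
  rw [tens, map_mul, h, h, tens]

/-- The index is additive on products in disjoint variables (the direction that is needed). -/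
lemma not_van_tens {m : ℕ} {ξ : Fin (m + 1) → ℚ} {w : Fin (m + 1) → ℝ} {θ₁ θ₂ : ℝ}
    {f : MvPolynomial (Fin m) ℚ} {g : MvPolynomial (Fin 1) ℚ}
    (hf : ¬ Van (fun j => ξ j.succ) (fun j => w j.succ) θ₁ f)
    (hg : ¬ Van (fun _ => ξ 0) (fun _ => w 0) θ₂ g) : ¬ Van ξ w (θ₁ + θ₂) (tens f g) := by
  simp only [Van, not_forall, not_le] at hf hg ⊢
  obtain ⟨a, ha, h1⟩ := hf
  obtain ⟨b, hb, h2⟩ := hg
  refine ⟨Finsupp.cons (b 0) a, ?_, ?_⟩
  · rw [shift_tens, mem_support_iff, coeff_tens]
    exact mul_ne_zero (mem_support_iff.1 ha) (mem_support_iff.1 hb)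
  · simp only [wt, Fin.sum_univ_succ, Finsupp.cons_zero, Finsupp.cons_succ, Fin.sum_univ_zero]
      at h1 h2 ⊢
    linarith

end Pool.Agent.Lib.Subspace
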