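import Pool.Agent.Lib.Subspace.Norm

/-! Reduction of the index along hyperplanes to the index at a point of a product of lines.

Plan. Let `ω j k = (Z j)⁻¹ k (τ0 j)`, `M j = ∑ k, C (ω j k) * X (j,k)`.
(1) `P = subst (fun j => ((Z j)ᵀ)⁻¹) R` with `R = subst (fun j => (Z j)ᵀ) P` (`subst_subst`,
`subst_one`), and this substitution sends `X (j, τ0 j)` to `M j`. So `P` is a sum of terms
`G * ∏ j, M j ^ e j` with `θ ≤ ∑ j, e j * w j`.
(2) `R0 = MvPolynomial (Fin m) ℚ`, `φ0 : MvPolynomial (Fin m × ι) ℚ →ₐ MvPolynomial (Fin m × ι) R0`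
with `X (j, i j) ↦ C (X j)`, `X (j, i' j) ↦ 1`, other `X x ↦ X x`. On monomials it is injective
for multihomogeneous exponents, so every coefficient of every coefficient of `φ0 P` is `0` or a
coefficient of `P` (different ones for different monomials), and `φ0 P ≠ 0`. Take `κ` minimal
for `≤` in the support of `φ0 P`, `P' = coeff κ (φ0 P)`.
(3) `ψ : R0 →ₐ MvPolynomial (Fin m × ι) R0`, `X j ↦ C (X j + C (ξ j)) - ∑ k ∉ {i j, i' j},
C (C (ω j k / ω j (i j))) * X (j,k)` with `ξ j = - ω j (i' j) / ω j (i j)`; `φ` sends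
`X (j, i j) ↦ ψ (X j)` and is otherwise like `φ0`. Then `φ (M j) = C (C (ω j (i j)) * X j)`, so by
(1) every coefficient of `φ P` has only monomials of weight at least `θ`.
(4) `φ P = ∑ κ' ∈ support (φ0 P), ψ (coeff κ' (φ0 P)) * monomial κ' 1`, and by minimality of `κ`
its coefficient at `κ` is `constantCoeff (ψ P') = shift ξ P'` (`coeff_mul_monomial'`,
`algHom_ext`). -/

set_option autoImplicit false

open MvPolynomial Matrix

namespace Pool.Agent.Lib.Subspace

section aux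

variable {m : ℕ} {ι : Type*} [Fintype ι] [DecidableEq ι]

/-- The exponents of the variables `X (j, i j)`. -/
noncomputable def lines_al (i : Fin m → ι) (J : Fin m × ι →₀ ℕ) : Fin m →₀ ℕ :=
  Finsupp.equivFunOnFinite.symm fun j => J (j, i j)

/-- The exponents of the remaining variables. -/
noncomputable def lines_be (i i' : Fin m → ι) (J : Fin m × ι →₀ ℕ) : Fin m × ι →₀ ℕ :=
  Finsupp.equivFunOnFinite.symm fun x => if x.2 = i x.1 ∨ x.2 = i' x.1 then 0 else J x

omit [Fintype ι] [DecidableEq ι] in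
lemma lines_al_apply (i : Fin m → ι) (J : Fin m × ι →₀ ℕ) (j : Fin m) :
    lines_al i J j = J (j, i j) := rfl

lemma lines_be_apply (i i' : Fin m → ι) (J : Fin m × ι →₀ ℕ) (x : Fin m × ι) :
    lines_be i i' J x = if x.2 = i x.1 ∨ x.2 = i' x.1 then 0 else J x := rfl

lemma lines_inj (i i' : Fin m → ι) (d : Fin m → ℕ) {J J' : Fin m × ι →₀ ℕ}
    (hJ : ∀ j, ∑ k, J (j, k) = d j) (hJ' : ∀ j, ∑ k, J' (j, k) = d j)
    (ha : lines_al i J = lines_al i J') (hb : lines_be i i' J = lines_be i i' J') : J = J' := by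
  have h1 : ∀ j k, k ≠ i' j → J (j, k) = J' (j, k) := by
    intro j k hk
    by_cases hki : k = i j
    · have := DFunLike.congr_fun ha j
      rw [lines_al_apply, lines_al_apply] at this
      rw [hki]; exact this
    · have := DFunLike.congr_fun hb (j, k)
      rw [lines_be_apply, lines_be_apply] at this
      simpa [hk, hki] using this
  ext ⟨j, k⟩
  by_cases hk : k = i' j
  · have e1 := hJ j
    have e2 := hJ' j
    rw [← Finset.add_sum_erase _ _ (Finset.mem_univ (i' j))] at e1 e2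
    have e3 : ∑ k ∈ Finset.univ.erase (i' j), J (j, k) = ∑ k ∈ Finset.univ.erase (i' j), J' (j, k) :=
      Finset.sum_congr rfl fun k hk => h1 j k (Finset.ne_of_mem_erase hk)
    rw [hk]; omega
  · exact h1 j k hk

/-- Image of `X (j, i j)`. -/
noncomputable def lines_px (i i' : Fin m → ι) (ω : Fin m → ι → ℚ) (ξ : Fin m → ℚ) (j : Fin m) :
    MvPolynomial (Fin m × ι) (MvPolynomial (Fin m) ℚ) :=
  C (X j + C (ξ j)) - ∑ k ∈ (Finset.univ.erase (i j)).erase (i' j),
    C (C (ω j k / ω j (i j))) * X (j, k)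

noncomputable def lines_psi (i i' : Fin m → ι) (ω : Fin m → ι → ℚ) (ξ : Fin m → ℚ) :
    MvPolynomial (Fin m) ℚ →ₐ[ℚ] MvPolynomial (Fin m × ι) (MvPolynomial (Fin m) ℚ) :=
  aeval (lines_px i i' ω ξ)

noncomputable def lines_g (i i' : Fin m → ι) (ω : Fin m → ι → ℚ) (ξ : Fin m → ℚ)
    (x : Fin m × ι) : MvPolynomial (Fin m × ι) (MvPolynomial (Fin m) ℚ) :=
  if x.2 = i x.1 then lines_px i i' ω ξ x.1 else if x.2 = i' x.1 then 1 else X x

noncomputable def lines_phi (i i' : Fin m → ι) (ω : Fin m → ι → ℚ) (ξ : Fin m → ℚ) :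
    MvPolynomial (Fin m × ι) ℚ →ₐ[ℚ] MvPolynomial (Fin m × ι) (MvPolynomial (Fin m) ℚ) :=
  aeval (lines_g i i' ω ξ)

lemma lines_cc_psi (i i' : Fin m → ι) (ω : Fin m → ι → ℚ) (ξ : Fin m → ℚ)
    (f : MvPolynomial (Fin m) ℚ) : coeff 0 (lines_psi i i' ω ξ f) = shift ξ f := by
  rw [← constantCoeff_eq]
  induction f using MvPolynomial.induction_on with
  | C c => simp [lines_psi, shift]
  | add p q hp hq => rw [map_add, map_add, map_add, hp, hq]
  | mul_X p j hp =>
    rw [map_mul, map_mul, map_mul, hp]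
    congr 1
    simp [lines_psi, shift, lines_px]

lemma lines_phi_monomial (i i' : Fin m → ι) (ω : Fin m → ι → ℚ) (ξ : Fin m → ℚ)
    (J : Fin m × ι →₀ ℕ) (c : ℚ) :
    lines_phi i i' ω ξ (monomial J c) =
      lines_psi i i' ω ξ (monomial (lines_al i J) c) * monomial (lines_be i i' J) 1 := by
  rw [lines_phi, lines_psi, aeval_monomial, aeval_monomial, monomial_eq, C_1, one_mul, mul_assoc]
  congr 1
  rw [Finsupp.prod_fintype _ _ (by simp), Finsupp.prod_fintype _ _ (by simp),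
    Finsupp.prod_fintype _ _ (by simp)]
  have h : ∀ x : Fin m × ι, lines_g i i' ω ξ x ^ J x =
      (if x.2 = i x.1 then lines_px i i' ω ξ x.1 ^ J x else 1) * X x ^ lines_be i i' J x := by
    intro x
    rw [lines_g, lines_be_apply]
    by_cases h1 : x.2 = i x.1
    · simp [h1]
    · by_cases h2 : x.2 = i' x.1
      · rw [if_neg h1, if_pos h2, if_neg h1, if_pos (Or.inr h2)]; simp
      · rw [if_neg h1, if_neg h2, if_neg h1, if_neg (by tauto)]; simp
  simp_rw [h]
  rw [Finset.prod_mul_distrib]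
  congr 1
  rw [Fintype.prod_prod_type]
  refine Finset.prod_congr rfl fun j _ => ?_
  simp [lines_al_apply]

lemma lines_phi_M (i i' : Fin m → ι) (hne : ∀ j, i j ≠ i' j) (ω : Fin m → ι → ℚ)
    (hω : ∀ j, ω j (i j) ≠ 0) (j : Fin m) :
    lines_phi i i' ω (fun j => -ω j (i' j) / ω j (i j)) (∑ k, C (ω j k) * X (j, k)) =
      C (C (ω j (i j)) * X j) := by
  rw [map_sum, ← Finset.add_sum_erase _ _ (Finset.mem_univ (i j)),
    ← Finset.add_sum_erase _ _ (Finset.mem_erase.mpr ⟨(hne j).symm, Finset.mem_univ (i' j)⟩)]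
  have h3 : ∑ k ∈ (Finset.univ.erase (i j)).erase (i' j),
      lines_phi i i' ω (fun j => -ω j (i' j) / ω j (i j)) (C (ω j k) * X (j, k)) =
      C (C (ω j (i j))) * ∑ k ∈ (Finset.univ.erase (i j)).erase (i' j),
        C (C (ω j k / ω j (i j))) * X (j, k) := by
    rw [Finset.mul_sum]
    refine Finset.sum_congr rfl fun k hk => ?_
    have hk1 : k ≠ i' j := Finset.ne_of_mem_erase hk
    have hk2 : k ≠ i j := Finset.ne_of_mem_erase (Finset.mem_of_mem_erase hk)
    rw [← mul_assoc, ← map_mul, ← map_mul, mul_div_cancel₀ _ (hω j)]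
    simp [lines_phi, lines_g, hk1, hk2]
  rw [h3]
  have h1 : lines_phi i i' ω (fun j => -ω j (i' j) / ω j (i j)) (C (ω j (i j)) * X (j, i j)) =
      C (C (ω j (i j))) * lines_px i i' ω (fun j => -ω j (i' j) / ω j (i j)) j := by
    simp [lines_phi, lines_g]
  have h2 : lines_phi i i' ω (fun j => -ω j (i' j) / ω j (i j)) (C (ω j (i' j)) * X (j, i' j)) =
      C (C (ω j (i' j))) := by
    simp [lines_phi, lines_g, (hne j).symm]
  rw [h1, h2, lines_px]
  have h4 : (C (C (ω j (i j))) * C (C (-ω j (i' j) / ω j (i j))) :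
      MvPolynomial (Fin m × ι) (MvPolynomial (Fin m) ℚ)) = - C (C (ω j (i' j))) := by
    rw [← map_mul, ← map_mul, mul_div_cancel₀ _ (hω j), map_neg, map_neg]
  rw [map_add, map_mul]
  linear_combination h4

omit [DecidableEq ι] in
lemma lines_dvd {T : Type*} [CommRing T] [Algebra ℚ T] (F : MvPolynomial (Fin m × ι) ℚ →ₐ[ℚ] T)
    (τ0 : Fin m → ι) (y : Fin m → T) (hy : ∀ j, y j ∣ F (X (j, τ0 j)))
    (a : Fin m × ι →₀ ℕ) (c : ℚ) : ∏ j, y j ^ a (j, τ0 j) ∣ F (monomial a c) := by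
  rw [monomial_eq, map_mul, Finsupp.prod_fintype _ _ (by simp), map_prod, Fintype.prod_prod_type]
  refine Dvd.dvd.mul_left (Finset.prod_dvd_prod_of_dvd _ _ fun j _ => ?_) _
  refine dvd_trans ?_ (Finset.dvd_prod_of_mem _ (Finset.mem_univ (τ0 j)))
  rw [map_pow]
  exact pow_dvd_pow_of_dvd (hy j) _

end aux

theorem lines {m : ℕ} {ι : Type*} [Fintype ι] [DecidableEq ι] (d : Fin m → ℕ) (w : Fin m → ℝ)
    (hw : ∀ j, 0 ≤ w j) (θ : ℝ) (P : MvPolynomial (Fin m × ι) ℚ) (hP0 : P ≠ 0)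
    (hP : P ∈ ZP (Fin m × ι)) (hhom : MHom d P) (Z : Fin m → Matrix ι ι ℚ)
    (hZ : ∀ j, (Z j).det ≠ 0) (τ0 : Fin m → ι)
    (hvan : ∀ a ∈ (subst (fun j => (Z j)ᵀ) P).support, θ ≤ ∑ j, (a (j, τ0 j) : ℝ) * w j)
    (i i' : Fin m → ι) (hne : ∀ j, i j ≠ i' j) (hω : ∀ j, (Z j)⁻¹ (i j) (τ0 j) ≠ 0) :
    ∃ P' : MvPolynomial (Fin m) ℚ, P' ≠ 0 ∧ P' ∈ ZP (Fin m) ∧ (∀ j, P'.degreeOf j ≤ d j) ∧
      l1 P' ≤ l1 P ∧
      Van (fun j => -(Z j)⁻¹ (i' j) (τ0 j) / (Z j)⁻¹ (i j) (τ0 j)) w θ P' := by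
  classical
  set ω : Fin m → ι → ℚ := fun j k => (Z j)⁻¹ k (τ0 j) with hωdef
  set ξ : Fin m → ℚ := fun j => -ω j (i' j) / ω j (i j) with hξ
  have hne0 : (P.support.image (lines_be i i')).Nonempty :=
    (support_nonempty.mpr hP0).image _
  obtain ⟨κ, hκ⟩ := Finset.exists_minimal hne0
  obtain ⟨J0, hJ0, hJ0κ⟩ := Finset.mem_image.mp hκ.1
  have hmin : ∀ J ∈ P.support, lines_be i i' J ≤ κ → lines_be i i' J = κ := fun J hJ h =>
    le_antisymm h (hκ.2 (Finset.mem_image_of_mem _ hJ) h)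
  refine ⟨∑ J ∈ P.support.filter (fun J => lines_be i i' J = κ),
    monomial (lines_al i J) (coeff J P), ?_, ?_, ?_, ?_, ?_⟩
  · intro h0
    have h1 := congrArg (coeff (lines_al i J0)) h0
    rw [coeff_sum, coeff_zero, Finset.sum_eq_single J0] at h1
    · rw [coeff_monomial, if_pos rfl] at h1
      exact mem_support_iff.mp hJ0 h1
    · intro J hJ hJne
      rw [coeff_monomial, if_neg]
      intro ha
      obtain ⟨hJ1, hJ2⟩ := Finset.mem_filter.mp hJ
      exact hJne (lines_inj i i' d (hhom J hJ1) (hhom J0 hJ0) ha (hJ2.trans hJ0κ.symm))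
    · intro h
      exact absurd (Finset.mem_filter.mpr ⟨hJ0, hJ0κ⟩) h
  · refine Subring.sum_mem _ fun J _ => ?_
    obtain ⟨z, hz⟩ := mem_ZP_iff.mp hP J
    rw [hz]
    exact monomial_mem_ZP _ _
  · intro j
    rw [degreeOf_le_iff]
    intro a ha
    obtain ⟨J, hJ, haJ⟩ := Finset.mem_biUnion.mp (support_sum ha)
    have h1 := Finset.mem_singleton.mp (support_monomial_subset haJ)
    rw [h1, lines_al_apply, ← hhom J (Finset.mem_filter.mp hJ).1 j]
    exact Finset.single_le_sum (f := fun k => J (j, k)) (fun _ _ => Nat.zero_le _)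
      (Finset.mem_univ _)
  · refine (l1_sum_le _ _).trans ?_
    simp only [l1_monomial]
    exact Finset.sum_le_sum_of_subset_of_nonneg (Finset.filter_subset _ _)
      fun _ _ _ => abs_nonneg _
  · have hcoef : coeff κ (lines_phi i i' ω ξ P) = shift ξ
        (∑ J ∈ P.support.filter (fun J => lines_be i i' J = κ),
          monomial (lines_al i J) (coeff J P)) := by
      conv_lhs => rw [P.as_sum]
      rw [map_sum, coeff_sum, map_sum, Finset.sum_filter]
      refine Finset.sum_congr rfl fun J hJ => ?_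
      rw [lines_phi_monomial, coeff_mul_monomial']
      by_cases h : lines_be i i' J = κ
      · rw [if_pos h.le, if_pos h, h, tsub_self, mul_one, lines_cc_psi]
      · rw [if_neg h, if_neg fun h' => h (hmin J hJ h')]
    have hPR : P = subst (fun j => ((Z j)ᵀ)⁻¹) (subst (fun j => (Z j)ᵀ) P) := by
      rw [subst_subst]
      have : (fun j => (Z j)ᵀ * ((Z j)ᵀ)⁻¹) = fun _ : Fin m => (1 : Matrix ι ι ℚ) := by
        funext j
        exact Matrix.mul_nonsing_inv _ (by rw [Matrix.det_transpose]; exact (hZ j).isUnit)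
      rw [this, subst_one]
    intro b hb
    change b ∈ (shift ξ _).support at hb
    rw [← hcoef, hPR, (subst (fun j => (Z j)ᵀ) P).as_sum, map_sum, map_sum, coeff_sum] at hb
    obtain ⟨a, ha, hba⟩ := Finset.mem_biUnion.mp (support_sum hb)
    refine (hvan a ha).trans ?_
    have hdvd := lines_dvd ((lines_phi i i' ω ξ).comp (subst (fun j => ((Z j)ᵀ)⁻¹))) τ0
      (fun j => C (X j)) (fun j => by
        rw [AlgHom.comp_apply, subst_X]
        have h1 : ∀ k, ((Z j)ᵀ)⁻¹ (τ0 j) k = ω j k := fun k => by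
          rw [← Matrix.transpose_nonsing_inv]; rfl
        simp only [h1]
        rw [hξ, lines_phi_M i i' hne ω hω j, map_mul]
        exact Dvd.intro_left _ rfl) a (coeff a (subst (fun j => (Z j)ᵀ) P))
    obtain ⟨G, hG⟩ := hdvd
    rw [AlgHom.comp_apply] at hG
    have hmono : (∏ j, (C (X j) : MvPolynomial (Fin m × ι) (MvPolynomial (Fin m) ℚ)) ^ a (j, τ0 j))
        = C (monomial (lines_al τ0 a) 1) := by
      rw [monomial_eq, C_1, one_mul, Finsupp.prod_fintype _ _ (by simp), map_prod]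
      simp [lines_al_apply]
    rw [hG, hmono, coeff_C_mul, mem_support_iff, coeff_monomial_mul'] at hba
    have hle : lines_al τ0 a ≤ b := by
      by_contra h
      exact hba (if_neg h)
    refine Finset.sum_le_sum fun j _ => mul_le_mul_of_nonneg_right ?_ (hw j)
    exact_mod_cast hle j

end Pool.Agent.Lib.Subspace
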