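import Pool.Agent.Lib.Subspace.Defs

/-! Basic facts on `nrm`, `l1`, `ZP`, `subst`. -/

set_option autoImplicit false

open MvPolynomial

namespace Pool.Agent.Lib.Subspace

section nrm
variable {σ τ : Type*} (v : AbsoluteValue ℚ ℝ)

/-- The monomial `ρ ^ a`. -/
noncomputable def mpow (ρ : σ → ℝ) (a : σ →₀ ℕ) : ℝ := a.prod (fun i k => ρ i ^ k)

lemma mpow_nonneg {ρ : σ → ℝ} (hρ : ∀ i, 0 ≤ ρ i) (a : σ →₀ ℕ) : 0 ≤ mpow ρ a :=
  Finset.prod_nonneg fun i _ => pow_nonneg (hρ i) _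

lemma mpow_add (ρ : σ → ℝ) (a b : σ →₀ ℕ) : mpow ρ (a + b) = mpow ρ a * mpow ρ b :=
  Finsupp.prod_add_index' (by simp) (by intro i m n; exact pow_add _ _ _)

@[simp] lemma mpow_zero (ρ : σ → ℝ) : mpow ρ 0 = 1 := by simp [mpow]

lemma mpow_single (ρ : σ → ℝ) (i : σ) (k : ℕ) : mpow ρ (Finsupp.single i k) = ρ i ^ k := by
  simp [mpow]

lemma mpow_fintype [Fintype σ] (ρ : σ → ℝ) (a : σ →₀ ℕ) : mpow ρ a = ∏ i, ρ i ^ a i :=
  Finsupp.prod_fintype _ _ (by simp)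

lemma nrm_def (ρ : σ → ℝ) (f : MvPolynomial σ ℚ) :
    nrm v ρ f = ∑ a ∈ f.support, v (coeff a f) * mpow ρ a := rfl

lemma nrm_eq_sum (ρ : σ → ℝ) (f : MvPolynomial σ ℚ) {s : Finset (σ →₀ ℕ)} (hs : f.support ⊆ s) :
    nrm v ρ f = ∑ a ∈ s, v (coeff a f) * mpow ρ a := by
  rw [nrm_def]
  refine Finset.sum_subset hs fun a _ ha => ?_
  rw [notMem_support_iff.mp ha]; simp

lemma nrm_nonneg {ρ : σ → ℝ} (hρ : ∀ i, 0 ≤ ρ i) (f : MvPolynomial σ ℚ) : 0 ≤ nrm v ρ f :=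
  Finset.sum_nonneg fun a _ => mul_nonneg (v.nonneg _) (mpow_nonneg hρ a)

@[simp] lemma nrm_zero (ρ : σ → ℝ) : nrm v ρ (0 : MvPolynomial σ ℚ) = 0 := by simp [nrm]

lemma coeff_le_nrm {ρ : σ → ℝ} (hρ : ∀ i, 0 ≤ ρ i) (f : MvPolynomial σ ℚ) (a : σ →₀ ℕ) :
    v (coeff a f) * mpow ρ a ≤ nrm v ρ f := by
  by_cases ha : a ∈ f.support
  · rw [nrm_def]
    exact Finset.single_le_sum (f := fun a => v (coeff a f) * mpow ρ a)
      (fun a _ => mul_nonneg (v.nonneg _) (mpow_nonneg hρ a)) ha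
  · rw [notMem_support_iff.mp ha]; simpa using nrm_nonneg v hρ f

lemma nrm_add_le {ρ : σ → ℝ} (hρ : ∀ i, 0 ≤ ρ i) (f g : MvPolynomial σ ℚ) :
    nrm v ρ (f + g) ≤ nrm v ρ f + nrm v ρ g := by
  classical
  rw [nrm_eq_sum v ρ (f + g) (s := f.support ∪ g.support) (support_add),
    nrm_eq_sum v ρ f (s := f.support ∪ g.support) Finset.subset_union_left,
    nrm_eq_sum v ρ g (s := f.support ∪ g.support) Finset.subset_union_right,
    ← Finset.sum_add_distrib]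
  refine Finset.sum_le_sum fun a _ => ?_
  rw [coeff_add, ← add_mul]
  exact mul_le_mul_of_nonneg_right (v.add_le _ _) (mpow_nonneg hρ a)

lemma nrm_monomial (ρ : σ → ℝ) (a : σ →₀ ℕ) (c : ℚ) :
    nrm v ρ (monomial a c) = v c * mpow ρ a := by
  classical
  rw [nrm_eq_sum v ρ _ (s := {a}) (support_monomial_subset)]
  simp

lemma nrm_C (ρ : σ → ℝ) (c : ℚ) : nrm v ρ (C c : MvPolynomial σ ℚ) = v c := by
  rw [← monomial_zero', nrm_monomial]; simp

lemma nrm_one (ρ : σ → ℝ) : nrm v ρ (1 : MvPolynomial σ ℚ) = 1 := by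
  rw [← C_1, nrm_C]; simp

lemma nrm_X (ρ : σ → ℝ) (i : σ) : nrm v ρ (X i : MvPolynomial σ ℚ) = ρ i := by
  rw [X, nrm_monomial, mpow_single]; simp

lemma nrm_neg (ρ : σ → ℝ) (f : MvPolynomial σ ℚ) : nrm v ρ (-f) = nrm v ρ f := by
  simp [nrm_def]

lemma nrm_sum_le {ρ : σ → ℝ} (hρ : ∀ i, 0 ≤ ρ i) {α : Type*} (s : Finset α)
    (f : α → MvPolynomial σ ℚ) : nrm v ρ (∑ i ∈ s, f i) ≤ ∑ i ∈ s, nrm v ρ (f i) := by
  classical
  induction s using Finset.induction_on with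
  | empty => simp
  | insert i s hi ih =>
    rw [Finset.sum_insert hi, Finset.sum_insert hi]
    exact (nrm_add_le v hρ _ _).trans (by linarith)

lemma nrm_mul_le {ρ : σ → ℝ} (hρ : ∀ i, 0 ≤ ρ i) (f g : MvPolynomial σ ℚ) :
    nrm v ρ (f * g) ≤ nrm v ρ f * nrm v ρ g := by
  have h : f * g = ∑ a ∈ f.support, ∑ b ∈ g.support,
      monomial (a + b) (coeff a f * coeff b g) := by
    conv_lhs => rw [f.as_sum, g.as_sum]
    rw [Finset.sum_mul_sum]
    simp only [monomial_mul]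
  rw [h, nrm_def v ρ f, nrm_def v ρ g, Finset.sum_mul_sum]
  refine (nrm_sum_le v hρ _ _).trans (Finset.sum_le_sum fun a _ => ?_)
  refine (nrm_sum_le v hρ _ _).trans (Finset.sum_le_sum fun b _ => ?_)
  rw [nrm_monomial, mpow_add, map_mul]
  exact le_of_eq (by ring)

lemma nrm_prod_le {ρ : σ → ℝ} (hρ : ∀ i, 0 ≤ ρ i) {α : Type*} (s : Finset α)
    (f : α → MvPolynomial σ ℚ) : nrm v ρ (∏ i ∈ s, f i) ≤ ∏ i ∈ s, nrm v ρ (f i) := by
  classical
  induction s using Finset.induction_on with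
  | empty => simp [nrm_one]
  | insert i s hi ih =>
    rw [Finset.prod_insert hi, Finset.prod_insert hi]
    exact (nrm_mul_le v hρ _ _).trans (mul_le_mul_of_nonneg_left ih (nrm_nonneg v hρ _))

lemma nrm_pow_le {ρ : σ → ℝ} (hρ : ∀ i, 0 ≤ ρ i) (f : MvPolynomial σ ℚ) (k : ℕ) :
    nrm v ρ (f ^ k) ≤ nrm v ρ f ^ k := by
  induction k with
  | zero => simp [nrm_one]
  | succ k ih =>
    rw [pow_succ, pow_succ]
    exact (nrm_mul_le v hρ _ _).trans (mul_le_mul_of_nonneg_right ih (nrm_nonneg v hρ _))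

lemma nrm_C_mul (ρ : σ → ℝ) (c : ℚ) (f : MvPolynomial σ ℚ) :
    nrm v ρ (C c * f) = v c * nrm v ρ f := by
  rw [nrm_eq_sum v ρ (C c * f) (s := f.support), nrm_def, Finset.mul_sum]
  · refine Finset.sum_congr rfl fun a _ => ?_
    rw [coeff_C_mul, map_mul, mul_assoc]
  · intro a ha
    rw [mem_support_iff, coeff_C_mul] at ha
    exact mem_support_iff.mpr (right_ne_zero_of_mul ha)

/-- Substitution does not increase the norm if the substituted polynomials lie in the polydisc. -/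
lemma nrm_aeval_le {ρ : σ → ℝ} {ρ' : τ → ℝ} (hρ' : ∀ i, 0 ≤ ρ' i) (g : σ → MvPolynomial τ ℚ)
    (hg : ∀ i, nrm v ρ' (g i) ≤ ρ i) (f : MvPolynomial σ ℚ) :
    nrm v ρ' (aeval g f) ≤ nrm v ρ f := by
  conv_lhs => rw [f.as_sum]
  rw [map_sum, nrm_def v ρ f]
  refine (nrm_sum_le v hρ' _ _).trans (Finset.sum_le_sum fun a _ => ?_)
  rw [aeval_monomial, algebraMap_eq, nrm_C_mul]
  refine mul_le_mul_of_nonneg_left ?_ (v.nonneg _)
  refine (nrm_prod_le v hρ' _ _).trans ?_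
  refine Finset.prod_le_prod (fun i _ => nrm_nonneg v hρ' _) fun i _ => ?_
  exact (nrm_pow_le v hρ' _ _).trans (pow_le_pow_left₀ (nrm_nonneg v hρ' _) (hg i) _)

lemma arch_apply (r : ℚ) : arch r = |(r : ℝ)| := by
  simp [arch]

lemma l1_eq_nrm (f : MvPolynomial σ ℚ) : l1 f = nrm arch (fun _ => 1) f := by
  simp [l1, nrm, arch_apply, Finsupp.prod]

lemma l1_nonneg (f : MvPolynomial σ ℚ) : 0 ≤ l1 f :=
  Finset.sum_nonneg fun _ _ => abs_nonneg _

lemma coeff_le_l1 (f : MvPolynomial σ ℚ) (a : σ →₀ ℕ) : |((coeff a f : ℚ) : ℝ)| ≤ l1 f := by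
  have := coeff_le_nrm arch (ρ := fun _ : σ => (1 : ℝ)) (fun _ => zero_le_one) f a
  rw [← l1_eq_nrm, arch_apply] at this
  simpa [mpow, Finsupp.prod] using this

lemma l1_eq_sum (f : MvPolynomial σ ℚ) {s : Finset (σ →₀ ℕ)} (hs : f.support ⊆ s) :
    l1 f = ∑ a ∈ s, |((coeff a f : ℚ) : ℝ)| := by
  refine Finset.sum_subset hs fun a _ ha => ?_
  rw [notMem_support_iff.mp ha]; simp

lemma l1_mul_le (f g : MvPolynomial σ ℚ) : l1 (f * g) ≤ l1 f * l1 g := by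
  simp only [l1_eq_nrm]; exact nrm_mul_le _ (fun _ => zero_le_one) _ _

lemma l1_sum_le {α : Type*} (s : Finset α) (f : α → MvPolynomial σ ℚ) :
    l1 (∑ i ∈ s, f i) ≤ ∑ i ∈ s, l1 (f i) := by
  simp only [l1_eq_nrm]; exact nrm_sum_le _ (fun _ => zero_le_one) _ _

lemma l1_prod_le {α : Type*} (s : Finset α) (f : α → MvPolynomial σ ℚ) :
    l1 (∏ i ∈ s, f i) ≤ ∏ i ∈ s, l1 (f i) := by
  simp only [l1_eq_nrm]; exact nrm_prod_le _ (fun _ => zero_le_one) _ _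

lemma l1_monomial (a : σ →₀ ℕ) (c : ℚ) : l1 (monomial a c) = |(c : ℝ)| := by
  rw [l1_eq_nrm, nrm_monomial, arch_apply]; simp [mpow, Finsupp.prod]

lemma l1_C_mul (c : ℚ) (f : MvPolynomial σ ℚ) : l1 (C c * f) = |(c : ℝ)| * l1 f := by
  simp only [l1_eq_nrm]; rw [nrm_C_mul, arch_apply]

/-- Every absolute value on the rationals is at most the usual one on integers. -/
lemma v_int_le (z : ℤ) : v (z : ℚ) ≤ |(z : ℝ)| := by
  have h1 : v (z : ℚ) = v ((z.natAbs : ℕ) : ℚ) := (v.apply_natAbs_eq z).symm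
  rw [h1]
  refine (v.apply_nat_le_self _).trans (le_of_eq ?_)
  simp

end nrm

section ZP
variable {σ τ : Type*}

lemma mem_ZP_iff {f : MvPolynomial σ ℚ} : f ∈ ZP σ ↔ ∀ a, ∃ z : ℤ, coeff a f = z := by
  classical
  constructor
  · rintro ⟨g, rfl⟩ a
    exact ⟨coeff a g, by simp [coeff_map]⟩
  · intro h
    choose z hz using h
    refine ⟨∑ a ∈ f.support, monomial a (z a), ?_⟩
    conv_rhs => rw [f.as_sum]
    rw [map_sum]
    refine Finset.sum_congr rfl fun a _ => ?_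
    rw [map_monomial, hz]; simp

lemma monomial_mem_ZP (a : σ →₀ ℕ) (z : ℤ) : (monomial a (z : ℚ) : MvPolynomial σ ℚ) ∈ ZP σ :=
  ⟨monomial a z, by simp [map_monomial]⟩

lemma C_mem_ZP (z : ℤ) : (C (z : ℚ) : MvPolynomial σ ℚ) ∈ ZP σ := ⟨C z, by simp⟩

lemma X_mem_ZP (i : σ) : (X i : MvPolynomial σ ℚ) ∈ ZP σ := ⟨X i, by simp⟩

lemma aeval_mem_ZP (g : σ → MvPolynomial τ ℚ) (hg : ∀ i, g i ∈ ZP τ) {f : MvPolynomial σ ℚ}
    (hf : f ∈ ZP σ) : aeval g f ∈ ZP τ := by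
  rw [mem_ZP_iff] at hf
  rw [f.as_sum, map_sum]
  refine Subring.sum_mem _ fun a _ => ?_
  obtain ⟨z, hz⟩ := hf a
  rw [aeval_monomial, hz, algebraMap_eq]
  exact Subring.mul_mem _ (C_mem_ZP z)
    (Subring.prod_mem _ fun i _ => Subring.pow_mem _ (hg i) _)

lemma det_mem_ZP {n : Type*} [Fintype n] [DecidableEq n] (M : Matrix n n (MvPolynomial σ ℚ))
    (hM : ∀ i j, M i j ∈ ZP σ) : M.det ∈ ZP σ := by
  rw [Matrix.det_apply]
  refine Subring.sum_mem _ fun π _ => ?_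
  rw [Units.smul_def]
  exact zsmul_mem (Subring.prod_mem _ fun i _ => hM _ _) _

lemma one_le_l1 {f : MvPolynomial σ ℚ} (hf : f ∈ ZP σ) (h0 : f ≠ 0) : 1 ≤ l1 f := by
  obtain ⟨a, ha⟩ := exists_coeff_ne_zero h0
  obtain ⟨z, hz⟩ := mem_ZP_iff.mp hf a
  refine le_trans ?_ (coeff_le_l1 f a)
  rw [hz] at ha ⊢
  have : z ≠ 0 := by exact_mod_cast ha
  have h1 : (1 : ℤ) ≤ |z| := Int.one_le_abs this
  have : ((z : ℚ) : ℝ) = (z : ℝ) := by simp
  rw [this]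
  exact_mod_cast h1

lemma nrm_le_l1_mul (v : AbsoluteValue ℚ ℝ) {ρ : σ → ℝ} (hρ : ∀ i, 0 ≤ ρ i)
    {f : MvPolynomial σ ℚ} (hf : f ∈ ZP σ) {T : ℝ} (hT : ∀ a ∈ f.support, mpow ρ a ≤ T) :
    nrm v ρ f ≤ l1 f * T := by
  rw [nrm_def, l1, Finset.sum_mul]
  refine Finset.sum_le_sum fun a ha => ?_
  obtain ⟨z, hz⟩ := mem_ZP_iff.mp hf a
  refine mul_le_mul ?_ (hT a ha) (mpow_nonneg hρ a) (abs_nonneg _)
  rw [hz]
  simpa using v_int_le v z

end ZP

section subst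
variable {μ ι : Type*} [Fintype ι]

lemma subst_X (B : μ → Matrix ι ι ℚ) (x : μ × ι) :
    subst B (X x) = ∑ k, C (B x.1 x.2 k) * X (x.1, k) := by simp [subst]

lemma subst_subst (B B' : μ → Matrix ι ι ℚ) (f : MvPolynomial (μ × ι) ℚ) :
    subst B' (subst B f) = subst (fun j => B j * B' j) f := by
  have : (subst B').comp (subst B) = subst (fun j => B j * B' j) := by
    refine algHom_ext fun x => ?_
    simp only [AlgHom.comp_apply, subst_X, map_sum, map_mul, Matrix.mul_apply, Finset.mul_sum,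
      Finset.sum_mul, algHom_C, algebraMap_eq]
    rw [Finset.sum_comm]
    refine Finset.sum_congr rfl fun k _ => Finset.sum_congr rfl fun l _ => by ring
  exact DFunLike.congr_fun this f

lemma subst_one [DecidableEq ι] (f : MvPolynomial (μ × ι) ℚ) :
    subst (fun _ : μ => (1 : Matrix ι ι ℚ)) f = f := by
  have : subst (fun _ : μ => (1 : Matrix ι ι ℚ)) = AlgHom.id ℚ _ := by
    refine algHom_ext fun x => ?_
    rw [subst_X, Finset.sum_eq_single x.2]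
    · simp
    · intro k _ hk
      rw [Matrix.one_apply_ne (Ne.symm hk)]; simp
    · simp
  rw [this]; rfl

lemma subst_mem_ZP (B : μ → Matrix ι ι ℤ) {f : MvPolynomial (μ × ι) ℚ} (hf : f ∈ ZP (μ × ι)) :
    subst (fun j => toQ (B j)) f ∈ ZP (μ × ι) := by
  refine aeval_mem_ZP _ (fun x => ?_) hf
  exact Subring.sum_mem _ fun k _ => Subring.mul_mem _ (C_mem_ZP _) (X_mem_ZP _)

lemma mpow_of_mhom [Fintype μ] {d : μ → ℕ} {J : μ × ι →₀ ℕ} (hJ : ∀ j, ∑ i, J (j, i) = d j)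
    (r : μ → ℝ) : mpow (fun x : μ × ι => r x.1) J = ∏ j, r j ^ d j := by
  rw [mpow_fintype, Fintype.prod_prod_type]
  refine Finset.prod_congr rfl fun j _ => ?_
  rw [← hJ j, ← Finset.prod_pow_eq_pow_sum]

/-- Scaling the blocks of a multihomogeneous polynomial. -/
lemma subst_smul [Fintype μ] (B : μ → Matrix ι ι ℚ) (c : μ → ℚ) {d : μ → ℕ}
    {f : MvPolynomial (μ × ι) ℚ} (hf : MHom d f) :
    subst (fun j => c j • B j) f = C (∏ j, c j ^ d j) * subst B f := by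
  conv_lhs => rw [f.as_sum]
  conv_rhs => rw [f.as_sum]
  rw [map_sum, map_sum, Finset.mul_sum]
  refine Finset.sum_congr rfl fun J hJ => ?_
  simp only [subst, aeval_monomial]
  rw [Finsupp.prod_fintype _ _ (by simp), Finsupp.prod_fintype _ _ (by simp)]
  have h1 : ∀ x : μ × ι, (∑ k, C ((c x.1 • B x.1) x.2 k) * X (x.1, k) : MvPolynomial (μ × ι) ℚ)
      = C (c x.1) * ∑ k, C (B x.1 x.2 k) * X (x.1, k) := by
    intro x
    rw [Finset.mul_sum]
    refine Finset.sum_congr rfl fun k _ => ?_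
    simp [mul_assoc]
  simp only [h1, mul_pow, Finset.prod_mul_distrib]
  have h2 : (∏ x : μ × ι, (C (c x.1) : MvPolynomial (μ × ι) ℚ) ^ J x) = C (∏ j, c j ^ d j) := by
    rw [Fintype.prod_prod_type, map_prod]
    refine Finset.prod_congr rfl fun j _ => ?_
    rw [← hf J hJ j, map_pow, ← Finset.prod_pow_eq_pow_sum]
  rw [h2]; ring

lemma l1_subst_le [Fintype μ] (B : μ → Matrix ι ι ℚ) (β : μ → ℝ)
    (hB : ∀ j i k, |(B j i k : ℝ)| ≤ β j) {d : μ → ℕ} {f : MvPolynomial (μ × ι) ℚ}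
    (hf : MHom d f) :
    l1 (subst B f) ≤ l1 f * ∏ j, ((Fintype.card ι : ℝ) * β j) ^ d j := by
  rw [l1_eq_nrm]
  refine (nrm_aeval_le arch (ρ := fun x : μ × ι => (Fintype.card ι : ℝ) * β x.1)
    (fun _ => zero_le_one) _ (fun x => ?_) f).trans ?_
  · refine (nrm_sum_le arch (fun _ => zero_le_one) _ _).trans ?_
    refine (Finset.sum_le_sum (g := fun _ => β x.1) fun k _ => ?_).trans (by simp)
    rw [nrm_C_mul, nrm_X, arch_apply, mul_one]
    exact hB _ _ _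
  · rw [nrm_def, l1, Finset.sum_mul]
    refine Finset.sum_le_sum fun J hJ => ?_
    rw [mpow_of_mhom (hf J hJ) (fun j => (Fintype.card ι : ℝ) * β j), arch_apply]

end subst

end Pool.Agent.Lib.Subspace
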