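import Pool.Agent.Lib.Subspace.Hasse

/-! Two ingredients of Roth's lemma.

`one_var`: put `e = ⌈θ / w⌉₊`. Every monomial of `shift ξ V` has degree at least `e`, so in
`ℚ[X]` (use `MvPolynomial.uniqueAlgEquiv ℚ (Fin 1)`) `(X - C (a/b)) ^ e` divides `V`. The integer
polynomial `(C b * X - C a) ^ e` is primitive, so by Gauss
(`Polynomial.IsPrimitive.Int.dvd_iff_map_cast_dvd_map_cast` or via `primPart`) it divides the
integer model `V0` of `V` in `ℤ[X]`. Then `b ^ e` divides the leading coefficient and, if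
`a ≠ 0`, `a ^ e` divides the trailing coefficient (`leadingCoeff_mul`, `trailingCoeff_mul`);
both are nonzero and at most `l1 V`. So `max |a| |b| ^ e ≤ l1 V`.

`decomp`: take a representation `P = ∑ l : Fin k, tens (f l) (g l)` with minimal `k`
(`Nat.find`); one with `k = d0 + 1` exists (group the monomials by the exponent of `X 0`,
`g r = X 0 ^ r`); if `f` or `g` were dependent one could drop a term (`tens` is bilinear);
`k ≠ 0` as `P ≠ 0`. -/

set_option autoImplicit false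

open MvPolynomial

namespace Pool.Agent.Lib.Subspace

lemma rotha_prim {a b : ℤ} (hab : IsCoprime a b) (e : ℕ) :
    ((Polynomial.C b * Polynomial.X + Polynomial.C (-a)) ^ e).IsPrimitive := by
  have h1 : (Polynomial.C b * Polynomial.X + Polynomial.C (-a)).IsPrimitive := by
    intro r hr
    rw [Polynomial.C_dvd_iff_dvd_coeff] at hr
    have h0 := hr 0
    have h1 := hr 1
    simp only [Polynomial.coeff_add, Polynomial.mul_coeff_zero, Polynomial.coeff_X_zero, mul_zero,
      Polynomial.coeff_C_zero, zero_add, dvd_neg, Polynomial.coeff_C_mul, Polynomial.coeff_X_one,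
      mul_one, Polynomial.coeff_C_of_ne_zero one_ne_zero, add_zero] at h0 h1
    exact hab.isUnit_of_dvd' h0 h1
  induction e with
  | zero => simp
  | succ e ih =>
    rw [pow_succ]
    exact ih.mul h1

lemma rotha_coeff {a b : ℤ} (hb : b ≠ 0) (e : ℕ) {p : Polynomial ℤ} (hp : p ≠ 0)
    (h : (Polynomial.C b * Polynomial.X + Polynomial.C (-a)) ^ e ∣ p) :
    ∃ n, (max |a| |b|) ^ e ≤ |p.coeff n| := by
  obtain ⟨q, rfl⟩ := h
  have hq : q ≠ 0 := right_ne_zero_of_mul hp
  rcases le_total |a| |b| with h | h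
  · refine ⟨_, le_of_le_of_eq ?_ (congrArg abs (Polynomial.leadingCoeff_mul _ q)).symm⟩
    rw [max_eq_right h, Polynomial.leadingCoeff_pow, Polynomial.leadingCoeff_linear hb, abs_mul,
      abs_pow]
    exact le_mul_of_one_le_right (by positivity)
      (Int.one_le_abs (Polynomial.leadingCoeff_ne_zero.2 hq))
  · have ha : a ≠ 0 := by
      rintro rfl
      simp [hb] at h
    have h0 : ((Polynomial.C b * Polynomial.X + Polynomial.C (-a)) ^ e).coeff 0 = (-a) ^ e := by
      simp [Polynomial.coeff_zero_eq_eval_zero]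
    refine ⟨_, le_of_le_of_eq ?_ (congrArg abs (Polynomial.trailingCoeff_mul _ q)).symm⟩
    rw [max_eq_left h, Polynomial.trailingCoeff_eq_coeff_zero (by rw [h0]; simp [ha]), h0, abs_mul,
      abs_pow, abs_neg]
    exact le_mul_of_one_le_right (by positivity)
      (Int.one_le_abs (fun h => hq (Polynomial.trailingCoeff_eq_zero.1 h)))

lemma rotha_shift (ξ : ℚ) (V : MvPolynomial (Fin 1) ℚ) :
    uniqueAlgEquiv ℚ (Fin 1) (shift (fun _ => ξ) V) =
      (uniqueAlgEquiv ℚ (Fin 1) V).comp (Polynomial.X + Polynomial.C ξ) := by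
  induction V using MvPolynomial.induction_on with
  | C c => simp [shift]
  | add f g hf hg => simp only [map_add, hf, hg, Polynomial.add_comp]
  | mul_X f n hf =>
    rw [map_mul, map_mul, map_mul, hf, Polynomial.mul_comp]
    simp [shift]

lemma rotha_drop {M N P : Type*} [AddCommGroup M] [AddCommGroup N] [AddCommGroup P] [Module ℚ M]
    [Module ℚ N] [Module ℚ P] (B : M →ₗ[ℚ] N →ₗ[ℚ] P) {k : ℕ} (f : Fin (k + 1) → M)
    (g : Fin (k + 1) → N) (hf : ¬LinearIndependent ℚ f) :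
    ∃ (f' : Fin k → M) (g' : Fin k → N), ∑ l, B (f l) (g l) = ∑ l, B (f' l) (g' l) := by
  obtain ⟨c, hc, i, hi⟩ := Fintype.not_linearIndependent_iff.1 hf
  rw [Fin.sum_univ_succAbove _ i] at hc
  have h1 : f i = ∑ j, (-(c (i.succAbove j) / c i)) • f (i.succAbove j) := by
    have h2 := congrArg (fun x => (c i)⁻¹ • x) (eq_neg_of_add_eq_zero_left hc)
    simp only [smul_smul, inv_mul_cancel₀ hi, one_smul, smul_neg, Finset.smul_sum] at h2
    rw [h2, ← Finset.sum_neg_distrib]
    refine Finset.sum_congr rfl fun j _ => ?_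
    rw [neg_smul, div_eq_inv_mul]
  refine ⟨fun j => f (i.succAbove j),
    fun j => (-(c (i.succAbove j) / c i)) • g i + g (i.succAbove j), ?_⟩
  rw [Fin.sum_univ_succAbove _ i, h1]
  simp only [map_sum, map_smul, map_add, LinearMap.sum_apply, LinearMap.smul_apply,
    Finset.sum_add_distrib]

lemma rotha_min {M N P : Type*} [AddCommGroup M] [AddCommGroup N] [AddCommGroup P] [Module ℚ M]
    [Module ℚ N] [Module ℚ P] (B : M →ₗ[ℚ] N →ₗ[ℚ] P) (k : ℕ) (f : Fin k → M) (g : Fin k → N) :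
    ∃ k' ≤ k, ∃ (f' : Fin k' → M) (g' : Fin k' → N), LinearIndependent ℚ f' ∧
      LinearIndependent ℚ g' ∧ ∑ l, B (f l) (g l) = ∑ l, B (f' l) (g' l) := by
  induction k with
  | zero => exact ⟨0, le_rfl, f, g, linearIndependent_empty_type, linearIndependent_empty_type, rfl⟩
  | succ k ih =>
    by_cases hf : LinearIndependent ℚ f
    · by_cases hg : LinearIndependent ℚ g
      · exact ⟨k + 1, le_rfl, f, g, hf, hg, rfl⟩
      · obtain ⟨g1, f1, h1⟩ := rotha_drop B.flip g f hg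
        obtain ⟨k', hk, f', g', h2, h3, h4⟩ := ih f1 g1
        exact ⟨k', hk.trans k.le_succ, f', g', h2, h3, h1.trans h4⟩
    · obtain ⟨f1, g1, h1⟩ := rotha_drop B f g hf
      obtain ⟨k', hk, f', g', h2, h3, h4⟩ := ih f1 g1
      exact ⟨k', hk.trans k.le_succ, f', g', h2, h3, h1.trans h4⟩

lemma rotha_succ {m : ℕ} (f : MvPolynomial (Fin m) ℚ) :
    finSuccEquiv ℚ m (rename Fin.succ f) = Polynomial.C f := by
  induction f using MvPolynomial.induction_on with
  | C c => simp [finSuccEquiv_apply]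
  | add f g hf hg => simp only [map_add, hf, hg]
  | mul_X f n hf => simp only [map_mul, hf, rename_X, finSuccEquiv_X_succ]

lemma one_var (V : MvPolynomial (Fin 1) ℚ) (hV0 : V ≠ 0) (hV : V ∈ ZP (Fin 1)) (a b : ℤ)
    (hab : IsCoprime a b) (hb : b ≠ 0) (w θ : ℝ) (hw : 0 < w)
    (h : Van (fun _ => (a : ℚ) / b) (fun _ => w) θ V) :
    θ * Real.log (max |(a : ℝ)| |(b : ℝ)|) ≤ w * Real.log (l1 V) := by
  obtain ⟨V0, rfl⟩ := hV
  set V := MvPolynomial.map (Int.castRingHom ℚ) V0 with hV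
  set e := ⌈θ / w⌉₊ with he
  have hc : ∀ n, ((uniqueAlgEquiv ℤ (Fin 1) V0).coeff n : ℚ) =
      coeff (Finsupp.single default n) V := fun n => by
    rw [coeff_uniqueAlgEquiv, hV, coeff_map, eq_intCast]
  have hmap : (uniqueAlgEquiv ℤ (Fin 1) V0).map (Int.castRingHom ℚ) =
      uniqueAlgEquiv ℚ (Fin 1) V := by
    ext n
    rw [Polynomial.coeff_map, coeff_uniqueAlgEquiv ℚ, eq_intCast, hc]
  have h1 : (Polynomial.X - Polynomial.C ((a : ℚ) / b)) ^ e ∣ uniqueAlgEquiv ℚ (Fin 1) V := by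
    rw [Polynomial.X_sub_C_pow_dvd_iff, ← rotha_shift, Polynomial.X_pow_dvd_iff]
    intro d hd
    rw [coeff_uniqueAlgEquiv]
    by_contra h0
    have h2 := h _ (mem_support_iff.2 h0)
    have h3 : wt (fun _ : Fin 1 => w) (Finsupp.single default d) = d * w := by
      simp [wt]
    rw [h3, ← div_le_iff₀ hw, ← Nat.ceil_le] at h2
    omega
  have hbq : (b : ℚ) ≠ 0 := by exact_mod_cast hb
  have h2 : (Polynomial.C b * Polynomial.X + Polynomial.C (-a)) ^ e ∣
      uniqueAlgEquiv ℤ (Fin 1) V0 := by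
    rw [Polynomial.IsPrimitive.Int.dvd_iff_map_cast_dvd_map_cast _ _ (rotha_prim hab e), hmap]
    have e1 : ((Polynomial.C b * Polynomial.X + Polynomial.C (-a)) ^ e).map (Int.castRingHom ℚ) =
        Polynomial.C (b : ℚ) ^ e * (Polynomial.X - Polynomial.C ((a : ℚ) / b)) ^ e := by
      rw [← mul_pow, mul_sub, ← map_mul, mul_div_cancel₀ _ hbq, Polynomial.map_pow,
        Polynomial.map_add, Polynomial.map_mul, Polynomial.map_C, Polynomial.map_C,
        Polynomial.map_X, eq_intCast, eq_intCast, Int.cast_neg, map_neg, sub_eq_add_neg]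
    rw [e1, ((Polynomial.isUnit_C.2 hbq.isUnit).pow e).mul_left_dvd]
    exact h1
  have h0 : uniqueAlgEquiv ℤ (Fin 1) V0 ≠ 0 := by
    rw [map_ne_zero_iff _ (uniqueAlgEquiv ℤ (Fin 1)).injective]
    rintro rfl
    exact hV0 (map_zero _)
  obtain ⟨n, hn⟩ := rotha_coeff hb e h0 h2
  have h3 := coeff_le_l1 V (Finsupp.single default n)
  rw [← hc, Rat.cast_intCast] at h3
  have h4 : (max |(a : ℝ)| |(b : ℝ)|) ^ e ≤ l1 V := le_trans (by exact_mod_cast hn) h3
  have h5 : (1 : ℝ) ≤ max |(a : ℝ)| |(b : ℝ)| :=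
    le_max_of_le_right (by exact_mod_cast Int.one_le_abs hb)
  have h6 := Real.log_le_log (by positivity) h4
  rw [Real.log_pow] at h6
  have h7 : θ ≤ e * w := (div_le_iff₀ hw).1 (Nat.le_ceil _)
  have h8 := Real.log_nonneg h5
  calc θ * Real.log (max |(a : ℝ)| |(b : ℝ)|)
      ≤ (e * w) * Real.log (max |(a : ℝ)| |(b : ℝ)|) := mul_le_mul_of_nonneg_right h7 h8
    _ = w * (e * Real.log (max |(a : ℝ)| |(b : ℝ)|)) := by ring
    _ ≤ _ := mul_le_mul_of_nonneg_left h6 hw.le

lemma decomp {m : ℕ} (P : MvPolynomial (Fin (m + 1)) ℚ) (hP : P ≠ 0) (d0 : ℕ)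
    (hd : P.degreeOf 0 ≤ d0) :
    ∃ k ≤ d0, ∃ (f : Fin (k + 1) → MvPolynomial (Fin m) ℚ)
      (g : Fin (k + 1) → MvPolynomial (Fin 1) ℚ),
      LinearIndependent ℚ f ∧ LinearIndependent ℚ g ∧ P = ∑ l, tens (f l) (g l) := by
  let B : MvPolynomial (Fin m) ℚ →ₗ[ℚ] MvPolynomial (Fin 1) ℚ →ₗ[ℚ]
      MvPolynomial (Fin (m + 1)) ℚ :=
    (LinearMap.mul ℚ _).compl₁₂ (rename Fin.succ).toLinearMap (rename fun _ => 0).toLinearMap
  have hB : ∀ f g, B f g = tens f g := fun f g => rfl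
  have h0 : P = ∑ r : Fin (d0 + 1), B ((finSuccEquiv ℚ m P).coeff r) (X 0 ^ (r : ℕ)) := by
    apply (finSuccEquiv ℚ m).injective
    rw [map_sum]
    simp only [hB, tens, map_mul, map_pow, rotha_succ, rename_X, finSuccEquiv_X_zero,
      Polynomial.C_mul_X_pow_eq_monomial]
    rw [Fin.sum_univ_eq_sum_range
      (fun r => Polynomial.monomial r ((finSuccEquiv ℚ m P).coeff r)) (d0 + 1)]
    exact Polynomial.as_sum_range' _ _ (by rw [natDegree_finSuccEquiv]; omega)
  obtain ⟨k, hk, f, g, hf, hg, h⟩ := rotha_min B (d0 + 1)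
    (fun r => (finSuccEquiv ℚ m P).coeff r) (fun r => X 0 ^ (r : ℕ))
  rw [← h0] at h
  cases k with
  | zero => exact absurd (by simpa using h) hP
  | succ k => exact ⟨k, by omega, f, g, hf, hg, h⟩

end Pool.Agent.Lib.Subspace
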