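import Pool.Agent.Lib.Subspace.Wronsk
import Pool.Agent.Lib.Subspace.RothA

/-! Roth's lemma (qualitative form), smallest degree first.

`wronsk_factor`: from `decomp` and `exists_wronskian` (for `f` and for `g`) get orders `e i`,
`r i`; `U = det (hasse (e i) (f l))`, `V = det (hasse (r i) (g l))`,
`W = det (fun i i' => hasse (cons (r i' 0) (e i)) P)`. By `hasse_tens` the matrix of `W` is
`(rename succ U-matrix) * (rename 0 V-matrix)ᵀ`, so `W = tens U V` (`det_mul`,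
`RingHom.map_det`/`AlgHom.map_det`). `W ∈ ZP` (`det_mem_ZP`), `degreeOf j W ≤ (k+1) d j`,
`l1 W ≤ (k+1)! * (2 ^ (∑ d) * l1 P) ^ (k+1)`. Rescale: `U' = C (coeff r0 V) * U`,
`V' = C (coeff e0 U) * V` with both coefficients nonzero; by `coeff_tens` their coefficients are
coefficients of `W`, so they are integral with `l1 ≤ l1 W` and degrees bounded by those of `W`,
and `tens U' V' = C c * W`. The rows `r i` are pairwise different (else `V = 0`) and at most `k`,
so `i ↦ r i 0` is a bijection onto `range (k+1)`. Entry `(i, i')` has index at least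
`max 0 (θ - r i' 0 / d 0 - s)` where `s` bounds `∑ j, e i j / d (j+1) ≤ k * max (1 / d (j+1))`.

`roth_lemma`: induction on `m`; `m = 0`: a nonzero constant has the monomial `0` of weight
`0 < θ`. Step: let `θ'' = min 1 (θ/4) * (θ/2)`, `σ'` from the induction hypothesis for
`θ''/4`, `σ = min (σ' / (m+3)) (θ'' / (4 (m+3)))`. Apply the hypothesis to `U'` with degrees
`(k+1) d (j+1)` and `Λ' = (k+1)(m+3) Λ`; weights scale by `1/(k+1)`, so `U'` has index less
than `(k+1) θ''/4` for the weights `1 / d (j+1)`. By `one_var` the index of `V'` is less than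
`(k+1) θ''/2` (note `1 ≤ Λ`, so the logarithms of the heights are positive). On the other hand
`∑ r ∈ range (k+1), max 0 (θ - r / d0 - σ) ≥ (k+1) (θ'' - σ)`, since at least
`min 1 (θ/4) (k+1)` values of `r ≤ k ≤ d0` have `r ≤ θ d0 / 2`. Contradiction with
`not_van_tens`. -/

set_option autoImplicit false

open MvPolynomial

namespace Pool.Agent.Lib.Subspace

lemma roth_det_tens {m : ℕ} {n : Type*} [Fintype n] [DecidableEq n]
    (A : Matrix n n (MvPolynomial (Fin m) ℚ)) (B : Matrix n n (MvPolynomial (Fin 1) ℚ)) :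
    (Matrix.of fun i i' => ∑ l, tens (A i l) (B i' l)).det = tens A.det B.det := by
  have h : (Matrix.of fun i i' => ∑ l, tens (A i l) (B i' l)) =
      (rename (R := ℚ) (Fin.succ : Fin m → Fin (m + 1))).mapMatrix A *
        ((rename (R := ℚ) (fun _ : Fin 1 => (0 : Fin (m + 1)))).mapMatrix B).transpose := by
    refine Matrix.ext fun i i' => ?_
    simp [Matrix.mul_apply, tens]
  rw [h, Matrix.det_mul, Matrix.det_transpose, ← AlgHom.map_det, ← AlgHom.map_det, tens]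

lemma roth_degreeOf_det {σ n : Type*} [Fintype n] [DecidableEq n]
    (M : Matrix n n (MvPolynomial σ ℚ)) (j : σ) (D : ℕ) (h : ∀ i l, (M i l).degreeOf j ≤ D) :
    M.det.degreeOf j ≤ Fintype.card n * D := by
  rw [Matrix.det_apply]
  refine (degreeOf_sum_le _ _ _).trans (Finset.sup_le fun π _ => ?_)
  have h1 : (∏ i, M (π i) i).degreeOf j ≤ Fintype.card n * D := by
    refine (degreeOf_prod_le _ _ _).trans ?_
    refine (Finset.sum_le_sum fun i _ => h (π i) i).trans (by simp)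
  rcases Int.units_eq_one_or (Equiv.Perm.sign π) with hs | hs
  · rw [hs, one_smul]; exact h1
  · rw [hs, Units.neg_smul, one_smul, degreeOf_neg]; exact h1

lemma roth_l1_det {σ n : Type*} [Fintype n] [DecidableEq n]
    (M : Matrix n n (MvPolynomial σ ℚ)) (T : ℝ) (h : ∀ i l, l1 (M i l) ≤ T) :
    l1 M.det ≤ (Fintype.card n).factorial * T ^ Fintype.card n := by
  rw [Matrix.det_apply]
  refine (l1_sum_le _ _).trans ?_
  have h2 : ∀ π : Equiv.Perm n,
      l1 (Equiv.Perm.sign π • ∏ i, M (π i) i) ≤ T ^ Fintype.card n := by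
    intro π
    have h1 : l1 (∏ i, M (π i) i) ≤ T ^ Fintype.card n := by
      refine (l1_prod_le _ _).trans ?_
      refine (Finset.prod_le_prod (fun i _ => l1_nonneg _) fun i _ => h (π i) i).trans (by simp)
    rcases Int.units_eq_one_or (Equiv.Perm.sign π) with hs | hs
    · rw [hs, one_smul]; exact h1
    · rw [hs, Units.neg_smul, one_smul, l1_eq_nrm, nrm_neg, ← l1_eq_nrm]; exact h1
  refine (Finset.sum_le_sum fun π _ => h2 π).trans ?_
  simp [Fintype.card_perm]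

lemma roth_l1_le_of_inj {σ τ : Type*} (f : MvPolynomial σ ℚ) (g : MvPolynomial τ ℚ)
    (φ : (σ →₀ ℕ) → (τ →₀ ℕ)) (hφ : Function.Injective φ)
    (h : ∀ a, coeff a f = coeff (φ a) g) : l1 f ≤ l1 g := by
  classical
  have h1 : l1 f = ∑ b ∈ f.support.image φ, |((coeff b g : ℚ) : ℝ)| := by
    rw [Finset.sum_image fun a _ b _ hab => hφ hab, l1]
    exact Finset.sum_congr rfl fun a _ => by rw [h]
  rw [h1, l1]
  refine Finset.sum_le_sum_of_subset_of_nonneg ?_ fun _ _ _ => abs_nonneg _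
  intro b hb
  obtain ⟨a, ha, rfl⟩ := Finset.mem_image.mp hb
  rw [mem_support_iff] at ha ⊢
  rwa [← h]

lemma roth_tens_C_mul {m : ℕ} (c c' : ℚ) (f : MvPolynomial (Fin m) ℚ)
    (g : MvPolynomial (Fin 1) ℚ) :
    tens (C c * f) (C c' * g) = C (c * c') * tens f g := by
  simp only [tens, map_mul, rename_C]
  ring

lemma roth_wt_cons {m : ℕ} (w : Fin (m + 1) → ℝ) (x : ℕ) (e : Fin m →₀ ℕ) :
    wt w (Finsupp.cons x e) = x * w 0 + ∑ j, (e j : ℝ) * w j.succ := by
  simp [wt, Fin.sum_univ_succ]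

lemma wronsk_factor {m : ℕ} (P : MvPolynomial (Fin (m + 1)) ℚ) (hP0 : P ≠ 0)
    (hP : P ∈ ZP (Fin (m + 1))) (d : Fin (m + 1) → ℕ) (hd1 : ∀ j, 1 ≤ d j)
    (hd : ∀ j, P.degreeOf j ≤ d j) (ξ : Fin (m + 1) → ℚ) (θ s : ℝ) (hs : 0 ≤ s)
    (hds : ∀ j : Fin m, (d 0 : ℝ) ≤ s * d j.succ)
    (hvan : Van ξ (fun j => 1 / (d j : ℝ)) θ P) :
    ∃ k ≤ d 0, ∃ (U : MvPolynomial (Fin m) ℚ) (V : MvPolynomial (Fin 1) ℚ),
      U ≠ 0 ∧ V ≠ 0 ∧ U ∈ ZP (Fin m) ∧ V ∈ ZP (Fin 1) ∧
      (∀ j, U.degreeOf j ≤ (k + 1) * d j.succ) ∧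
      l1 U ≤ (k + 1).factorial * (2 ^ (∑ j, d j) * l1 P) ^ (k + 1) ∧
      l1 V ≤ (k + 1).factorial * (2 ^ (∑ j, d j) * l1 P) ^ (k + 1) ∧
      Van ξ (fun j => 1 / (d j : ℝ))
        (∑ r ∈ Finset.range (k + 1), max 0 (θ - (r : ℝ) / d 0 - s)) (tens U V) := by
  classical
  obtain ⟨k, hk, f, g, hf, hg, hPs⟩ := decomp P hP0 (d 0) (hd 0)
  obtain ⟨e, he, hU⟩ := exists_wronskian k f hf
  obtain ⟨r, hr, hV⟩ := exists_wronskian k g hg
  set U0 := (Matrix.of fun i l => hasse (e i) (f l)).det with hU0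
  set V0 := (Matrix.of fun i l => hasse (r i) (g l)).det with hV0
  set M : Matrix (Fin (k + 1)) (Fin (k + 1)) (MvPolynomial (Fin (m + 1)) ℚ) :=
    Matrix.of fun i i' => hasse (Finsupp.cons (r i' 0) (e i)) P with hM
  have hW : M.det = tens U0 V0 := by
    rw [hU0, hV0, ← roth_det_tens]
    congr 1
    refine Matrix.ext fun i i' => ?_
    simp only [hM, Matrix.of_apply]
    rw [hPs, hasse_sum]
    exact Finset.sum_congr rfl fun l _ => hasse_tens _ _ _ _
  have hWZ : M.det ∈ ZP (Fin (m + 1)) := det_mem_ZP M fun i i' => hasse_mem_ZP _ hP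
  have hWd : ∀ j, M.det.degreeOf j ≤ (k + 1) * d j := by
    intro j
    have := roth_degreeOf_det M j (d j) fun i i' => (degreeOf_hasse_le _ _ _).trans (hd j)
    simpa using this
  have hWl : l1 M.det ≤ (k + 1).factorial * (2 ^ (∑ j, d j) * l1 P) ^ (k + 1) := by
    have := roth_l1_det M (2 ^ (∑ j, d j) * l1 P) fun i i' => l1_hasse_le _ hd
    simpa using this
  obtain ⟨e0, he0⟩ := exists_coeff_ne_zero hU
  obtain ⟨r0, hr0⟩ := exists_coeff_ne_zero hV
  have hcU : ∀ a, coeff a (C (coeff r0 V0) * U0) = coeff (Finsupp.cons (r0 0) a) M.det := by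
    intro a
    rw [hW, coeff_tens, coeff_C_mul, mul_comm]
  have hcV : ∀ a : Fin 1 →₀ ℕ,
      coeff a (C (coeff e0 U0) * V0) = coeff (Finsupp.cons (a 0) e0) M.det := by
    intro a
    rw [hW, coeff_tens, coeff_C_mul]
  have hd0 : (0 : ℝ) < d 0 := by exact_mod_cast hd1 0
  have hrk : ∀ i, r i 0 < k + 1 := by
    intro i
    have := hr i
    simp only [Finset.univ_unique, Finset.sum_singleton, Fin.default_eq_zero] at this
    exact Nat.lt_succ_of_le this
  have hinj : Function.Injective fun i : Fin (k + 1) => (⟨r i 0, hrk i⟩ : Fin (k + 1)) := by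
    intro i i' hii
    by_contra hne
    apply hV
    refine Matrix.det_zero_of_row_eq hne ?_
    have h1 : r i 0 = r i' 0 := by simpa using hii
    have h2 : r i = r i' := Finsupp.ext fun j => by rw [Subsingleton.elim j 0]; exact h1
    funext l
    simp [h2]
  have hsum : ∑ r ∈ Finset.range (k + 1), max 0 (θ - (r : ℝ) / d 0 - s) =
      ∑ i : Fin (k + 1), max 0 (θ - (r i 0 : ℝ) / d 0 - s) := by
    rw [← Fin.sum_univ_eq_sum_range (fun r : ℕ => max 0 (θ - (r : ℝ) / d 0 - s)) (k + 1)]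
    exact ((Finite.injective_iff_bijective.mp hinj).sum_comp
      (fun i : Fin (k + 1) => max 0 (θ - ((i : ℕ) : ℝ) / d 0 - s))).symm
  have hvW : Van ξ (fun j => 1 / (d j : ℝ))
      (∑ i : Fin (k + 1), max 0 (θ - (r i 0 : ℝ) / d 0 - s)) M.det := by
    refine van_det M _ fun i i' => ?_
    rcases le_total (θ - (r i' 0 : ℝ) / d 0 - s) 0 with h0 | h0
    · rw [max_eq_left h0]
      exact van_zero ξ (fun j => by positivity) _
    · rw [max_eq_right h0]
      refine van_mono (van_hasse hvan (Finsupp.cons (r i' 0) (e i))) ?_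
      rw [roth_wt_cons]
      have h1 : ∑ j, (e i j : ℝ) * (1 / (d j.succ : ℝ)) ≤ ∑ j, (e i j : ℝ) * (s / d 0) := by
        refine Finset.sum_le_sum fun j _ => mul_le_mul_of_nonneg_left ?_ (by positivity)
        have hdj : (0 : ℝ) < d j.succ := by exact_mod_cast hd1 j.succ
        rw [div_le_div_iff₀ hdj hd0, one_mul]
        exact hds j
      have h2 : ∑ j, (e i j : ℝ) ≤ d 0 := by exact_mod_cast (he i).trans hk
      rw [← Finset.sum_mul] at h1
      have h3 : (∑ j, (e i j : ℝ)) * (s / d 0) ≤ d 0 * (s / d 0) :=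
        mul_le_mul_of_nonneg_right h2 (by positivity)
      have h4 : (d 0 : ℝ) * (s / d 0) = s := by field_simp
      have h5 : (r i' 0 : ℝ) * (1 / (d 0 : ℝ)) = (r i' 0 : ℝ) / d 0 := by ring
      linarith
  refine ⟨k, hk, C (coeff r0 V0) * U0, C (coeff e0 U0) * V0, ?_, ?_, ?_, ?_, ?_, ?_, ?_, ?_⟩
  · exact mul_ne_zero (by simpa using hr0) hU
  · exact mul_ne_zero (by simpa using he0) hV
  · exact mem_ZP_iff.mpr fun a => by rw [hcU]; exact mem_ZP_iff.mp hWZ _
  · exact mem_ZP_iff.mpr fun a => by rw [hcV]; exact mem_ZP_iff.mp hWZ _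
  · intro j
    rw [degreeOf_le_iff]
    intro a ha
    rw [mem_support_iff, hcU, ← mem_support_iff] at ha
    have := (monomial_le_degreeOf j.succ ha).trans (hWd j.succ)
    simpa using this
  · exact (roth_l1_le_of_inj _ _ _ (Finsupp.cons_right_injective _) hcU).trans hWl
  · refine (roth_l1_le_of_inj _ _ (fun a : Fin 1 →₀ ℕ => Finsupp.cons (a 0) e0) ?_ hcV).trans hWl
    intro a b hab
    have h1 := (Finsupp.cons_injective2 hab).1
    exact Finsupp.ext fun j => by rw [Subsingleton.elim j 0]; exact h1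
  · rw [roth_tens_C_mul, ← hW, hsum]
    exact van_C_mul hvW _

lemma roth_van_scale {σ : Type*} [Fintype σ] {ξ : σ → ℚ} {d : σ → ℕ} {c : ℕ} (hc : 1 ≤ c)
    {τ : ℝ} {f : MvPolynomial σ ℚ} (h : Van ξ (fun j => 1 / (d j : ℝ)) (c * τ) f) :
    Van ξ (fun j => 1 / ((c * d j : ℕ) : ℝ)) τ f := by
  intro a ha
  have h1 := h a ha
  have hc0 : (0 : ℝ) < c := by exact_mod_cast hc
  have h2 : wt (fun j => 1 / (d j : ℝ)) a = c * wt (fun j => 1 / ((c * d j : ℕ) : ℝ)) a := by
    simp only [wt, Finset.mul_sum]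
    refine Finset.sum_congr rfl fun j _ => ?_
    push_cast
    field_simp
  rw [h2] at h1
  exact le_of_mul_le_mul_left h1 hc0

lemma roth_sum_ge (k d0 : ℕ) (hd : 1 ≤ d0) (hk : k ≤ d0) (θ s : ℝ) (hθ : 0 < θ) (hs0 : 0 ≤ s)
    (hs : s ≤ θ / 2) :
    ((k + 1 : ℕ) : ℝ) * (min 1 (θ / 4) * (θ / 2) - s) ≤
      ∑ r ∈ Finset.range (k + 1), max 0 (θ - (r : ℝ) / d0 - s) := by
  have hd0 : (0 : ℝ) < d0 := by exact_mod_cast hd
  set N := min (k + 1) (⌊θ * d0 / 2⌋₊ + 1) with hN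
  have hN1 : min 1 (θ / 4) * ((k + 1 : ℕ) : ℝ) ≤ N := by
    have hk1 : (0 : ℝ) ≤ ((k + 1 : ℕ) : ℝ) := by positivity
    rw [hN, Nat.cast_min]
    refine le_min ?_ ?_
    · exact mul_le_of_le_one_left hk1 (min_le_left _ _)
    · have h1 : ((k + 1 : ℕ) : ℝ) ≤ 2 * d0 := by
        have : k + 1 ≤ 2 * d0 := by omega
        exact_mod_cast this
      have h2 := Nat.lt_floor_add_one (θ * d0 / 2)
      have h3 : min 1 (θ / 4) * ((k + 1 : ℕ) : ℝ) ≤ θ / 4 * (2 * d0) :=
        mul_le_mul (min_le_right _ _) h1 hk1 (by positivity)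
      push_cast at h3 ⊢
      linarith
  have h2 : (N : ℝ) * (θ / 2 - s) ≤ ∑ r ∈ Finset.range N, max 0 (θ - (r : ℝ) / d0 - s) := by
    have h3 : ∑ _r ∈ Finset.range N, (θ / 2 - s) ≤
        ∑ r ∈ Finset.range N, max 0 (θ - (r : ℝ) / d0 - s) := by
      refine Finset.sum_le_sum fun r hr => le_max_of_le_right ?_
      have h4 : r ≤ ⌊θ * d0 / 2⌋₊ := by
        have := Finset.mem_range.mp hr
        omega
      have h5 : (r : ℝ) ≤ θ * d0 / 2 := (Nat.le_floor_iff (by positivity)).mp h4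
      have h6 : (r : ℝ) / d0 ≤ θ / 2 := by
        rw [div_le_iff₀ hd0]; linarith
      linarith
    rwa [Finset.sum_const, Finset.card_range, nsmul_eq_mul] at h3
  have h3 : ∑ r ∈ Finset.range N, max 0 (θ - (r : ℝ) / d0 - s) ≤
      ∑ r ∈ Finset.range (k + 1), max 0 (θ - (r : ℝ) / d0 - s) :=
    Finset.sum_le_sum_of_subset_of_nonneg (Finset.range_mono (min_le_left _ _))
      fun _ _ _ => le_max_left _ _
  have h4 : min 1 (θ / 4) * ((k + 1 : ℕ) : ℝ) * (θ / 2 - s) ≤ N * (θ / 2 - s) :=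
    mul_le_mul_of_nonneg_right hN1 (by linarith)
  have h5 : min 1 (θ / 4) * (((k + 1 : ℕ) : ℝ) * s) ≤ ((k + 1 : ℕ) : ℝ) * s :=
    mul_le_of_le_one_left (by positivity) (min_le_left _ _)
  nlinarith

lemma roth_height_le {m : ℕ} (d : Fin (m + 1) → ℕ) (k : ℕ) (hk : k ≤ d 0) (Λ L : ℝ)
    (hdΛ : ∀ j, (d j : ℝ) ≤ Λ) (hL0 : 0 ≤ L) (hL : L ≤ Real.exp Λ) :
    ((k + 1).factorial : ℝ) * (2 ^ (∑ j, d j) * L) ^ (k + 1) ≤
      Real.exp (((k + 1 : ℕ) : ℝ) * ((m + 3) * Λ)) := by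
  have h1 : ((k + 1).factorial : ℝ) ≤ ((k + 1 : ℕ) : ℝ) ^ (k + 1) := by
    exact_mod_cast Nat.factorial_le_pow (k + 1)
  have h2 : ((k + 1 : ℕ) : ℝ) ≤ Real.exp Λ := by
    have h3 : (k : ℝ) ≤ d 0 := by exact_mod_cast hk
    have h4 := Real.add_one_le_exp Λ
    have := hdΛ 0
    push_cast
    linarith
  have h3 : (2 : ℝ) ^ (∑ j, d j) ≤ Real.exp ((m + 1) * Λ) := by
    have h4 : (2 : ℝ) ≤ Real.exp 1 := by
      have := Real.add_one_le_exp (1 : ℝ)
      linarith
    refine (pow_le_pow_left₀ (by norm_num) h4 _).trans ?_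
    rw [← Real.exp_nat_mul, mul_one]
    refine Real.exp_le_exp.mpr ?_
    push_cast
    refine (Finset.sum_le_sum fun j _ => hdΛ j).trans ?_
    simp
  rw [Real.exp_nat_mul]
  have h5 : Real.exp ((m + 3) * Λ) = Real.exp Λ * (Real.exp ((m + 1) * Λ) * Real.exp Λ) := by
    rw [← Real.exp_add, ← Real.exp_add]; congr 1; ring
  rw [h5, mul_pow (Real.exp Λ)]
  refine mul_le_mul (h1.trans (pow_le_pow_left₀ (by positivity) h2 _)) ?_ (by positivity)
    (by positivity)
  exact pow_le_pow_left₀ (by positivity) (mul_le_mul h3 hL hL0 (by positivity)) _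

theorem roth_lemma (m : ℕ) (θ : ℝ) (hθ : 0 < θ) :
    ∃ σ : ℝ, 0 < σ ∧ σ ≤ 1 ∧ ∀ (d : Fin m → ℕ) (Λ : ℝ) (a b : Fin m → ℤ)
      (P : MvPolynomial (Fin m) ℚ),
      (∀ j, 1 ≤ d j) → (∀ i j, i < j → (d i : ℝ) ≤ σ * d j) → (∀ j, (d j : ℝ) ≤ Λ) →
      (∀ j, IsCoprime (a j) (b j)) → (∀ j, b j ≠ 0) →
      (∀ j, Λ ≤ σ * d j * Real.log (max |(a j : ℝ)| |(b j : ℝ)|)) →
      P ≠ 0 → P ∈ ZP (Fin m) → (∀ j, P.degreeOf j ≤ d j) → l1 P ≤ Real.exp Λ →
      ¬ Van (fun j => (a j : ℚ) / b j) (fun j => 1 / (d j : ℝ)) θ P := by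
  induction m generalizing θ with
  | zero =>
    refine ⟨1, one_pos, le_rfl, ?_⟩
    intro d Λ a b P _ _ _ _ _ _ hP0 _ _ _ hvan
    have hs : shift (fun j => (a j : ℚ) / b j) P = P := by
      rw [eq_C_of_isEmpty P]
      simp [shift]
    obtain ⟨c, hc⟩ := exists_coeff_ne_zero hP0
    have := hvan c (by rw [hs]; exact mem_support_iff.mpr hc)
    simp only [wt, Finset.univ_eq_empty, Finset.sum_empty] at this
    linarith
  | succ m ih =>
    set τ : ℝ := min 1 (θ / 4) * (θ / 2) with hτ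
    have hτ0 : 0 < τ := mul_pos (lt_min one_pos (by positivity)) (by positivity)
    have hτ1 : τ ≤ θ / 2 := mul_le_of_le_one_left (by positivity) (min_le_left _ _)
    obtain ⟨σ', hσ'0, hσ'1, hih⟩ := ih (τ / 4) (by positivity)
    have hm3 : (3 : ℝ) ≤ m + 3 := by
      have : (0 : ℝ) ≤ m := Nat.cast_nonneg m
      linarith
    obtain ⟨σ, hσ0, hσa, hσb⟩ :
        ∃ σ : ℝ, 0 < σ ∧ (m + 3) * σ ≤ σ' ∧ (m + 3) * σ ≤ τ / 4 := by
      refine ⟨min σ' (τ / 4) / (m + 3), by positivity, ?_, ?_⟩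
      · rw [mul_div_cancel₀ _ (by positivity)]; exact min_le_left _ _
      · rw [mul_div_cancel₀ _ (by positivity)]; exact min_le_right _ _
    have hσσ' : σ ≤ σ' := by nlinarith
    have hστ : σ ≤ τ / 4 := by nlinarith
    refine ⟨σ, hσ0, hσσ'.trans hσ'1, ?_⟩
    intro d Λ a b P hd1 hdd hdΛ hab hb hΛ hP0 hP hd hl hvan
    obtain ⟨k, hk, U, V, hU0, hV0, hUZ, hVZ, hUd, hUl, hVl, hvW⟩ :=
      wronsk_factor P hP0 hP d hd1 hd _ θ σ hσ0.le (fun j => hdd 0 j.succ (Fin.succ_pos j)) hvan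
    have hH := roth_height_le d k hk Λ (l1 P) hdΛ (l1_nonneg P) hl
    have hdpos : ∀ j, (1 : ℝ) ≤ d j := fun j => by exact_mod_cast hd1 j
    have hΛ1 : 1 ≤ Λ := (hdpos 0).trans (hdΛ 0)
    have hk1 : (1 : ℝ) ≤ ((k + 1 : ℕ) : ℝ) := by exact_mod_cast Nat.succ_pos k
    have hLpos : ∀ j, 0 < Real.log (max |(a j : ℝ)| |(b j : ℝ)|) := by
      intro j
      have h1 : 0 < σ * d j := mul_pos hσ0 (lt_of_lt_of_le one_pos (hdpos j))
      exact (mul_pos_iff_of_pos_left h1).mp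
        (lt_of_lt_of_le (lt_of_lt_of_le one_pos hΛ1) (hΛ j))
    have hU : ¬ Van (fun j : Fin m => (a j.succ : ℚ) / b j.succ)
        (fun j : Fin m => 1 / (d j.succ : ℝ)) (((k + 1 : ℕ) : ℝ) * (τ / 4)) U := by
      intro hv
      refine hih (fun j => (k + 1) * d j.succ) (((k + 1 : ℕ) : ℝ) * ((m + 3) * Λ))
        (fun j => a j.succ) (fun j => b j.succ) U ?_ ?_ ?_ (fun j => hab _) (fun j => hb _) ?_
        hU0 hUZ hUd (hUl.trans hH) (roth_van_scale (Nat.succ_pos k) hv)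
      · intro j
        exact Nat.mul_pos (Nat.succ_pos k) (hd1 _)
      · intro i j hij
        have h1 := hdd i.succ j.succ (Fin.succ_lt_succ_iff.mpr hij)
        have h2 : σ * d j.succ ≤ σ' * d j.succ :=
          mul_le_mul_of_nonneg_right hσσ' (Nat.cast_nonneg _)
        rw [Nat.cast_mul, Nat.cast_mul, mul_left_comm]
        exact mul_le_mul_of_nonneg_left (h1.trans h2) (by positivity)
      · intro j
        rw [Nat.cast_mul]
        refine mul_le_mul_of_nonneg_left ((hdΛ _).trans ?_) (by positivity)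
        nlinarith
      · intro j
        have h1 := hΛ j.succ
        have h2 := hLpos j.succ
        have h3 := hdpos j.succ
        set L := Real.log (max |(a j.succ : ℝ)| |(b j.succ : ℝ)|)
        have h4 : (m + 3) * Λ ≤ (m + 3) * σ * (d j.succ * L) := by
          have := mul_le_mul_of_nonneg_left h1 (show (0 : ℝ) ≤ m + 3 by positivity)
          linarith
        have h5 : (m + 3) * σ * (d j.succ * L) ≤ σ' * (d j.succ * L) :=
          mul_le_mul_of_nonneg_right hσa (by positivity)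
        have h6 := mul_le_mul_of_nonneg_left (h4.trans h5)
          (show (0 : ℝ) ≤ ((k + 1 : ℕ) : ℝ) by positivity)
        rw [Nat.cast_mul]
        linarith
    have hV : ¬ Van (fun _ : Fin 1 => (a 0 : ℚ) / b 0)
        (fun _ : Fin 1 => 1 / (d 0 : ℝ)) (((k + 1 : ℕ) : ℝ) * (τ / 2)) V := by
      intro hv
      have h3 := hdpos 0
      have h0 := one_var V hV0 hVZ (a 0) (b 0) (hab 0) (hb 0) _ _ (by positivity) hv
      have h1 := hΛ 0
      have h2 := hLpos 0
      set L := Real.log (max |(a 0 : ℝ)| |(b 0 : ℝ)|)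
      have h4 : Real.log (l1 V) ≤ ((k + 1 : ℕ) : ℝ) * ((m + 3) * Λ) := by
        rw [Real.log_le_iff_le_exp (lt_of_lt_of_le one_pos (one_le_l1 hVZ hV0))]
        exact hVl.trans hH
      have h5 : (m + 3) * Λ ≤ (m + 3) * σ * (d 0 * L) := by
        have := mul_le_mul_of_nonneg_left h1 (show (0 : ℝ) ≤ m + 3 by positivity)
        linarith
      have h6 : (m + 3) * σ * (d 0 * L) ≤ τ / 4 * (d 0 * L) :=
        mul_le_mul_of_nonneg_right hσb (by positivity)
      have h7 := mul_le_mul_of_nonneg_left (h5.trans h6)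
        (show (0 : ℝ) ≤ ((k + 1 : ℕ) : ℝ) by positivity)
      have h8 := mul_le_mul_of_nonneg_left (h4.trans h7)
        (show (0 : ℝ) ≤ 1 / (d 0 : ℝ) by positivity)
      have h9 : 1 / (d 0 : ℝ) * (((k + 1 : ℕ) : ℝ) * (τ / 4 * (d 0 * L))) =
          ((k + 1 : ℕ) : ℝ) * (τ / 4) * L := by
        field_simp
      have h10 : 0 < ((k + 1 : ℕ) : ℝ) * τ * L := by positivity
      rw [h9] at h8
      linarith
    have hT := not_van_tens (ξ := fun j => (a j : ℚ) / b j) (w := fun j => 1 / (d j : ℝ)) hU hV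
    refine hT (van_mono hvW ?_)
    refine le_trans ?_ (roth_sum_ge k (d 0) (hd1 0) hk θ σ hθ hσ0.le (by linarith))
    rw [← hτ, ← mul_add]
    exact mul_le_mul_of_nonneg_left (by linarith) (by positivity)

end Pool.Agent.Lib.Subspace
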