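import Pool.Agent.Lib.Subspace.AuxPoly

/-! The auxiliary polynomial vanishes to high order along the hyperplanes.

Plan. `R = subst (toQ (Z j))ᵀ P ∈ ZP`, `P s = subst (toQ (adjugate (A s j))) P ∈ ZP`.
`subst (toQ (A s j) * (toQ (Z j))ᵀ) (P s) = C (Δ s) * R` with `Δ s = ∏ j, det (A s j) ^ d j`
(`subst_subst`, `adjugate_mul`, `subst_smul`). Take radii `ρ' (j,τ) = 1` for `τ ≠ τ0 j` and
`exp (-g j)` for `τ = τ0 j`, `ρ (j,k) = N * exp (γ s j k)`. By `nrm_aeval_le`, `nrm_le_l1_mul`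
(the support of `P s` consists of multihomogeneous exponents: either prove this or bound
`N ^ (∑ J)` directly; `mhom_subst` is in `AuxPoly.lean`, you may import it), `l1_subst_le`, `coeff_le_nrm`,
`nrm_C_mul`:
`v s (Δ s) * v s (coeff a R) * exp (-∑ g j * a (j, τ0 j)) ≤ exp L * ∏ (N β j)^d j * N^(∑ d) *
exp (T s)`. From `PF` for the integer `Δ s` and `v_int_le`: `1 ≤ v s (Δ s) * |Δ s| ^ card S`.
Multiply over `s`, use `PF` for the nonzero integer `coeff a R`, take logarithms. -/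

set_option autoImplicit false

open MvPolynomial Matrix

namespace Pool.Agent.Lib.Subspace

lemma vanish_pf {S : Type*} [Fintype S] (v : S → AbsoluteValue ℚ ℝ) (hv : PF v) (z : ℤ)
    (hz : z ≠ 0) {B : ℝ} (hB : |(z : ℝ)| ≤ B) (s : S) :
    1 ≤ v s (z : ℚ) * B ^ Fintype.card S := by
  classical
  have h1 : (1 : ℝ) ≤ |(z : ℝ)| := by
    rw [← Int.cast_abs]
    exact_mod_cast Int.one_le_abs hz
  have hB1 : 1 ≤ B := h1.trans hB
  have h := hv z hz
  rw [← Finset.mul_prod_erase Finset.univ _ (Finset.mem_univ s)] at h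
  refine h.trans (mul_le_mul_of_nonneg_left ?_ ((v s).nonneg _))
  calc ∏ x ∈ Finset.univ.erase s, v x (z : ℚ) ≤ ∏ _x ∈ Finset.univ.erase s, B :=
        Finset.prod_le_prod (fun i _ => (v i).nonneg _) (fun i _ => (v_int_le (v i) z).trans hB)
    _ = B ^ (Finset.univ.erase s).card := Finset.prod_const _
    _ ≤ B ^ Fintype.card S := pow_le_pow_right₀ hB1 (Finset.card_le_univ _)

lemma vanish_prod_exp {m : ℕ} (d : Fin m → ℕ) (β : Fin m → ℝ) (hβ : ∀ j, 0 < β j) :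
    ∏ j, β j ^ d j = Real.exp (∑ j, (d j : ℝ) * Real.log (β j)) := by
  rw [Real.exp_sum]
  refine Finset.prod_congr rfl fun j _ => ?_
  rw [Real.exp_nat_mul, Real.exp_log (hβ j)]

lemma vanish_toQ_mul {ι : Type*} [Fintype ι] (A B : Matrix ι ι ℤ) :
    toQ (A * B) = toQ A * toQ B := by
  ext i k
  simp [toQ, Matrix.mul_apply]

lemma vanish_comp {m : ℕ} {ι : Type*} [Fintype ι] [DecidableEq ι] (d : Fin m → ℕ)
    (A Z : Fin m → Matrix ι ι ℤ) (P : MvPolynomial (Fin m × ι) ℚ) (hhom : MHom d P) :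
    subst (fun j => toQ (A j) * (toQ (Z j))ᵀ) (subst (fun j => toQ (A j).adjugate) P) =
      C ((∏ j, (A j).det ^ d j : ℤ) : ℚ) * subst (fun j => (toQ (Z j))ᵀ) P := by
  rw [subst_subst]
  have : (fun j => toQ (A j).adjugate * (toQ (A j) * (toQ (Z j))ᵀ)) =
      fun j => (((A j).det : ℤ) : ℚ) • (toQ (Z j))ᵀ := by
    funext j
    rw [← Matrix.mul_assoc, ← vanish_toQ_mul, Matrix.adjugate_mul]
    have : toQ ((A j).det • (1 : Matrix ι ι ℤ)) = (((A j).det : ℤ) : ℚ) • (1 : Matrix ι ι ℚ) := by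
      ext i k
      simp only [toQ, Matrix.map_apply, Matrix.smul_apply, Matrix.one_apply, smul_eq_mul]
      split_ifs <;> simp
    rw [this, Matrix.smul_mul, Matrix.one_mul]
  rw [this, subst_smul _ _ hhom]
  push_cast
  rfl

lemma vanish_one {m : ℕ} {ι : Type*} [Fintype ι] [DecidableEq ι] [Nonempty ι]
    (v : AbsoluteValue ℚ ℝ) (d : Fin m → ℕ) (A : Fin m → Matrix ι ι ℤ)
    (β : Fin m → ℝ) (hβ : ∀ j, 1 ≤ β j) (hadj : ∀ j i k, |((A j).adjugate i k : ℝ)| ≤ β j)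
    (Z : Fin m → Matrix ι ι ℤ) (τ0 : Fin m → ι) (γ : Fin m → ι → ℝ) (g : Fin m → ℝ)
    (h1 : ∀ j τ i, τ ≠ τ0 j → v ((∑ k, A j i k * Z j τ k : ℤ) : ℚ) ≤ Real.exp (γ j i))
    (h2 : ∀ j i, v ((∑ k, A j i k * Z j (τ0 j) k : ℤ) : ℚ) ≤ Real.exp (γ j i + g j))
    (P : MvPolynomial (Fin m × ι) ℚ) (hP : P ∈ ZP (Fin m × ι)) (hhom : MHom d P) (L : ℝ)
    (hL : l1 P ≤ Real.exp L) (T : ℝ)
    (hT : ∀ J ∈ (subst (fun j => toQ (A j).adjugate) P).support,
      ∑ j, ∑ i, (J (j, i) : ℝ) * γ j i ≤ T) (a : Fin m × ι →₀ ℕ) :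
    v ((∏ j, (A j).det ^ d j : ℤ) : ℚ) * (v (coeff a (subst (fun j => (toQ (Z j))ᵀ) P)) *
        Real.exp (-∑ j, g j * (a (j, τ0 j) : ℝ))) ≤
      Real.exp (L + ∑ j, (d j : ℝ) * (Real.log (β j) + 2 * Real.log (Fintype.card ι)) + T) := by
  have hN : (0 : ℝ) < Fintype.card ι := by exact_mod_cast Fintype.card_pos
  set ρ' : Fin m × ι → ℝ := fun x => Real.exp (if x.2 = τ0 x.1 then -g x.1 else 0) with hρ'
  set ρ : Fin m × ι → ℝ := fun x => (Fintype.card ι : ℝ) * Real.exp (γ x.1 x.2) with hρ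
  have hρ'0 : ∀ x, 0 ≤ ρ' x := fun x => (Real.exp_pos _).le
  have hρ0 : ∀ x, 0 ≤ ρ x := fun x => mul_nonneg hN.le (Real.exp_pos _).le
  set Q := subst (fun j => toQ (A j).adjugate) P with hQ
  have hQZ : Q ∈ ZP (Fin m × ι) := subst_mem_ZP (fun j => (A j).adjugate) hP
  have hQh : MHom d Q := mhom_subst hhom _
  have e1 : mpow ρ' a = Real.exp (-∑ j, g j * (a (j, τ0 j) : ℝ)) := by
    rw [mpow_fintype, Fintype.prod_prod_type, ← Finset.sum_neg_distrib, Real.exp_sum]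
    refine Finset.prod_congr rfl fun j _ => ?_
    rw [Finset.prod_eq_single (τ0 j)]
    · simp only [hρ', if_true]
      rw [← Real.exp_nat_mul]
      congr 1
      ring
    · intro b _ hb
      simp [hρ', hb]
    · simp
  have b1 : nrm v ρ' (subst (fun j => toQ (A j) * (toQ (Z j))ᵀ) Q) ≤ nrm v ρ Q := by
    refine nrm_aeval_le v hρ'0 _ (fun x => ?_) Q
    refine (nrm_sum_le v hρ'0 _ _).trans ?_
    have : ∀ k ∈ (Finset.univ : Finset ι), nrm v ρ' (C ((toQ (A x.1) * (toQ (Z x.1))ᵀ) x.2 k) *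
        X (x.1, k) : MvPolynomial (Fin m × ι) ℚ) ≤ Real.exp (γ x.1 x.2) := by
      intro k _
      have e : (toQ (A x.1) * (toQ (Z x.1))ᵀ) x.2 k =
          ((∑ l, A x.1 x.2 l * Z x.1 k l : ℤ) : ℚ) := by
        simp [toQ, Matrix.mul_apply]
      rw [nrm_C_mul, nrm_X, e]
      by_cases hk : k = τ0 x.1
      · have := mul_le_mul_of_nonneg_right (h2 x.1 x.2) (Real.exp_pos (-g x.1)).le
        rw [← Real.exp_add, add_neg_cancel_right] at this
        simpa [hρ', hk] using this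
      · simpa [hρ', hk] using h1 x.1 k x.2 hk
    refine (Finset.sum_le_card_nsmul _ _ _ this).trans (le_of_eq ?_)
    simp [hρ]
  have b2 : nrm v ρ Q ≤ l1 Q * (Real.exp (∑ j, (d j : ℝ) * Real.log (Fintype.card ι)) *
      Real.exp T) := by
    refine nrm_le_l1_mul v hρ0 hQZ (fun J hJ => ?_)
    have e2 : mpow ρ J = mpow (fun x : Fin m × ι => (fun _ : Fin m => (Fintype.card ι : ℝ)) x.1) J *
        Real.exp (∑ j, ∑ i, (J (j, i) : ℝ) * γ j i) := by
      rw [mpow_fintype, mpow_fintype, ← Fintype.sum_prod_type (f := fun x : Fin m × ι =>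
        (J x : ℝ) * γ x.1 x.2), Real.exp_sum, ← Finset.prod_mul_distrib]
      refine Finset.prod_congr rfl fun x _ => ?_
      rw [Real.exp_nat_mul, ← mul_pow]
    rw [e2, mpow_of_mhom (hQh J hJ) (fun _ : Fin m => (Fintype.card ι : ℝ)),
      vanish_prod_exp d _ (fun _ => hN)]
    exact mul_le_mul_of_nonneg_left (Real.exp_le_exp.2 (hT J hJ)) (Real.exp_pos _).le
  have b3 : l1 Q ≤ Real.exp L *
      Real.exp (∑ j, (d j : ℝ) * (Real.log (Fintype.card ι) + Real.log (β j))) := by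
    refine (l1_subst_le _ β (fun j i k => by simpa [toQ] using hadj j i k) hhom).trans ?_
    rw [vanish_prod_exp d _ (fun j => mul_pos hN (one_pos.trans_le (hβ j)))]
    have : ∀ j, Real.log ((Fintype.card ι : ℝ) * β j) =
        Real.log (Fintype.card ι) + Real.log (β j) :=
      fun j => Real.log_mul hN.ne' (one_pos.trans_le (hβ j)).ne'
    simp only [this]
    exact mul_le_mul_of_nonneg_right hL (Real.exp_pos _).le
  rw [hQ, vanish_comp d A Z P hhom, nrm_C_mul] at b1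
  calc _ ≤ v ((∏ j, (A j).det ^ d j : ℤ) : ℚ) * nrm v ρ' (subst (fun j => (toQ (Z j))ᵀ) P) := by
        refine mul_le_mul_of_nonneg_left ?_ (v.nonneg _)
        rw [← e1]
        exact coeff_le_nrm v hρ'0 _ a
    _ ≤ nrm v ρ Q := b1
    _ ≤ _ := b2
    _ ≤ _ := mul_le_mul_of_nonneg_right b3 (by positivity)
    _ = _ := by
        rw [← Real.exp_add, ← Real.exp_add, ← Real.exp_add]
        congr 1
        simp only [mul_add, Finset.sum_add_distrib, two_mul]
        ring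

theorem vanish {m : ℕ} {ι S : Type*} [Fintype ι] [DecidableEq ι] [Nonempty ι] [Fintype S]
    (v : S → AbsoluteValue ℚ ℝ) (hv : PF v) (d : Fin m → ℕ) (A : S → Fin m → Matrix ι ι ℤ)
    (β : Fin m → ℝ) (hβ : ∀ j, 1 ≤ β j) (hdet0 : ∀ s j, (A s j).det ≠ 0)
    (hdet : ∀ s j, |((A s j).det : ℝ)| ≤ β j)
    (hadj : ∀ s j i k, |((A s j).adjugate i k : ℝ)| ≤ β j)
    (Z : Fin m → Matrix ι ι ℤ) (τ0 : Fin m → ι) (γ : S → Fin m → ι → ℝ) (g : Fin m → ℝ)
    (h1 : ∀ s j τ i, τ ≠ τ0 j →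
      v s ((∑ k, A s j i k * Z j τ k : ℤ) : ℚ) ≤ Real.exp (γ s j i))
    (h2 : ∀ s j i, v s ((∑ k, A s j i k * Z j (τ0 j) k : ℤ) : ℚ) ≤ Real.exp (γ s j i + g j))
    (P : MvPolynomial (Fin m × ι) ℚ) (hP : P ∈ ZP (Fin m × ι)) (hhom : MHom d P) (L : ℝ)
    (hL : l1 P ≤ Real.exp L) (T : S → ℝ)
    (hT : ∀ s, ∀ J ∈ (subst (fun j => toQ (A s j).adjugate) P).support,
      ∑ j, ∑ i, (J (j, i) : ℝ) * γ s j i ≤ T s) :
    ∀ a ∈ (subst (fun j => (toQ (Z j))ᵀ) P).support,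
      0 ≤ ∑ s, T s + (Fintype.card S : ℝ) *
        (L + ∑ j, (d j : ℝ) * (((Fintype.card S : ℝ) + 1) * Real.log (β j) +
          2 * Real.log (Fintype.card ι)) + ∑ j, g j * (a (j, τ0 j) : ℝ)) := by
  intro a ha
  have hRZ : subst (fun j => (toQ (Z j))ᵀ) P ∈ ZP (Fin m × ι) :=
    subst_mem_ZP (fun j => (Z j)ᵀ) hP
  obtain ⟨c, hc⟩ := mem_ZP_iff.1 hRZ a
  have hc0 : c ≠ 0 := by
    rintro rfl
    exact (mem_support_iff.1 ha) (by simpa using hc)
  set K := L + ∑ j, (d j : ℝ) * (((Fintype.card S : ℝ) + 1) * Real.log (β j) +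
          2 * Real.log (Fintype.card ι)) + ∑ j, g j * (a (j, τ0 j) : ℝ) with hK
  have hβ0 : ∀ j, 0 < β j := fun j => one_pos.trans_le (hβ j)
  have key : ∀ s, v s (c : ℚ) ≤ Real.exp (T s + K) := by
    intro s
    have h := vanish_one (v s) d (A s) β hβ (hadj s) Z τ0 (γ s) g (h1 s) (h2 s) P hP hhom L hL
      (T s) (hT s) a
    rw [hc] at h
    have hz : (∏ j, (A s j).det ^ d j : ℤ) ≠ 0 :=
      Finset.prod_ne_zero_iff.2 fun j _ => pow_ne_zero _ (hdet0 s j)
    have hB : |((∏ j, (A s j).det ^ d j : ℤ) : ℝ)| ≤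
        Real.exp (∑ j, (d j : ℝ) * Real.log (β j)) := by
      rw [← vanish_prod_exp d β hβ0]
      push_cast
      rw [Finset.abs_prod]
      refine Finset.prod_le_prod (fun j _ => abs_nonneg _) (fun j _ => ?_)
      rw [abs_pow]
      exact pow_le_pow_left₀ (abs_nonneg _) (by exact_mod_cast hdet s j) _
    have h3 := vanish_pf v hv _ hz hB s
    rw [← Real.exp_nat_mul] at h3
    set D := v s ((∏ j, (A s j).det ^ d j : ℤ) : ℚ)
    set G := ∑ j, g j * (a (j, τ0 j) : ℝ)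
    set E := (Fintype.card S : ℝ) * ∑ j, (d j : ℝ) * Real.log (β j) with hE
    have hvc : 0 ≤ v s (c : ℚ) := (v s).nonneg _
    calc v s (c : ℚ) ≤ (D * Real.exp E) * v s (c : ℚ) := le_mul_of_one_le_left hvc h3
      _ = D * (v s (c : ℚ) * Real.exp (-G)) * Real.exp (E + G) := by
          have : Real.exp E = Real.exp (-G) * Real.exp (E + G) := by
            rw [← Real.exp_add]
            congr 1
            ring
          rw [this]
          ring
      _ ≤ _ := mul_le_mul_of_nonneg_right h (Real.exp_pos _).le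
      _ = _ := by
          rw [← Real.exp_add]
          congr 1
          simp only [hK, hE, mul_add, add_mul, one_mul, Finset.sum_add_distrib, Finset.mul_sum]
          have : ∀ j, (d j : ℝ) * ((Fintype.card S : ℝ) * Real.log (β j)) =
              (Fintype.card S : ℝ) * ((d j : ℝ) * Real.log (β j)) := fun j => by ring
          simp only [this]
          ring
  have h := (hv c hc0).trans
    (Finset.prod_le_prod (fun s _ => (v s).nonneg _) (fun s _ => key s))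
  rw [← Real.exp_sum, Real.one_le_exp_iff, Finset.sum_add_distrib, Finset.sum_const,
    Finset.card_univ, nsmul_eq_mul] at h
  exact h

end Pool.Agent.Lib.Subspace
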