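import Pool.Agent.Lib.Subspace.Roth
import Pool.Agent.Lib.Subspace.Lines
import Pool.Agent.Lib.Subspace.AuxPoly
import Pool.Agent.Lib.Subspace.Vanish

/-! The penultimate minimum theorem.

`pair_of_height`: let `-ω k / ω i = a k / b k` in lowest terms (`Rat.num`, `Rat.den`);
`c k = - a k * ∏ l ≠ k, b l` is the multiple `r • ω` with `r = (∏ l, b l) / ω i`, and
`|c k| ≤ ∏ l, max |a l| |b l|`; so some factor has logarithm at least `t / N > 0`, and it is not
the factor `l = i` (which is `1`).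

`thmP`: if `ι` or `S` is empty `PData` is impossible (take `m = 1`, `σ = 1`). Let `N`, `s` be the
cardinalities, `m ≥ 1` with `m ≥ 8 s (2C)^2 (4 N s / δ)^2`, `θ = m δ / (8 N s C)`, `σR` from
`roth_lemma m θ`. Given `n`, put `D = n 0` (the largest), `d j = ⌈D / n j⌉₊`, so
`D ≤ d j * n j ≤ 2 D`, `d j ≤ 2 D σ`, `d i ≤ 2 σ d j` for `i < j`. `β j = N! * exp (N σ n j)`
bounds `det` and `adjugate` entries (`Matrix.det_le`; entries of the adjugate are determinants of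
matrices with entries at most `exp (σ n)`), `G = 2 C D`, `ε = D δ / (4 N s)`, `g j = C n j`.
`∑ d j ≤ 2 m D σ`, `∑ d j n j ≤ 2 m D`, hence all error terms are at most `c1 * m D σ` with `c1`
depending on `N`, `s` only. `aux_poly`, then `vanish`: the main term is at most `- m D δ / N`,
`s m ε = m D δ / (4N)`, errors at most `m D δ / (4N)`, so
`s * 2 C D * ∑ a (j,τ0 j) / d j ≥ m D δ / (2N)`, which gives index at least `θ`. Then
`pair_of_height` (an integer multiple `c` of the column `τ0` of `(toQ Z)⁻¹` is annihilated by the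
rows `τ ≠ τ0`), `lines`, and `roth_lemma` with `Λ = c2 * m D σ` give the contradiction when
`2 σ ≤ σR` and `c2 m σ ≤ σR η / N`. -/

set_option autoImplicit false

open MvPolynomial Matrix

namespace Pool.Agent.Lib.Subspace

lemma pair_of_height {ι : Type*} [Fintype ι] (ω : ι → ℚ) (i : ι) (hi : ω i ≠ 0) (t : ℝ)
    (ht : 0 < t)
    (h : ∀ (c : ι → ℤ) (r : ℚ), r ≠ 0 → (∀ k, (c k : ℚ) = r * ω k) →
      ∃ k, Real.exp t < |(c k : ℝ)|) :
    ∃ i', i ≠ i' ∧ ∃ a b : ℤ, IsCoprime a b ∧ b ≠ 0 ∧ -ω i' / ω i = (a : ℚ) / b ∧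
      t / Fintype.card ι ≤ Real.log (max |(a : ℝ)| |(b : ℝ)|) := by
  classical
  let q : ι → ℚ := fun k => -ω k / ω i
  let H : ι → ℝ := fun k => max |((q k).num : ℝ)| |(((q k).den : ℤ) : ℝ)|
  have hden : ∀ k, (((q k).den : ℤ) : ℚ) ≠ 0 := fun k => by
    rw [Int.cast_natCast]
    exact Nat.cast_ne_zero.2 (q k).den_nz
  have hH : ∀ k, 1 ≤ H k := fun k => le_max_of_le_right (by
    rw [Int.cast_natCast, Nat.abs_cast]
    exact Nat.one_le_cast.2 (q k).den_pos)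
  obtain ⟨k, hk⟩ := h (fun k => -(q k).num * ∏ l ∈ Finset.univ.erase k, ((q l).den : ℤ))
    ((∏ l, (((q l).den : ℤ) : ℚ)) / ω i)
    (div_ne_zero (Finset.prod_ne_zero_iff.2 fun l _ => hden l) hi) fun k => by
      rw [← Finset.mul_prod_erase _ _ (Finset.mem_univ k), Int.cast_mul, Int.cast_neg,
        Int.cast_prod, ← Rat.mul_den_eq_num, Int.cast_natCast]
      simp only [q]
      ring
  have h1 : Real.exp t < ∏ l, H l := by
    refine hk.trans_le ?_
    rw [← Finset.mul_prod_erase _ _ (Finset.mem_univ k), Int.cast_mul, abs_mul, Int.cast_neg,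
      abs_neg, Int.cast_prod, Finset.abs_prod]
    exact mul_le_mul (le_max_left _ _)
      (Finset.prod_le_prod (fun _ _ => abs_nonneg _) fun l _ => le_max_right _ _)
      (Finset.prod_nonneg fun _ _ => abs_nonneg _) (zero_le_one.trans (hH k))
  have hN : (0 : ℝ) < Fintype.card ι := Nat.cast_pos.2 (Fintype.card_pos_iff.2 ⟨i⟩)
  have h2 : ∑ _l : ι, t / Fintype.card ι ≤ ∑ l, Real.log (H l) := by
    rw [Finset.sum_const, Finset.card_univ, nsmul_eq_mul, mul_div_cancel₀ _ hN.ne',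
      ← Real.log_prod fun l _ => (zero_lt_one.trans_le (hH l)).ne']
    exact ((Real.lt_log_iff_exp_lt ((Real.exp_pos t).trans h1)).2 h1).le
  obtain ⟨l, -, hl⟩ := Finset.exists_le_of_sum_le ⟨i, Finset.mem_univ i⟩ h2
  refine ⟨l, fun e => ?_, (q l).num, (q l).den, ?_, Int.natCast_ne_zero.2 (q l).den_nz, ?_, hl⟩
  · have h3 : q l = -1 := by
      simp only [q, ← e]
      rw [neg_div, div_self hi]
    have h4 : H l = 1 := by simp [H, h3]
    rw [h4, Real.log_one] at hl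
    exact absurd (div_pos ht hN) (not_lt.2 hl)
  · exact Int.isCoprime_iff_gcd_eq_one.2 (q l).reduced
  · rw [Int.cast_natCast, Rat.num_div_den]

lemma thmp_pair {ι : Type*} [Fintype ι] [DecidableEq ι] (Z : Matrix ι ι ℤ) (hZ : Z.det ≠ 0)
    (τ0 : ι) (t : ℝ) (ht : 0 < t)
    (h : ∀ c : ι → ℤ, c ≠ 0 → (∀ τ, τ ≠ τ0 → ∑ i, c i * Z τ i = 0) →
      ∃ i, Real.exp t < |(c i : ℝ)|) :
    (toQ Z).det ≠ 0 ∧ ∃ i i', i ≠ i' ∧ (toQ Z)⁻¹ i τ0 ≠ 0 ∧ ∃ a b : ℤ, IsCoprime a b ∧ b ≠ 0 ∧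
      -(toQ Z)⁻¹ i' τ0 / (toQ Z)⁻¹ i τ0 = (a : ℚ) / b ∧
      t / Fintype.card ι ≤ Real.log (max |(a : ℝ)| |(b : ℝ)|) := by
  have hd : (toQ Z).det ≠ 0 := by
    rw [toQ, ← Int.cast_det]
    exact Int.cast_ne_zero.2 hZ
  have h1 : ∀ τ, ∑ k, (Z τ k : ℚ) * (toQ Z)⁻¹ k τ0 = (1 : Matrix ι ι ℚ) τ τ0 := fun τ => by
    rw [← Matrix.mul_nonsing_inv _ (IsUnit.mk0 _ hd), Matrix.mul_apply]
    rfl
  obtain ⟨i, -, hi⟩ := Finset.exists_ne_zero_of_sum_ne_zero
    ((h1 τ0).trans_ne (by rw [Matrix.one_apply_eq]; exact one_ne_zero))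
  have hi' := right_ne_zero_of_mul hi
  obtain ⟨i', hne, H⟩ := pair_of_height (fun k => (toQ Z)⁻¹ k τ0) i hi' t ht fun c r hr hc =>
    h c (fun e => mul_ne_zero hr hi' (by rw [← hc, e, Pi.zero_apply, Int.cast_zero]))
      fun τ hτ => by
        have h2 : ((∑ k, c k * Z τ k : ℤ) : ℚ) = r * ∑ k, (Z τ k : ℚ) * (toQ Z)⁻¹ k τ0 := by
          rw [Int.cast_sum, Finset.mul_sum]
          exact Finset.sum_congr rfl fun k _ => by rw [Int.cast_mul, hc]; ring
        rw [h1, Matrix.one_apply_ne hτ, mul_zero] at h2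
        exact Int.cast_eq_zero.1 h2
  exact ⟨hd, i, i', hne, hi', H⟩

lemma thmp_det {ι : Type*} [Fintype ι] [DecidableEq ι] (A : Matrix ι ι ℤ) {x : ℝ} (hx : 1 ≤ x)
    (hA : ∀ i k, |(A i k : ℝ)| ≤ Real.exp x) :
    |(A.det : ℝ)| ≤ Real.exp (((Fintype.card ι).factorial + Fintype.card ι) * x) := by
  have h1 := Matrix.det_le (A := A.map fun z => (z : ℝ)) (abv := AbsoluteValue.abs) hA
  rw [← Int.cast_det, nsmul_eq_mul, ← Real.exp_nat_mul] at h1
  refine h1.trans ?_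
  rw [add_mul, Real.exp_add]
  refine mul_le_mul_of_nonneg_right ?_ (Real.exp_pos _).le
  have h2 := Real.add_one_le_exp (((Fintype.card ι).factorial : ℝ) * x)
  have h3 := le_mul_of_one_le_right (Nat.cast_nonneg (α := ℝ) (Fintype.card ι).factorial) hx
  linarith

lemma thmp_adj {ι : Type*} [Fintype ι] [DecidableEq ι] (A : Matrix ι ι ℤ) {x : ℝ} (hx : 1 ≤ x)
    (hA : ∀ i k, |(A i k : ℝ)| ≤ Real.exp x) (i k : ι) :
    |(A.adjugate i k : ℝ)| ≤ Real.exp (((Fintype.card ι).factorial + Fintype.card ι) * x) := by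
  rw [Matrix.adjugate_apply]
  refine thmp_det _ hx fun a b => ?_
  rw [Matrix.updateRow_apply]
  split_ifs
  · rw [Pi.single_apply]
    split_ifs
    · simpa using zero_le_one.trans hx
    · simpa using (Real.exp_pos x).le
  · exact hA a b

lemma thmp_l1 (N : ℕ) {K x y : ℝ} (hK : 0 ≤ K) (hx : 1 ≤ x) (d : ℕ) (hd : d * x ≤ y) :
    ((4 : ℝ) ^ N * N * Real.exp (K * x)) ^ d ≤ Real.exp ((3 * N + K) * y) := by
  have hN : (0 : ℝ) ≤ N := Nat.cast_nonneg N
  have h1 : (4 : ℝ) ≤ Real.exp 2 := by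
    have := Real.add_one_le_exp 1
    rw [show (2 : ℝ) = 1 + 1 by norm_num, Real.exp_add]
    nlinarith
  have h2 : (4 : ℝ) ^ N ≤ Real.exp (N * 2) := by
    rw [Real.exp_nat_mul]
    exact pow_le_pow_left₀ (by norm_num) h1 N
  have h3 : (N : ℝ) ≤ Real.exp N := by linarith [Real.add_one_le_exp (N : ℝ)]
  have h4 : (4 : ℝ) ^ N * N * Real.exp (K * x) ≤ Real.exp ((3 * N + K) * x) := by
    refine (mul_le_mul_of_nonneg_right (mul_le_mul h2 h3 hN (Real.exp_pos _).le)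
      (Real.exp_pos _).le).trans ?_
    rw [← Real.exp_add, ← Real.exp_add]
    exact Real.exp_le_exp.2 (by nlinarith)
  refine (pow_le_pow_left₀ (by positivity) h4 d).trans ?_
  rw [← Real.exp_nat_mul, mul_left_comm]
  exact Real.exp_le_exp.2 (mul_le_mul_of_nonneg_left hd (by positivity))

lemma thmp_deg {m : ℕ} (n : Fin m → ℝ) (hn : ∀ j, 0 < n j) :
    ∃ (D : ℝ) (d : Fin m → ℕ), (∀ j, n j ≤ D) ∧ (∀ j, D ≤ d j * n j) ∧
      ∀ j, d j * n j ≤ 2 * D := by
  have h1 : ∀ j, n j ≤ ∑ i, n i := fun j =>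
    Finset.single_le_sum (fun i _ => (hn i).le) (Finset.mem_univ j)
  refine ⟨∑ i, n i, fun j => ⌈(∑ i, n i) / n j⌉₊, h1,
    fun j => (div_le_iff₀ (hn j)).1 (Nat.le_ceil _), fun j => ?_⟩
  have h2 := mul_le_mul_of_nonneg_right
    (Nat.ceil_lt_add_one (div_nonneg ((hn j).le.trans (h1 j)) (hn j).le)).le (hn j).le
  rw [add_mul, div_mul_cancel₀ _ (hn j).ne'] at h2
  linarith [h1 j]

lemma thmp_core (ι : Type*) {S : Type*} [Fintype ι] [DecidableEq ι] [Fintype S] [Nonempty ι]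
    [Nonempty S] (v : S → AbsoluteValue ℚ ℝ) (hv : PF v) {C δ η σ σR u N s K : ℝ} (hC : 0 < C)
    (hη : 0 < η) (hσ : 0 < σ) (hu : 0 < u) (hN : N = Fintype.card ι) (hs : s = Fintype.card S)
    (hK : K = (Fintype.card ι).factorial + Fintype.card ι) (hδ : δ = 4 * N * u) {m : ℕ}
    (hm : 0 < m) (hm' : 8 * s * (2 * C) ^ 2 ≤ m * (u / s) ^ 2)
    (hR : ∀ (d : Fin m → ℕ) (Λ : ℝ) (a b : Fin m → ℤ) (P : MvPolynomial (Fin m) ℚ),
      (∀ j, 1 ≤ d j) → (∀ i j, i < j → (d i : ℝ) ≤ σR * d j) → (∀ j, (d j : ℝ) ≤ Λ) →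
      (∀ j, IsCoprime (a j) (b j)) → (∀ j, b j ≠ 0) →
      (∀ j, Λ ≤ σR * d j * Real.log (max |(a j : ℝ)| |(b j : ℝ)|)) →
      P ≠ 0 → P ∈ ZP (Fin m) → (∀ j, P.degreeOf j ≤ d j) → l1 P ≤ Real.exp Λ →
      ¬ Van (fun j => (a j : ℚ) / b j) (fun j => 1 / (d j : ℝ)) (m * u / (s * C)) P)
    (h1 : 2 * σ ≤ σR) (h2 : σ * (2 * s * (5 * N + (s + 2) * K)) ≤ u)
    (h3 : σ * (2 * m * (3 * N + K) * N) ≤ σR * η) (n : Fin m → ℝ) (hn : ∀ j, 1 / σ ≤ n j)
    (hn' : ∀ i j, i < j → n j ≤ σ * n i) : ¬ ∀ j, PData ι v C δ η σ (n j) := by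
  intro H
  choose A Z τ0 γ hA0 hA hZ hγ hγs hv1 hv2 hht using H
  have hN1 : 1 ≤ N := hN ▸ Nat.one_le_cast.2 Fintype.card_pos
  have hs1 : 1 ≤ s := hs ▸ Nat.one_le_cast.2 Fintype.card_pos
  have hm1 : (1 : ℝ) ≤ m := Nat.one_le_cast.2 hm
  have hK0 : 0 ≤ K := by rw [hK]; positivity
  have hn0 : ∀ j, 0 < n j := fun j => (one_div_pos.2 hσ).trans_le (hn j)
  have hx : ∀ j, 1 ≤ σ * n j := fun j => (div_le_iff₀' hσ).1 (hn j)
  obtain ⟨D, d, hD, hd1, hd2⟩ := thmp_deg n hn0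
  have hD0 : 0 < D := (hn0 ⟨0, hm⟩).trans_le (hD _)
  have hd0 : ∀ j, (0 : ℝ) < d j := fun j =>
    (mul_pos_iff_of_pos_right (hn0 j)).1 (hD0.trans_le (hd1 j))
  have hdx : ∀ j, d j * (σ * n j) ≤ 2 * D * σ := fun j => by
    rw [mul_left_comm, mul_comm _ σ]
    exact mul_le_mul_of_nonneg_left (hd2 j) hσ.le
  have hβ : ∀ j, 1 ≤ Real.exp (K * (σ * n j)) := fun j =>
    Real.one_le_exp (mul_nonneg hK0 (zero_le_one.trans (hx j)))
  obtain ⟨P, hP0, hP, hhom, hl1, hT⟩ := aux_poly hm d (fun s j => (A j s).adjugate)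
    (fun j => Real.exp (K * (σ * n j))) hβ
    (fun s j i k => hK ▸ thmp_adj _ (hx j) (hA j s) i k) (fun s j i => γ j s i) (2 * C * D)
    (D * (u / s)) (by positivity)
    (fun s j i => (mul_le_mul_of_nonneg_left (hγ j s i) (hd0 j).le).trans (by
      nlinarith [hd2 j]))
    (by
      rw [← hs]
      nlinarith [mul_le_mul_of_nonneg_left hm' (sq_nonneg D)])
  have hL : l1 P ≤ Real.exp (m * ((3 * N + K) * (2 * D * σ))) := by
    refine hl1.trans ((Finset.prod_le_prod (fun j _ => by positivity) fun j _ =>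
      thmp_l1 _ hK0 (hx j) (d j) (hdx j)).trans_eq ?_)
    rw [Finset.prod_const, Finset.card_univ, Fintype.card_fin, ← Real.exp_nat_mul, hN]
  have hvan := vanish v hv d (fun s j => A j s) (fun j => Real.exp (K * (σ * n j))) hβ
    (fun s j => hA0 j s) (fun s j => hK ▸ thmp_det _ (hx j) (hA j s))
    (fun s j i k => hK ▸ thmp_adj _ (hx j) (hA j s) i k) Z τ0 (fun s j i => γ j s i)
    (fun j => C * n j) (fun s j τ i => hv1 j s τ i) (fun s j i => hv2 j s i) P hP hhom _ hL _ hT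
  choose hdet i i' hne hω a b hab hb hq hlog using fun j =>
    thmp_pair (Z j) (hZ j) (τ0 j) _ (mul_pos hη (hn0 j)) (hht j)
  obtain ⟨P', hP0', hP', hdeg, hl1', hV⟩ := lines d (fun j => 1 / (d j : ℝ))
    (fun j => by positivity) (m * u / (s * C)) P hP0 hP hhom (fun j => toQ (Z j)) hdet τ0
    (fun e he => by
      have g0 := hvan e he
      rw [← hN, ← hs] at g0
      have g1 : ∑ s', (∑ j, (d j : ℝ) * (∑ i, γ j s' i) / N + m * (D * (u / s))) ≤
          -(3 * (m * D * u)) := by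
        have g2 : ∀ j, ∑ s', (d j : ℝ) * (∑ i, γ j s' i) / N ≤ -(4 * (D * u)) := fun j => by
          rw [← Finset.sum_div, ← Finset.mul_sum, div_le_iff₀ (zero_lt_one.trans_le hN1)]
          have g3 := mul_le_mul_of_nonneg_left (hγs j) (hd0 j).le
          have g4 := mul_le_mul_of_nonneg_left (hd1 j) (show 0 ≤ 4 * N * u by positivity)
          rw [hδ] at g3
          linarith
        have g3 := Finset.sum_le_sum fun j (_ : j ∈ Finset.univ) => g2 j
        rw [Finset.sum_const, Finset.card_univ, Fintype.card_fin, nsmul_eq_mul] at g3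
        rw [Finset.sum_add_distrib, Finset.sum_comm, Finset.sum_const, Finset.card_univ,
          nsmul_eq_mul, ← hs, show s * (m * (D * (u / s))) = m * D * u by field_simp]
        linarith
      have g2 : ∑ j, (d j : ℝ) * ((s + 1) * Real.log (Real.exp (K * (σ * n j))) +
          2 * Real.log N) ≤ m * (((s + 1) * K + 2 * N) * (2 * D * σ)) := by
        have g3 : ∀ j, (d j : ℝ) * ((s + 1) * Real.log (Real.exp (K * (σ * n j))) +
            2 * Real.log N) ≤ ((s + 1) * K + 2 * N) * (2 * D * σ) := fun j => by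
          have g4 : Real.log N ≤ N * (σ * n j) :=
            (Real.log_le_self (zero_le_one.trans hN1)).trans
              (le_mul_of_one_le_right (zero_le_one.trans hN1) (hx j))
          have g5 := mul_le_mul_of_nonneg_left g4 (hd0 j).le
          have g6 := mul_le_mul_of_nonneg_left (hdx j)
            (show 0 ≤ (s + 1) * K + 2 * N by positivity)
          rw [Real.log_exp]
          linarith
        have g4 := Finset.sum_le_sum fun j (_ : j ∈ Finset.univ) => g3 j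
        rwa [Finset.sum_const, Finset.card_univ, Fintype.card_fin, nsmul_eq_mul] at g4
      have g3 : ∑ j, C * n j * (e (j, τ0 j) : ℝ) ≤
          2 * D * C * ∑ j, (e (j, τ0 j) : ℝ) * (1 / (d j : ℝ)) := by
        rw [Finset.mul_sum]
        refine Finset.sum_le_sum fun j _ => ?_
        have g4 : n j ≤ 2 * D * (1 / (d j : ℝ)) := by
          rw [mul_one_div, le_div_iff₀' (hd0 j)]
          exact hd2 j
        have g5 := mul_le_mul_of_nonneg_left g4
          (show 0 ≤ C * (e (j, τ0 j) : ℝ) by positivity)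
        linarith
      have g4 := mul_le_mul_of_nonneg_left (add_le_add g2 g3) (zero_le_one.trans hs1)
      have g5 := mul_le_mul_of_nonneg_left h2 (show 0 ≤ m * D by positivity)
      rw [div_le_iff₀ (by positivity)]
      refine le_of_mul_le_mul_left ?_ hD0
      linarith)
    i i' hne hω
  rw [funext hq] at hV
  refine hR d (m * ((3 * N + K) * (2 * D * σ))) a b P' (fun j => Nat.cast_pos.1 (hd0 j))
    (fun i j hij => ?_) (fun j => ?_) hab hb (fun j => ?_) hP0' hP' hdeg (hl1'.trans hL) hV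
  · refine le_of_mul_le_mul_right ?_ (hn0 i)
    have g1 := mul_le_mul_of_nonneg_left (hn' i j hij) (hd0 j).le
    have g2 := mul_le_mul_of_nonneg_right h1 (mul_pos (hd0 j) (hn0 i)).le
    linarith [hd2 i, hd1 j]
  · have g1 := (le_mul_of_one_le_right (hd0 j).le (hx j)).trans (hdx j)
    refine g1.trans ?_
    rw [← mul_assoc]
    exact le_mul_of_one_le_left (by positivity) (by nlinarith)
  · have g0 : 0 ≤ σR := by linarith
    refine le_trans ?_ (mul_le_mul_of_nonneg_left (hlog j) (mul_nonneg g0 (hd0 j).le))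
    rw [← hN, ← mul_div_assoc, le_div_iff₀ (zero_lt_one.trans_le hN1)]
    have g1 := mul_le_mul_of_nonneg_left (hd1 j) (mul_nonneg g0 hη.le)
    have g2 := mul_le_mul_of_nonneg_left h3 hD0.le
    linarith

theorem thmP (ι : Type*) {S : Type*} [Fintype ι] [DecidableEq ι] [Fintype S]
    (v : S → AbsoluteValue ℚ ℝ) (hv : PF v) (C δ η : ℝ) (hC : 0 < C) (hδ : 0 < δ) (hη : 0 < η) :
    ∃ σ : ℝ, 0 < σ ∧ ∃ m : ℕ, ∀ n : Fin m → ℝ, (∀ j, 1 / σ ≤ n j) →
      (∀ i j, i < j → n j ≤ σ * n i) → ¬ ∀ j, PData ι v C δ η σ (n j) := by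
  rcases isEmpty_or_nonempty ι with hι | hι
  · refine ⟨1, one_pos, 1, fun n _ _ H => ?_⟩
    obtain ⟨_, _, τ0, _⟩ := H 0
    exact hι.elim τ0
  rcases isEmpty_or_nonempty S with hS | hS
  · refine ⟨1, one_pos, 1, fun n hn _ H => ?_⟩
    obtain ⟨_, _, _, γ, -, -, -, -, h, -⟩ := H 0
    rw [Finset.univ_eq_empty, Finset.sum_empty] at h
    have h1 := hn 0
    rw [div_one] at h1
    nlinarith
  obtain ⟨N, hN⟩ : ∃ N : ℝ, N = Fintype.card ι := ⟨_, rfl⟩
  obtain ⟨s, hs⟩ : ∃ s : ℝ, s = Fintype.card S := ⟨_, rfl⟩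
  obtain ⟨K, hK⟩ : ∃ K : ℝ, K = (Fintype.card ι).factorial + Fintype.card ι := ⟨_, rfl⟩
  have hN0 : 0 < N := hN ▸ Nat.cast_pos.2 Fintype.card_pos
  have hs0 : 0 < s := hs ▸ Nat.cast_pos.2 Fintype.card_pos
  have hK0 : 0 ≤ K := by rw [hK]; positivity
  obtain ⟨u, hu, hδu⟩ : ∃ u > 0, δ = 4 * N * u := ⟨δ / (4 * N), by positivity, by field_simp⟩
  obtain ⟨m, hm⟩ := exists_nat_gt (8 * s * (2 * C) ^ 2 / (u / s) ^ 2)
  have hm0 : (0 : ℝ) < m := lt_trans (by positivity) hm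
  obtain ⟨σR, hσR, -, hR⟩ := roth_lemma m (m * u / (s * C)) (by positivity)
  refine ⟨min (σR / 2) (min (u / (2 * s * (5 * N + (s + 2) * K)))
    (σR * η / (2 * m * (3 * N + K) * N))), by positivity, m, fun n hn hn' =>
    thmp_core ι v hv hC hη (by positivity) hu hN hs hK hδu (Nat.cast_pos.1 hm0)
      ((div_le_iff₀ (by positivity)).1 hm.le) hR ?_ ?_ ?_ n hn hn'⟩
  · exact (le_div_iff₀' two_pos).1 (min_le_left _ _)
  · exact (le_div_iff₀ (by positivity)).1 ((min_le_right _ _).trans (min_le_left _ _))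
  · exact (le_div_iff₀ (by positivity)).1 ((min_le_right _ _).trans (min_le_right _ _))

end Pool.Agent.Lib.Subspace
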