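import Pool.Agent.Lib.Subspace.Hasse

/-! Generalised Wronskians of linearly independent polynomials.

Plan for `wronsk_span` (leading monomials). Fix a monomial order `m` (for a `Fintype`, transport
a linear order with `LinearOrder.lift'` along `Fintype.equivFin` and use `MonomialOrder.lex`, or
any `MonomialOrder σ`). (1) Echelon form: for any `f : Fin k → MvPolynomial σ ℚ` there are
`k' ≤ k` nonzero polynomials `g a` with pairwise different `m.degree` whose span contains every
`f l` (induction on `k`: in `f_new + span g` take an element of minimal degree, it is zero or has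
a new degree). (2) Write `f l = ∑ a, c l a • g a`, `lam' a = ∑ l, C (c l a) * lam l`; then
`∑ a, lam' a * hasse e (g a) = 0` for `|e| ≤ k`. If all `lam' a = 0`, compare the coefficient of
each monomial: `∑ l, coeff J (lam l) • f l = 0`, so `lam = 0` by independence. (3) Otherwise
multiply by `monomial e 1`: `monomial e 1 * hasse e g = ∑ b ∈ g.support,
monomial b (coeff b g * ∏ j, choose (b j) (e j))` has support inside the support of `g`.
Let `μ` be the maximum of `m.degree (lam' a) + m.degree (g a)` over `lam' a ≠ 0`, `L` the set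
where it is attained. The coefficient at `μ` gives
`∑ a ∈ L, κ a * ∏ j, choose (deg a j) (e j) = 0` for all `|e| ≤ k` with `κ a ≠ 0`
(`MonomialOrder.coeff_mul_of_add_of_degree_le`, `coeff_eq_zero_of_lt`). (4) `interp` below
gives the contradiction.
`interp`: the functions `b ↦ ∏ j, choose (b j) (e j)`, `|e| ≤ r`, span a space `W r` with
`(b j - c) * W r ⊆ W (r+1)` because `b * choose b e = (e+1) * choose b (e+1) + e * choose b e`;
a product of at most `k` linear factors separates one point from at most `k` others.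
`exists_det_ne_zero`: pass to the fraction field, the rows span (otherwise a nonzero functional
kills them; clear denominators), extract a basis from the range. -/

set_option autoImplicit false

open MvPolynomial

namespace Pool.Agent.Lib.Subspace

lemma wronsk_choose (n r : ℕ) :
    (n : ℚ) * (n.choose r : ℚ) = ((r : ℚ) + 1) * (n.choose (r + 1) : ℚ) + r * (n.choose r : ℚ) := by
  rcases le_or_gt r n with h | h
  · have h1 := Nat.choose_succ_right_eq n r
    have h2 : ((n.choose (r + 1) * (r + 1) : ℕ) : ℚ) = ((n.choose r * (n - r) : ℕ) : ℚ) := by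
      rw [h1]
    push_cast [Nat.cast_sub h] at h2
    linarith
  · rw [Nat.choose_eq_zero_of_lt h, Nat.choose_eq_zero_of_lt (Nat.lt_succ_of_lt h)]
    simp

lemma wronsk_prod {σ : Type*} [Fintype σ] (b e : σ →₀ ℕ) (j : σ) :
    (b j : ℚ) * ∏ i, ((b i).choose (e i) : ℚ) =
      ((e j : ℚ) + 1) * ∏ i, ((b i).choose ((e + Finsupp.single j 1 : σ →₀ ℕ) i) : ℚ) +
        (e j : ℚ) * ∏ i, ((b i).choose (e i) : ℚ) := by
  classical
  have h1 := Finset.mul_prod_erase Finset.univ (fun i => ((b i).choose (e i) : ℚ))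
    (Finset.mem_univ j)
  have h2 := Finset.mul_prod_erase Finset.univ
    (fun i => ((b i).choose ((e + Finsupp.single j 1 : σ →₀ ℕ) i) : ℚ)) (Finset.mem_univ j)
  have h3 : ∏ i ∈ Finset.univ.erase j, ((b i).choose ((e + Finsupp.single j 1 : σ →₀ ℕ) i) : ℚ)
      = ∏ i ∈ Finset.univ.erase j, ((b i).choose (e i) : ℚ) := by
    refine Finset.prod_congr rfl fun i hi => ?_
    have : j ≠ i := (Finset.ne_of_mem_erase hi).symm
    simp [Finsupp.single_eq_of_ne' this]
  rw [← h1, ← h2, h3]
  have h4 : (e + Finsupp.single j 1 : σ →₀ ℕ) j = e j + 1 := by simp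
  rw [h4]
  have h5 := wronsk_choose (b j) (e j)
  linear_combination (∏ i ∈ Finset.univ.erase j, ((b i).choose (e i) : ℚ)) * h5

lemma interp {σ : Type*} [Fintype σ] (k : ℕ) (L : Finset (σ →₀ ℕ)) (hL : L.card ≤ k + 1)
    (κ : (σ →₀ ℕ) → ℚ)
    (h : ∀ e : σ →₀ ℕ, ∑ j, e j ≤ k → ∑ b ∈ L, κ b * ∏ j, ((b j).choose (e j) : ℚ) = 0) :
    ∀ b ∈ L, κ b = 0 := by
  classical
  have hsing : ∀ (k : ℕ) (b : σ →₀ ℕ) (κ : (σ →₀ ℕ) → ℚ),
      (∀ e : σ →₀ ℕ, ∑ j, e j ≤ k →
        ∑ x ∈ ({b} : Finset (σ →₀ ℕ)), κ x * ∏ j, ((x j).choose (e j) : ℚ) = 0) → κ b = 0 := by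
    intro k b κ h
    simpa using h 0 (by simp)
  induction k generalizing L κ with
  | zero =>
    intro b hb
    have hLb : L = {b} :=
      Finset.eq_singleton_iff_unique_mem.mpr
        ⟨hb, fun x hx => Finset.card_le_one.mp (by simpa using hL) x hx b hb⟩
    subst hLb
    exact hsing 0 b κ h
  | succ k ih =>
    intro b hb
    by_cases hLb : L = {b}
    · subst hLb
      exact hsing _ b κ h
    · obtain ⟨b', hb', hne⟩ : ∃ b' ∈ L, b' ≠ b := by
        by_contra hcon
        push Not at hcon
        exact hLb (Finset.eq_singleton_iff_unique_mem.mpr ⟨hb, hcon⟩)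
      obtain ⟨j, hj⟩ : ∃ j, b j ≠ b' j := by
        by_contra hcon
        push Not at hcon
        exact hne (Finsupp.ext fun j => (hcon j).symm)
      have hcard : (L.erase b').card ≤ k + 1 := by
        rw [Finset.card_erase_of_mem hb']; omega
      have key := ih (L.erase b') hcard (fun x => κ x * ((x j : ℚ) - b' j)) (by
        intro e he
        rw [Finset.sum_erase _ (by simp)]
        have h1 := h e (by omega)
        have h2 := h (e + Finsupp.single j 1) (by
          simp only [Finsupp.add_apply, Finset.sum_add_distrib]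
          have : ∑ i, (Finsupp.single j 1 : σ →₀ ℕ) i = 1 := by
            simp [Finsupp.single_apply]
          omega)
        have h3 : ∀ x ∈ L, κ x * ((x j : ℚ) - b' j) * ∏ i, ((x i).choose (e i) : ℚ) =
            ((e j : ℚ) + 1) *
              (κ x * ∏ i, ((x i).choose ((e + Finsupp.single j 1 : σ →₀ ℕ) i) : ℚ)) +
            ((e j : ℚ) - b' j) * (κ x * ∏ i, ((x i).choose (e i) : ℚ)) := by
          intro x _
          linear_combination κ x * wronsk_prod x e j
        rw [Finset.sum_congr rfl h3, Finset.sum_add_distrib, ← Finset.mul_sum, ← Finset.mul_sum,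
          h1, h2]
        simp) b (Finset.mem_erase.mpr ⟨hne.symm, hb⟩)
      have hj' : (b j : ℚ) - b' j ≠ 0 := sub_ne_zero.mpr (by exact_mod_cast hj)
      exact (mul_eq_zero.mp key).resolve_right hj'

/-- Nonzero polynomials with pairwise different leading monomials are linearly independent. -/
lemma wronsk_indep {σ ι : Type*} [Fintype ι] (m : MonomialOrder σ) (g : ι → MvPolynomial σ ℚ)
    (h0 : ∀ i, g i ≠ 0) (hinj : Function.Injective fun i => m.degree (g i)) :
    LinearIndependent ℚ g := by
  classical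
  rw [Fintype.linearIndependent_iff]
  intro c hc
  by_contra hcon
  push Not at hcon
  obtain ⟨i0, hi0⟩ := hcon
  obtain ⟨i, hi, hmax⟩ := Finset.exists_max_image (Finset.univ.filter fun i => c i ≠ 0)
    (fun i => m.toSyn (m.degree (g i))) ⟨i0, by simpa using hi0⟩
  have hci : c i ≠ 0 := (Finset.mem_filter.mp hi).2
  have h1 := congrArg (coeff (m.degree (g i))) hc
  rw [coeff_sum, Finset.sum_eq_single i] at h1
  · rw [coeff_smul, smul_eq_mul, coeff_zero] at h1
    exact (mul_ne_zero hci (m.coeff_degree_ne_zero_iff.mpr (h0 i))) h1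
  · intro x _ hx
    by_cases hcx : c x = 0
    · simp [hcx]
    · have hle := hmax x (by simpa using hcx)
      have hlt : m.toSyn (m.degree (g x)) < m.toSyn (m.degree (g i)) :=
        lt_of_le_of_ne hle fun he => hx (hinj (m.toSyn.injective he))
      rw [coeff_smul, m.coeff_eq_zero_of_lt hlt, smul_zero]
  · simp

lemma wronsk_mono_hasse {σ : Type*} [Fintype σ] (e : σ →₀ ℕ) (g : MvPolynomial σ ℚ)
    {B : Finset (σ →₀ ℕ)} (hB : g.support ⊆ B) :
    monomial e 1 * hasse e g =
      ∑ b ∈ B, monomial b (coeff b g * ∏ j, ((b j).choose (e j) : ℚ)) := by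
  have hg : g = ∑ b ∈ B, monomial b (coeff b g) := by
    conv_lhs => rw [g.as_sum]
    refine Finset.sum_subset hB fun b _ hb => ?_
    rw [notMem_support_iff.mp hb]; simp
  conv_lhs => rw [hg]
  rw [hasse_sum, Finset.mul_sum]
  refine Finset.sum_congr rfl fun b _ => ?_
  rw [hasse_monomial, monomial_mul, one_mul]
  by_cases hle : e ≤ b
  · rw [add_tsub_cancel_of_le hle]
  · obtain ⟨j, hj⟩ : ∃ j, b j < e j := by
      by_contra hcon
      push Not at hcon
      exact hle fun j => hcon j
    have : ∏ j, ((b j).choose (e j) : ℚ) = 0 :=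
      Finset.prod_eq_zero (Finset.mem_univ j) (by rw [Nat.choose_eq_zero_of_lt hj]; simp)
    rw [this]; simp

lemma wronsk_order.{u} (σ : Type u) [Fintype σ] : Nonempty (MonomialOrder.{u, u} σ) := by
  classical
  let : LinearOrder σ := LinearOrder.lift' (Fintype.equivFin σ) (Fintype.equivFin σ).injective
  exact ⟨MonomialOrder.lex⟩

lemma wronsk_span {σ : Type*} [Fintype σ] (k : ℕ) (f : Fin (k + 1) → MvPolynomial σ ℚ)
    (hf : LinearIndependent ℚ f) (lam : Fin (k + 1) → MvPolynomial σ ℚ)
    (h : ∀ e : σ →₀ ℕ, ∑ j, e j ≤ k → ∑ l, lam l * hasse e (f l) = 0) : lam = 0 := by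
  classical
  obtain ⟨m⟩ := wronsk_order σ
  by_contra hlam
  set 𝒥 : Finset (σ →₀ ℕ) := Finset.univ.biUnion fun l => (lam l).support with h𝒥
  set F : (σ →₀ ℕ) → MvPolynomial σ ℚ := fun J => ∑ l, C (coeff J (lam l)) * f l with hF
  have hlamsum : ∀ l, lam l = ∑ J ∈ 𝒥, monomial J (coeff J (lam l)) := by
    intro l
    conv_lhs => rw [(lam l).as_sum]
    refine Finset.sum_subset (fun J hJ => Finset.mem_biUnion.mpr ⟨l, Finset.mem_univ l, hJ⟩)
      fun b _ hb => ?_
    rw [notMem_support_iff.mp hb]; simp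
  have hFmem : ∀ J, F J ∈ Submodule.span ℚ (Set.range f) := by
    intro J
    refine Submodule.sum_mem _ fun l _ => ?_
    rw [C_mul']
    exact Submodule.smul_mem _ _ (Submodule.subset_span ⟨l, rfl⟩)
  have hex : (𝒥.filter fun J => F J ≠ 0).Nonempty := by
    obtain ⟨l, hl⟩ : ∃ l, lam l ≠ 0 := by
      by_contra hcon
      push Not at hcon
      exact hlam (funext hcon)
    obtain ⟨J, hJ⟩ := exists_coeff_ne_zero hl
    refine ⟨J, Finset.mem_filter.mpr
      ⟨Finset.mem_biUnion.mpr ⟨l, Finset.mem_univ l, mem_support_iff.mpr hJ⟩, fun h0 => hJ ?_⟩⟩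
    refine Fintype.linearIndependent_iff.mp hf (fun l => coeff J (lam l)) ?_ l
    simpa only [hF, C_mul'] using h0
  obtain ⟨J0, hJ0, hmax⟩ := Finset.exists_max_image _
    (fun J => m.toSyn (J + m.degree (F J))) hex
  obtain ⟨hJ0a, hJ0b⟩ := Finset.mem_filter.mp hJ0
  set μ := J0 + m.degree (F J0) with hμ
  set B : Finset (σ →₀ ℕ) := 𝒥.biUnion fun J => (F J).support with hB
  set κ : (σ →₀ ℕ) → ℚ := fun b => ∑ J ∈ 𝒥, if J + b = μ then coeff b (F J) else 0 with hκ
  set L := B.filter fun b => κ b ≠ 0 with hL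
  have hLdeg : ∀ b ∈ L, ∃ J, F J ≠ 0 ∧ m.degree (F J) = b := by
    intro b hb
    obtain ⟨J, hJ, hJ'⟩ := Finset.exists_ne_zero_of_sum_ne_zero (Finset.mem_filter.mp hb).2
    have h1 : J + b = μ := by
      by_contra hc
      exact hJ' (if_neg hc)
    rw [if_pos h1] at hJ'
    have h2 : F J ≠ 0 := fun h0 => hJ' (by rw [h0]; simp)
    refine ⟨J, h2, ?_⟩
    have h3 := hmax J (Finset.mem_filter.mpr ⟨hJ, h2⟩)
    have h4 := m.le_degree (mem_support_iff.mpr hJ')
    rw [← h1, map_add, map_add] at h3
    exact m.toSyn.injective (le_antisymm (le_of_add_le_add_left h3) h4)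
  have hcard : L.card ≤ k + 1 := by
    choose! Jf hJf using hLdeg
    have hind : LinearIndependent ℚ fun b : L => F (Jf b) := by
      refine wronsk_indep m _ (fun b => (hJf b b.2).1) fun b b' hbb => ?_
      simp only [(hJf _ b.2).2, (hJf _ b'.2).2] at hbb
      exact Subtype.ext hbb
    have hind2 : LinearIndependent ℚ fun b : L =>
        (⟨F (Jf b), hFmem _⟩ : Submodule.span ℚ (Set.range f)) :=
      LinearIndependent.of_comp (Submodule.span ℚ (Set.range f)).subtype hind
    have : Module.Finite ℚ (Submodule.span ℚ (Set.range f)) :=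
      Module.Finite.span_of_finite ℚ (Set.finite_range f)
    have h1 := hind2.fintype_card_le_finrank
    have h2 : Module.finrank ℚ (Submodule.span ℚ (Set.range f)) ≤ k + 1 := by
      have h3 := finrank_range_le_card (R := ℚ) f
      rw [Fintype.card_fin] at h3
      exact h3
    rw [Fintype.card_coe] at h1
    omega
  have hrel : ∀ e : σ →₀ ℕ, ∑ j, e j ≤ k →
      ∑ b ∈ L, κ b * ∏ j, ((b j).choose (e j) : ℚ) = 0 := by
    intro e he
    have h1 : ∑ l, lam l * hasse e (f l) = ∑ J ∈ 𝒥, monomial J 1 * hasse e (F J) := by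
      have : ∀ l, lam l * hasse e (f l) =
          ∑ J ∈ 𝒥, monomial J 1 * (C (coeff J (lam l)) * hasse e (f l)) := by
        intro l
        conv_lhs => rw [hlamsum l]
        rw [Finset.sum_mul]
        refine Finset.sum_congr rfl fun J _ => ?_
        rw [← mul_assoc, mul_comm (monomial J 1), C_mul_monomial, mul_one]
      rw [Finset.sum_congr rfl fun l _ => this l, Finset.sum_comm]
      refine Finset.sum_congr rfl fun J _ => ?_
      rw [← Finset.mul_sum, hF]
      simp only [hasse_sum, hasse_C_mul]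
    have h2 : monomial e 1 * ∑ J ∈ 𝒥, monomial J 1 * hasse e (F J) =
        ∑ J ∈ 𝒥, ∑ b ∈ B, monomial (J + b) (coeff b (F J) * ∏ j, ((b j).choose (e j) : ℚ)) := by
      rw [Finset.mul_sum]
      refine Finset.sum_congr rfl fun J hJ => ?_
      rw [mul_left_comm, wronsk_mono_hasse e (F J) (B := B)
        (fun b hb => Finset.mem_biUnion.mpr ⟨J, hJ, hb⟩), Finset.mul_sum]
      refine Finset.sum_congr rfl fun b _ => ?_
      rw [monomial_mul, one_mul]
    rw [← h1, h e he, mul_zero] at h2
    have h3 := congrArg (coeff μ) h2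
    rw [coeff_zero, coeff_sum] at h3
    simp only [coeff_sum, coeff_monomial] at h3
    rw [Finset.sum_comm] at h3
    rw [hL, Finset.sum_filter_of_ne (fun b _ hb => left_ne_zero_of_mul hb), h3]
    refine Finset.sum_congr rfl fun b _ => ?_
    rw [hκ, Finset.sum_mul]
    refine Finset.sum_congr rfl fun J _ => ?_
    split_ifs <;> simp
  have hκ0 : κ (m.degree (F J0)) = coeff (m.degree (F J0)) (F J0) := by
    rw [hκ]
    simp only
    rw [Finset.sum_eq_single J0, if_pos rfl]
    · intro J _ hJ
      exact if_neg fun hc => hJ (add_right_cancel hc)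
    · intro hc
      exact absurd hJ0a hc
  have hne : κ (m.degree (F J0)) ≠ 0 := by
    rw [hκ0]; exact m.coeff_degree_ne_zero_iff.mpr hJ0b
  exact hne (interp k L hcard κ hrel _ (Finset.mem_filter.mpr
    ⟨Finset.mem_biUnion.mpr ⟨J0, hJ0a, m.degree_mem_support hJ0b⟩, hne⟩))

lemma exists_det_ne_zero {R E : Type*} [CommRing R] [IsDomain R] (n : ℕ) (ρ : E → Fin n → R)
    (h : ∀ lam : Fin n → R, (∀ e, ∑ l, lam l * ρ e l = 0) → lam = 0) :
    ∃ e : Fin n → E, (Matrix.of fun i l => ρ (e i) l).det ≠ 0 := by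
  induction n with
  | zero => exact ⟨Fin.elim0, by simp⟩
  | succ n ih =>
    obtain ⟨e', he'⟩ := ih (fun e l => ρ e l.succ) (by
      intro lam hlam
      have := h (Fin.cons 0 lam) (fun e => by simpa [Fin.sum_univ_succ] using hlam e)
      funext l
      simpa using congrFun this l.succ)
    by_contra hcon
    push Not at hcon
    have key := h (fun l => (-1) ^ (l : ℕ) *
        (Matrix.of fun i l' => ρ (e' i) (l.succAbove l')).det) (by
      intro e0
      have h1 := hcon (Fin.cons e0 e')
      rw [Matrix.det_succ_row_zero] at h1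
      rw [← h1]
      refine Finset.sum_congr rfl fun l _ => ?_
      have : (Matrix.of fun i l => ρ ((Fin.cons e0 e' : Fin (n + 1) → E) i) l).submatrix
          Fin.succ l.succAbove = Matrix.of fun i l' => ρ (e' i) (l.succAbove l') := by
        ext i l'
        simp
      rw [this]
      simp only [Matrix.of_apply, Fin.cons_zero]
      ring)
    have := congrFun key 0
    simp only [Fin.val_zero, pow_zero, one_mul, Fin.succAbove_zero, Pi.zero_apply] at this
    exact he' this

theorem exists_wronskian {σ : Type*} [Fintype σ] (k : ℕ) (f : Fin (k + 1) → MvPolynomial σ ℚ)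
    (hf : LinearIndependent ℚ f) :
    ∃ e : Fin (k + 1) → (σ →₀ ℕ), (∀ i, ∑ j, e i j ≤ k) ∧
      (Matrix.of fun i l => hasse (e i) (f l)).det ≠ 0 := by
  obtain ⟨e, he⟩ := exists_det_ne_zero (k + 1)
    (fun (e : {e : σ →₀ ℕ // ∑ j, e j ≤ k}) l => hasse e.1 (f l))
    (fun lam h => wronsk_span k f hf lam fun e he => h ⟨e, he⟩)
  exact ⟨fun i => (e i).1, fun i => (e i).2, he⟩

end Pool.Agent.Lib.Subspace
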